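import Pool.Agent.Lib.MP_42180a_gt.Cov

/-! Local structure of the quotient space of a gluing. -/

namespace Pool.Agent.Lib.MP_42180a_gt

open Topology Set

namespace Gluing

variable {n : ℕ} (T : Gluing n)

/-- Chains of gluings along facets containing the face `S` of `P`. -/
inductive Conn (P : Fin n) (S : Set (Fin 5)) : Fin n → Equiv.Perm (Fin 5) → Prop
  | refl : Conn P S P 1
  | step {Q : Fin n} {g : Equiv.Perm (Fin 5)} (i : Fin 5) : Conn P S Q g → (∀ m ∈ S, g m ≠ i) →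
      Conn P S (T.nbr Q i) (T.perm Q i * g)

variable {T}

theorem Conn.mono {P Q : Fin n} {S S' : Set (Fin 5)} {g : Equiv.Perm (Fin 5)}
    (h : T.Conn P S Q g) (hS : S' ⊆ S) : T.Conn P S' Q g := by
  induction h with
  | refl => exact .refl
  | step i _ hi ih => exact .step i ih (fun m hm => hi m (hS hm))

theorem Conn.trans {P Q R : Fin n} {S : Set (Fin 5)} {g k : Equiv.Perm (Fin 5)}
    (h : T.Conn P S Q g) (h' : T.Conn Q (g '' S) R k) : T.Conn P S R (k * g) := by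
  induction h' with
  | refl => simpa using h
  | step i _ hi ih =>
    rw [mul_assoc]
    exact .step i ih (fun m hm => hi _ ⟨m, hm, rfl⟩)

theorem Conn.single (P : Fin n) (S : Set (Fin 5)) (i : Fin 5) (hi : i ∉ S) :
    T.Conn P S (T.nbr P i) (T.perm P i) := by
  have := Conn.step (T := T) (P := P) (S := S) i .refl (fun m hm e => hi (by rw [← e]; exact hm))
  simpa using this

theorem Conn.symm {P Q : Fin n} {S : Set (Fin 5)} {g : Equiv.Perm (Fin 5)}
    (h : T.Conn P S Q g) : T.Conn Q (g '' S) P g⁻¹ := by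
  induction h with
  | refl => simpa using Conn.refl
  | @step Q g i _ hi ih =>
    have h1 := Conn.single (T := T) (T.nbr Q i) ((T.perm Q i * g) '' S) (T.perm Q i i) (by
      rintro ⟨m, hm, e⟩
      exact hi m hm ((T.perm Q i).injective e))
    rw [T.nbr_nbr, T.perm_nbr] at h1
    have h2 : (⇑(T.perm Q i)⁻¹) '' ((T.perm Q i * g) '' S) = g '' S := by
      rw [← image_comp]; congr 1; funext m; simp
    rw [← h2] at ih
    simpa using h1.trans ih

/-- No face is identified with itself by a non-identity map. -/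
def Valid (T : Gluing n) : Prop :=
  ∀ P S g, T.Conn P S P g → g '' S = S → ∀ m ∈ S, g m = m

theorem Valid.unique (hT : T.Valid) {P Q : Fin n} {S : Set (Fin 5)} {g k : Equiv.Perm (Fin 5)}
    (h : T.Conn P S Q g) (h' : T.Conn P S Q k) (e : g '' S = k '' S) : ∀ m ∈ S, g m = k m := by
  intro m hm
  have h1 := h.trans (e ▸ h'.symm)
  have := hT P S _ h1 (by
    rw [Equiv.Perm.coe_mul, image_comp, e, ← image_comp]; simp) m hm
  have h2 := congrArg k this
  simpa using h2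

/-- The support of a point of the pentachoron. -/
def supp (a : Pent) : Set (Fin 5) := {j | a.1 j ≠ 0}

theorem Conn.exists_eq {P Q : Fin n} {S : Set (Fin 5)} {g : Equiv.Perm (Fin 5)}
    (h : T.Conn P S Q g) (a : Pent) (ha : supp a ⊆ S) (b : Pent) (hb : ∀ j, b.1 (g j) = a.1 j) :
    T.cell P a = T.cell Q b := by
  induction h generalizing b with
  | refl =>
    have : a = b := Subtype.ext (funext fun j => (hb j).symm)
    rw [this]
  | @step Q g i _ hi ih =>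
    let c : Pent := ⟨fun j => b.1 (T.perm Q i j), fun j => b.2.1 _, by
      rw [Equiv.sum_comp (T.perm Q i) b.1]; exact b.2.2⟩
    refine (ih c (fun j => hb j)).trans (Quot.sound ⟨i, ?_, rfl, fun j => rfl⟩)
    show b.1 (T.perm Q i i) = 0
    have := hb (g⁻¹ i)
    simp only [Equiv.Perm.coe_mul, Function.comp, Equiv.Perm.coe_inv, Equiv.apply_symm_apply] at this
    rw [this]
    by_contra h0
    exact hi _ (ha h0) (by simp)

theorem cell_eq_iff {P Q : Fin n} {a b : Pent} :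
    T.cell P a = T.cell Q b ↔ ∃ g, T.Conn P (supp a) Q g ∧ ∀ j, b.1 (g j) = a.1 j := by
  refine ⟨fun h => ?_, fun ⟨g, h1, h2⟩ => h1.exists_eq a subset_rfl b h2⟩
  have h' : Relation.EqvGen T.Rel (P, a) (Q, b) := Quot.eq.1 h
  have key : ∀ x y : Fin n × Pent, Relation.EqvGen T.Rel x y →
      ∃ g, T.Conn x.1 (supp x.2) y.1 g ∧ ∀ j, y.2.1 (g j) = x.2.1 j := by
    have him : ∀ (g : Equiv.Perm (Fin 5)) (a b : Pent), (∀ j, b.1 (g j) = a.1 j) →
        g '' supp a = supp b := fun g a b hb => by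
      ext j
      constructor
      · rintro ⟨m, hm, rfl⟩; show b.1 _ ≠ 0; rw [hb]; exact hm
      · intro hj
        refine ⟨g⁻¹ j, ?_, by simp⟩
        show a.1 _ ≠ 0
        rw [← hb]; simpa [supp] using hj
    intro x y hxy
    induction hxy with
    | rel x y h =>
      obtain ⟨i, h1, h2, h3⟩ := h
      exact ⟨_, h2 ▸ Conn.single x.1 _ i (fun h => h h1), h3⟩
    | refl x => exact ⟨1, .refl, fun _ => rfl⟩
    | symm x y _ ih =>
      obtain ⟨g, h1, h2⟩ := ih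
      refine ⟨g⁻¹, him g _ _ h2 ▸ h1.symm, fun j => ?_⟩
      rw [← h2]; simp
    | trans x y z _ _ ih1 ih2 =>
      obtain ⟨g, h1, h2⟩ := ih1
      obtain ⟨k, h3, h4⟩ := ih2
      exact ⟨k * g, h1.trans (him g _ _ h2 ▸ h3), fun j => (h4 _).trans (h2 j)⟩
  exact key _ _ h'

variable (T)

def pr (p : Fin n × Pent) : T.Space := Quot.mk T.Rel p

theorem isQuotientMap_pr : IsQuotientMap T.pr := isQuotientMap_quot_mk

theorem continuous_pr : Continuous T.pr := T.isQuotientMap_pr.continuous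

theorem continuous_cell (P : Fin n) : Continuous (T.cell P) :=
  T.continuous_pr.comp (Continuous.prodMk_right P)

theorem exists_cell (x : T.Space) : ∃ P a, T.cell P a = x := by
  obtain ⟨⟨P, a⟩, rfl⟩ := Quot.exists_rep x
  exact ⟨P, a, rfl⟩

instance : CompactSpace T.Space := T.isQuotientMap_pr.surjective.compactSpace T.continuous_pr

theorem isClosed_ker : IsClosed {pq : (Fin n × Pent) × (Fin n × Pent) | T.pr pq.1 = T.pr pq.2} := by
  have : {pq : (Fin n × Pent) × (Fin n × Pent) | T.pr pq.1 = T.pr pq.2} =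
      ⋃ c : {c : Fin n × Set (Fin 5) × Fin n × Equiv.Perm (Fin 5) //
        T.Conn c.1 c.2.1 c.2.2.1 c.2.2.2},
        {pq | pq.1.1 = c.1.1 ∧ pq.2.1 = c.1.2.2.1 ∧ (∀ j, j ∉ c.1.2.1 → pq.1.2.1 j = 0) ∧
          ∀ j, pq.2.2.1 (c.1.2.2.2 j) = pq.1.2.1 j} := by
    ext ⟨⟨P, a⟩, ⟨Q, b⟩⟩
    simp only [mem_ofPred_eq, mem_iUnion]
    constructor
    · intro h
      obtain ⟨g, h1, h2⟩ := cell_eq_iff.1 h
      exact ⟨⟨(P, supp a, Q, g), h1⟩, rfl, rfl, fun j hj => by simpa [supp] using hj, h2⟩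
    · rintro ⟨⟨⟨P', S, Q', g⟩, h1⟩, rfl, rfl, h2, h3⟩
      exact h1.exists_eq a (fun j hj => by by_contra h; exact hj (h2 j h)) b h3
  rw [this]
  refine isClosed_iUnion_of_finite fun c => ?_
  have c1 : ∀ j, Continuous fun pq : (Fin n × Pent) × (Fin n × Pent) => pq.1.2.1 j := fun j =>
    (continuous_apply j).comp (continuous_subtype_val.comp (continuous_snd.comp continuous_fst))
  have c2 : ∀ j, Continuous fun pq : (Fin n × Pent) × (Fin n × Pent) => pq.2.2.1 j := fun j =>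
    (continuous_apply j).comp (continuous_subtype_val.comp (continuous_snd.comp continuous_snd))
  simp only [ofPred_and, ofPred_forall]
  refine (isClosed_eq (by fun_prop) continuous_const).inter
    ((isClosed_eq (by fun_prop) continuous_const).inter
    ((isClosed_iInter fun j => isClosed_iInter fun _ => isClosed_eq (c1 j) continuous_const).inter
    (isClosed_iInter fun j => isClosed_eq (c2 _) (c1 j))))

theorem isClosedMap_pr : IsClosedMap T.pr := by
  intro A hA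
  rw [← T.isQuotientMap_pr.isClosed_preimage]
  have : T.pr ⁻¹' (T.pr '' A) = Prod.snd ''
      ({pq : (Fin n × Pent) × (Fin n × Pent) | T.pr pq.1 = T.pr pq.2} ∩ Prod.fst ⁻¹' A) := by
    ext p
    constructor
    · rintro ⟨q, hq, e⟩; exact ⟨(q, p), ⟨e, hq⟩, rfl⟩
    · rintro ⟨⟨q, p'⟩, ⟨e, hq⟩, rfl⟩; exact ⟨q, hq, e⟩
  rw [this]
  exact ((T.isClosed_ker.inter (hA.preimage continuous_fst)).isCompact.image
    continuous_snd).isClosed

theorem isProperMap_pr : IsProperMap T.pr := by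
  rw [isProperMap_iff_isClosedMap_and_compact_fibers]
  refine ⟨T.continuous_pr, T.isClosedMap_pr, fun x => ?_⟩
  obtain ⟨p, rfl⟩ := T.isQuotientMap_pr.surjective x
  have : T.pr ⁻¹' {T.pr p} = (fun q => (q, p)) ⁻¹'
    {pq : (Fin n × Pent) × (Fin n × Pent) | T.pr pq.1 = T.pr pq.2} := rfl
  rw [this]
  exact (T.isClosed_ker.preimage (by fun_prop)).isCompact

instance : T2Space T.Space := by
  rw [t2_iff_isClosed_diagonal]
  have : diagonal T.Space = Prod.map T.pr T.pr ''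
      {pq : (Fin n × Pent) × (Fin n × Pent) | T.pr pq.1 = T.pr pq.2} := by
    ext ⟨x, y⟩
    constructor
    · intro h
      obtain ⟨p, rfl⟩ := T.isQuotientMap_pr.surjective x
      have : T.pr p = y := h
      subst this
      exact ⟨(p, p), rfl, rfl⟩
    · rintro ⟨⟨p, q⟩, e, h⟩
      rw [← h]; exact e
  rw [this]
  exact (T.isProperMap_pr.prodMap T.isProperMap_pr).isClosedMap _ T.isClosed_ker

/-- The vertices with large barycentric coordinate. -/
def big (τ : ℝ) (a : Fin 5 → ℝ) : Set (Fin 5) := {j | τ < a j}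

def Gen (τ : ℝ) (a : Fin 5 → ℝ) : Prop := ∀ j, a j ≠ τ

theorem Gen.eventually {τ : ℝ} {a : Fin 5 → ℝ} (h : Gen τ a) :
    ∀ᶠ b in 𝓝 a, Gen τ b ∧ big τ b = big τ a := by
  have : ∀ᶠ b in 𝓝 a, ∀ j, (a j < τ → b j < τ) ∧ (τ < a j → τ < b j) := by
    rw [Filter.eventually_all]
    intro j
    refine Filter.Eventually.and ?_ ?_
    · by_cases hj : a j < τ
      · exact ((continuous_apply j).continuousAt.eventually_lt continuousAt_const hj).mono
          fun b hb _ => hb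
      · exact .of_forall fun b hb => absurd hb hj
    · by_cases hj : τ < a j
      · exact (continuousAt_const.eventually_lt (continuous_apply j).continuousAt hj).mono
          fun b hb _ => hb
      · exact .of_forall fun b hb => absurd hb hj
  refine this.mono fun b hb => ⟨fun j => ?_, ?_⟩
  · rcases lt_or_gt_of_ne (h j) with h1 | h1
    · exact ((hb j).1 h1).ne
    · exact ((hb j).2 h1).ne'
  · ext j
    refine ⟨fun h1 => ?_, (hb j).2⟩
    rcases lt_or_gt_of_ne (h j) with h2 | h2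
    · exact absurd ((hb j).1 h2) (not_lt.2 (le_of_lt h1))
    · exact h2

theorem isOpen_gen (τ τ' : ℝ) (Ψ : Set (Fin 5) → Set (Fin 5) → Prop) :
    IsOpen {a : Fin 5 → ℝ | Gen τ a ∧ Gen τ' a ∧ Ψ (big τ a) (big τ' a)} := by
  rw [isOpen_iff_mem_nhds]
  rintro a ⟨h1, h2, h3⟩
  filter_upwards [h1.eventually, h2.eventually] with b hb hb'
  exact ⟨hb.1, hb'.1, by rw [hb.2, hb'.2]; exact h3⟩

theorem image_big {τ : ℝ} {a b : Fin 5 → ℝ} {g : Equiv.Perm (Fin 5)} (h : ∀ j, b (g j) = a j) :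
    g '' big τ a = big τ b := by
  ext j
  constructor
  · rintro ⟨m, hm, rfl⟩; show τ < b _; rw [h]; exact hm
  · intro hj
    refine ⟨g⁻¹ j, ?_, by simp⟩
    show τ < a _
    rw [← h]; simpa [big] using hj

theorem gen_iff {τ : ℝ} {a b : Fin 5 → ℝ} {g : Equiv.Perm (Fin 5)} (h : ∀ j, b (g j) = a j) :
    Gen τ a ↔ Gen τ b :=
  ⟨fun ha j => by rw [← g.apply_symm_apply j, h]; exact ha _, fun hb j => by rw [← h]; exact hb _⟩

theorem big_subset_supp {τ : ℝ} (hτ : 0 ≤ τ) (a : Pent) : big τ a.1 ⊆ supp a :=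
  fun _ hj => (lt_of_le_of_lt hτ hj).ne'

/-- Points none of whose coordinates equals `τ`. -/
def U (τ : ℝ) : Set T.Space := {x | ∃ P a, T.cell P a = x ∧ Gen τ a.1}

variable {T} in
theorem mem_U {τ : ℝ} {P : Fin n} {a : Pent} : T.cell P a ∈ T.U τ ↔ Gen τ a.1 := by
  refine ⟨fun ⟨Q, b, e, h⟩ => ?_, fun h => ⟨P, a, rfl, h⟩⟩
  obtain ⟨g, -, hg⟩ := cell_eq_iff.1 e
  exact (gen_iff hg).1 h

theorem isOpen_of_cell {W : Set T.Space} (O : Fin n → Set (Fin 5 → ℝ)) (hO : ∀ P, IsOpen (O P))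
    (h : ∀ P a, T.cell P a ∈ W ↔ a.1 ∈ O P) : IsOpen W := by
  rw [← T.isQuotientMap_pr.isOpen_preimage]
  have : T.pr ⁻¹' W = ⋃ P, ({P} : Set (Fin n)) ×ˢ (Subtype.val ⁻¹' O P) := by
    ext ⟨P, a⟩
    simp only [mem_preimage, mem_iUnion, mem_prod, mem_singleton_iff, exists_eq_left']
    exact h P a
  rw [this]
  exact isOpen_iUnion fun P => (isOpen_discrete _).prod ((hO P).preimage continuous_subtype_val)

theorem isOpen_U (τ : ℝ) : IsOpen (T.U τ) :=
  T.isOpen_of_cell (fun _ => _) (fun _ => isOpen_gen τ τ (fun _ _ => True))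
    (fun _ _ => by simp [mem_U])

theorem exists_gen (a : Fin 5 → ℝ) : ∃ τ, 0 < τ ∧ τ < 1 / 5 ∧ Gen τ a := by
  obtain ⟨τ, h1, h2⟩ := (Set.Ioo_infinite (by norm_num : (0 : ℝ) < 1 / 5)).exists_notMem_finset
    (Finset.univ.image a)
  exact ⟨τ, h1.1, h1.2, fun j e => h2 (Finset.mem_image.2 ⟨j, Finset.mem_univ _, e⟩)⟩

theorem exists_mem_U (x : T.Space) : ∃ τ, 0 < τ ∧ τ < 1 / 5 ∧ x ∈ T.U τ := by
  obtain ⟨P, a, rfl⟩ := T.exists_cell x
  obtain ⟨τ, h1, h2, h3⟩ := exists_gen a.1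
  exact ⟨τ, h1, h2, mem_U.2 h3⟩

/-- A neighbourhood of the central part of the face `S₀` of `P₀`. -/
def N (P₀ : Fin n) (S₀ S₀' : Set (Fin 5)) (τ τ' : ℝ) : Set T.Space :=
  {x | ∃ P a, T.cell P a = x ∧ Gen τ a.1 ∧ Gen τ' a.1 ∧
    ∃ g, T.Conn P₀ S₀ P g ∧ g '' S₀ = big τ a.1 ∧ g '' S₀' = big τ' a.1}

variable {T} in
theorem mem_N {P₀ : Fin n} {S₀ S₀' : Set (Fin 5)} {τ τ' : ℝ} (hτ : 0 ≤ τ) {P : Fin n} {a : Pent} :
    T.cell P a ∈ T.N P₀ S₀ S₀' τ τ' ↔ Gen τ a.1 ∧ Gen τ' a.1 ∧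
      ∃ g, T.Conn P₀ S₀ P g ∧ g '' S₀ = big τ a.1 ∧ g '' S₀' = big τ' a.1 := by
  refine ⟨fun ⟨Q, b, e, h1, h2, g, h3, h4, h5⟩ => ?_, fun h => ⟨P, a, rfl, h⟩⟩
  obtain ⟨k, hk1, hk⟩ := cell_eq_iff.1 e
  refine ⟨(gen_iff hk).1 h1, (gen_iff hk).1 h2, k * g,
    h3.trans (hk1.mono (h4 ▸ big_subset_supp hτ b)), ?_, ?_⟩
  · rw [Equiv.Perm.coe_mul, image_comp, h4, image_big hk]
  · rw [Equiv.Perm.coe_mul, image_comp, h5, image_big hk]

theorem isOpen_N (P₀ : Fin n) (S₀ S₀' : Set (Fin 5)) {τ : ℝ} (τ' : ℝ) (hτ : 0 ≤ τ) :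
    IsOpen (T.N P₀ S₀ S₀' τ τ') :=
  T.isOpen_of_cell (fun _ => _) (fun P => isOpen_gen τ τ'
    (fun S S' => ∃ g, T.Conn P₀ S₀ P g ∧ g '' S₀ = S ∧ g '' S₀' = S'))
    (fun _ _ => mem_N hτ)

variable {T} in
theorem mem_N_self {τ τ' : ℝ} {P : Fin n} {a : Pent} (h : Gen τ a.1) (h' : Gen τ' a.1) :
    T.cell P a ∈ T.N P (big τ a.1) (big τ' a.1) τ τ' :=
  ⟨P, a, rfl, h, h', 1, .refl, by simp, by simp⟩

variable {T} in
theorem subset_N {τ τ' : ℝ} (hτ : 0 ≤ τ) {A : Set T.Space} (hA : IsPreconnected A)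
    (h : A ⊆ T.U τ) (h' : A ⊆ T.U τ') {P : Fin n} {a : Pent} (ha : T.cell P a ∈ A) :
    A ⊆ T.N P (big τ a.1) (big τ' a.1) τ τ' := by
  set N₀ := T.N P (big τ a.1) (big τ' a.1) τ τ' with hN₀
  refine hA.subset_left_of_subset_union (v := ⋃ p : {p : Fin n × Pent // T.cell p.1 p.2 ∉ N₀ ∧
      Gen τ p.2.1 ∧ Gen τ' p.2.1},
    T.N p.1.1 (big τ p.1.2.1) (big τ' p.1.2.1) τ τ') (T.isOpen_N _ _ _ _ hτ)
    (isOpen_iUnion fun p => T.isOpen_N _ _ _ _ hτ) ?_ (fun x hx => ?_)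
    ⟨_, ha, mem_N_self (mem_U.1 (h ha)) (mem_U.1 (h' ha))⟩
  · rw [Set.disjoint_iUnion_right]
    rintro ⟨⟨Q, b⟩, hb, hb1, hb2⟩
    rw [Set.disjoint_left]
    intro z hz hz'
    obtain ⟨R, c, rfl⟩ := T.exists_cell z
    obtain ⟨-, -, g, g1, g2, g3⟩ := (mem_N hτ).1 hz
    obtain ⟨-, -, k, k1, k2, k3⟩ := (mem_N hτ).1 hz'
    refine hb ((mem_N hτ).2 ⟨hb1, hb2, k⁻¹ * g, g1.trans (by rw [g2, ← k2]; exact k1.symm), ?_, ?_⟩)
    · rw [Equiv.Perm.coe_mul, image_comp, g2, ← k2, ← image_comp]; simp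
    · rw [Equiv.Perm.coe_mul, image_comp, g3, ← k3, ← image_comp]; simp
  · by_cases hx' : x ∈ N₀
    · exact Or.inl hx'
    · obtain ⟨Q, b, rfl⟩ := T.exists_cell x
      exact Or.inr (mem_iUnion.2 ⟨⟨(Q, b), hx', mem_U.1 (h hx), mem_U.1 (h' hx)⟩,
        mem_N_self (mem_U.1 (h hx)) (mem_U.1 (h' hx))⟩)

theorem exists_big (a : Pent) : ∃ m, 1 / 5 ≤ a.1 m := by
  by_contra h
  push Not at h
  have : ∑ j, a.1 j < ∑ _j : Fin 5, (1 / 5 : ℝ) :=
    Finset.sum_lt_sum_of_nonempty Finset.univ_nonempty fun j _ => h j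
  rw [a.2.2] at this
  norm_num at this

open Classical in
/-- A chosen identification of the face `S₀` of `P₀` with the face `S` of `P`. -/
noncomputable def tr (P₀ : Fin n) (S₀ : Set (Fin 5)) (P : Fin n) (S : Set (Fin 5)) :
    Equiv.Perm (Fin 5) :=
  if h : ∃ g, T.Conn P₀ S₀ P g ∧ g '' S₀ = S then h.choose else 1

variable {T} in
theorem tr_eq (hT : T.Valid) {P₀ : Fin n} {S₀ : Set (Fin 5)} {P : Fin n} {S : Set (Fin 5)}
    {g : Equiv.Perm (Fin 5)} (h1 : T.Conn P₀ S₀ P g) (h2 : g '' S₀ = S) :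
    ∀ m ∈ S₀, T.tr P₀ S₀ P S m = g m := by
  have h : ∃ g, T.Conn P₀ S₀ P g ∧ g '' S₀ = S := ⟨g, h1, h2⟩
  rw [tr, dif_pos h]
  exact hT.unique h.choose_spec.1 h1 (h.choose_spec.2.trans h2.symm)

end Gluing

end Pool.Agent.Lib.MP_42180a_gt
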