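import Pool.Agent.Lib.MP_42180a_gt.Cov
import Pool.Agent.Lib.MP_42180a_gt.Local

-- part Pool.Agent.Lib.MP_42180a_gt.Cone
section

/-! Cones over three-dimensional gluings, and invariance of being PL four-space under
Pachner moves. -/

namespace Pool.Agent.Lib.MP_42180a_gt

abbrev V5 : Type := Fin 5 → ℝ

/-- A three-dimensional gluing whose tetrahedra carry four of the five labels. -/
structure Cx where
  al : ℕ → Prop
  mu : ℕ → Fin 5
  nb : ℕ → Fin 5 → ℕ
  g : ℕ → Fin 5 → Fin 5 → Fin 5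

namespace Cx

def Dom (L : Cx) (p : ℕ × V5) : Prop := L.al p.1 ∧ (∀ j, 0 ≤ p.2 j) ∧ p.2 (L.mu p.1) = 0

def Rel (L : Cx) (p q : ℕ × V5) : Prop :=
  L.Dom p ∧ L.Dom q ∧ ∃ i, i ≠ L.mu p.1 ∧ p.2 i = 0 ∧ q.1 = L.nb p.1 i ∧
    ∀ j, p.2 j = q.2 (L.g p.1 i j)

def Eqv (L : Cx) : ℕ × V5 → ℕ × V5 → Prop := Relation.EqvGen L.Rel

def IsChart (L : Cx) (F : ℕ × V5 → E4) : Prop :=
  (∀ p q, L.Rel p q → F p = F q) ∧ (∀ p q, L.Dom p → L.Dom q → F p = F q → L.Eqv p q) ∧
  (∀ t, L.al t → Cov {y | L.Dom (t, y)}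
    (fun C => ∃ A : V5 →ᵃ[ℝ] E4, ∀ y ∈ C, L.Dom (t, y) → F (t, y) = A y)) ∧
  Cov Set.univ (fun D => ∃ (t : ℕ) (B : E4 →ᵃ[ℝ] V5), ∀ z ∈ D, L.Dom (t, B z) ∧ F (t, B z) = z)

def Good (L : Cx) : Prop := ∃ F, L.IsChart F

theorem Eqv.dom_iff {L : Cx} {p q : ℕ × V5} (h : L.Eqv p q) : L.Dom p ↔ L.Dom q := by
  induction h with
  | rel _ _ h => exact ⟨fun _ => h.2.1, fun _ => h.1⟩
  | refl => rfl
  | symm _ _ _ ih => exact ih.symm
  | trans _ _ _ _ _ ih1 ih2 => exact ih1.trans ih2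

theorem IsChart.eq_of_eqv {L : Cx} {F : ℕ × V5 → E4} (hF : L.IsChart F) {p q : ℕ × V5}
    (h : L.Eqv p q) : F p = F q := by
  induction h with
  | rel _ _ h => exact hF.1 _ _ h
  | refl => rfl
  | symm _ _ _ ih => exact ih.symm
  | trans _ _ _ _ _ ih1 ih2 => exact ih1.trans ih2

structure Corr (L L' : Cx) (M : ℕ × V5 → ℕ × V5 → Prop) : Prop where
  cov : ∀ t, L.al t → Cov {y | L.Dom (t, y)} (fun C => ∃ (t' : ℕ) (A : V5 →ᵃ[ℝ] V5),
    ∀ y ∈ C, L.Dom (t, y) → L'.Dom (t', A y) ∧ M (t, y) (t', A y))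
  fn : ∀ p q q', L.Dom p → L'.Dom q → L'.Dom q' → M p q → M p q' → L'.Eqv q q'
  rel : ∀ p p', L.Rel p p' → ∃ q q', L'.Dom q ∧ L'.Dom q' ∧ M p q ∧ M p' q' ∧ L'.Eqv q q'

theorem Corr.tot {L L' : Cx} {M : ℕ × V5 → ℕ × V5 → Prop} (h : Corr L L' M) {p : ℕ × V5}
    (hp : L.Dom p) : ∃ q, L'.Dom q ∧ M p q := by
  obtain ⟨𝒞, h1, h2⟩ := h.cov p.1 hp.1
  obtain ⟨C, hC, hy⟩ := h1 p.2 hp
  obtain ⟨t', A, hA⟩ := (h2 C hC).2
  exact ⟨_, hA p.2 hy hp⟩

theorem Corr.eqv {L L' : Cx} {M : ℕ × V5 → ℕ × V5 → Prop} (h : Corr L L' M) {p p' : ℕ × V5}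
    (hpp : L.Eqv p p') : L.Dom p → ∀ q q', L'.Dom q → L'.Dom q' → M p q → M p' q' →
      L'.Eqv q q' := by
  induction hpp with
  | rel p p' hr =>
    intro hp q q' hq hq' hM hM'
    obtain ⟨r, r', hr1, hr2, hr3, hr4, hr5⟩ := h.rel p p' hr
    exact .trans _ _ _ (h.fn p q r hp hq hr1 hM hr3)
      (.trans _ _ _ hr5 (h.fn p' r' q' hr.2.1 hr2 hq' hr4 hM'))
  | refl p => intro hp q q' hq hq' hM hM'; exact h.fn p q q' hp hq hq' hM hM'
  | symm p p' hpp ih =>
    intro hp q q' hq hq' hM hM'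
    exact .symm _ _ (ih ((Eqv.dom_iff hpp).2 hp) q' q hq' hq hM' hM)
  | trans p p' p'' h1 _ ih1 ih2 =>
    intro hp q q' hq hq' hM hM'
    have hp' := (Eqv.dom_iff h1).1 hp
    obtain ⟨r, hr, hMr⟩ := h.tot hp'
    exact .trans _ _ _ (ih1 hp q r hq hr hM hMr) (ih2 hp' r q' hr hq' hMr hM')

theorem Good.transfer {L L' : Cx} {M : ℕ × V5 → ℕ × V5 → Prop} (h : Corr L L' M)
    (h' : Corr L' L (fun q p => M p q)) (hG : L'.Good) : L.Good := by
  classical
  obtain ⟨F', hF'⟩ := hG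
  choose! φ hφ1 hφ2 using fun p (hp : L.Dom p) => h.tot hp
  have key : ∀ p q, L.Dom p → L'.Dom q → M p q → F' (φ p) = F' q := fun p q hp hq hM =>
    hF'.eq_of_eqv (h.fn p _ _ hp (hφ1 p hp) hq (hφ2 p hp) hM)
  refine ⟨fun p => F' (φ p), fun p q hr => ?_, fun p q hp hq hpq => ?_, fun t ht => ?_, ?_⟩
  · exact hF'.eq_of_eqv (h.eqv (.rel _ _ hr) hr.1 _ _ (hφ1 p hr.1) (hφ1 q hr.2.1) (hφ2 p hr.1)
      (hφ2 q hr.2.1))
  · exact h'.eqv (hF'.2.1 _ _ (hφ1 p hp) (hφ1 q hq) hpq) (hφ1 p hp) p q hp hq (hφ2 p hp)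
      (hφ2 q hq)
  · refine (h.cov t ht).bind fun C ⟨t', A, hA⟩ => ?_
    by_cases ht' : L'.al t'
    · refine (hF'.2.2.1 t' ht').comap A (fun y hy => (hA y hy.2 hy.1).1) ?_
      rintro C' ⟨A', hA'⟩
      refine ⟨A'.comp A, fun y hy hd => ?_⟩
      have := hA y hy.2 hd
      exact (key _ _ hd this.1 this.2).trans (hA' _ hy.1 this.1)
    · exact Cov.single ⟨0, fun y hy hd => absurd (hA y hy.2 hd).1.1 ht'⟩
  · refine hF'.2.2.2.bind fun D ⟨t', B, hB⟩ => ?_
    by_cases ht' : L'.al t'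
    · refine (h'.cov t' ht').comap B (fun z hz => (hB z hz.2).1) ?_
      rintro C ⟨t, A, hA⟩
      refine ⟨t, A.comp B, fun z hz => ?_⟩
      have h1 := hB z hz.2
      have h2 := hA _ hz.1 h1.1
      exact ⟨h2.1, (key _ _ h2.1 h1.1 h2.2).trans h1.2⟩
    · exact Cov.single ⟨0, 0, fun z hz => absurd (hB z hz.2).1.1 ht'⟩

/-! ### Relabelling -/

structure HalfIso (L L' : Cx) (r ri : ℕ → Fin 5 → Fin 5) : Prop where
  inv1 : ∀ t, L.al t → ∀ j, r t (ri t j) = j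
  inv2 : ∀ t, L.al t → ∀ j, ri t (r t j) = j
  al : ∀ t, L.al t ↔ L'.al t
  mu : ∀ t, L.al t → L'.mu t = r t (L.mu t)
  nb : ∀ t i, L.al t → i ≠ L.mu t → L'.nb t (r t i) = L.nb t i
  g : ∀ t i, L.al t → i ≠ L.mu t → L.al (L.nb t i) → ∀ j,
    L'.g t (r t i) (r t j) = r (L.nb t i) (L.g t i j)

theorem HalfIso.symm {L L' : Cx} {r ri : ℕ → Fin 5 → Fin 5} (h : HalfIso L L' r ri) :
    HalfIso L' L ri r := by
  have hne : ∀ t i, L.al t → i ≠ L'.mu t → ri t i ≠ L.mu t := fun t i ht hi e =>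
    hi (by rw [h.mu t ht, ← e, h.inv1 t ht])
  have hnb : ∀ t i, L'.al t → i ≠ L'.mu t → L.nb t (ri t i) = L'.nb t i := fun t i ht hi => by
    have ht' := (h.al t).2 ht
    rw [← h.nb t _ ht' (hne t i ht' hi), h.inv1 t ht']
  refine ⟨fun t ht => h.inv2 t ((h.al t).2 ht), fun t ht => h.inv1 t ((h.al t).2 ht),
    fun t => (h.al t).symm, fun t ht => ?_, hnb, fun t i ht hi hn j => ?_⟩
  · have ht' := (h.al t).2 ht
    rw [h.mu t ht', h.inv2 t ht']
  · have ht' := (h.al t).2 ht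
    have hn' : L.al (L.nb t (ri t i)) := by rw [hnb t i ht hi]; exact (h.al _).2 hn
    have := h.g t (ri t i) ht' (hne t i ht' hi) hn' (ri t j)
    rw [h.inv1 t ht', h.inv1 t ht'] at this
    rw [this, ← hnb t i ht hi, h.inv2 _ hn']

theorem HalfIso.corr {L L' : Cx} {r ri : ℕ → Fin 5 → Fin 5} (h : HalfIso L L' r ri) :
    Corr L L' (fun p q => q.1 = p.1 ∧ (∀ j, q.2 (r p.1 j) = p.2 j) ∧
      ∀ j, p.2 (ri q.1 j) = q.2 j) := by
  have hdom : ∀ p, L.Dom p → L'.Dom (p.1, fun j => p.2 (ri p.1 j)) := fun p hp =>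
    ⟨(h.al _).1 hp.1, fun j => hp.2.1 _, by
      show p.2 (ri p.1 (L'.mu p.1)) = 0
      rw [h.mu _ hp.1, h.inv2 _ hp.1]; exact hp.2.2⟩
  refine ⟨fun t ht => Cov.single ⟨t, (LinearMap.funLeft ℝ ℝ (ri t)).toAffineMap,
    fun y _ hd => ⟨hdom _ hd, rfl, fun j => ?_, fun j => rfl⟩⟩, ?_, ?_⟩
  · show y (ri t (r t j)) = y j
    rw [h.inv2 t ht]
  · rintro p ⟨t, z⟩ ⟨t', z'⟩ - - - ⟨h1, -, h2⟩ ⟨h3, -, h4⟩
    dsimp only at h1 h2 h3 h4
    subst h1; subst h3
    have : z = z' := funext fun j => (h2 j).symm.trans (h4 j)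
    subst this
    exact .refl _
  · rintro p p' ⟨hp, hp', i, hi, hi0, hn, hg⟩
    refine ⟨_, _, hdom p hp, hdom p' hp', ⟨rfl, fun j => ?_, fun j => rfl⟩,
      ⟨rfl, fun j => ?_, fun j => rfl⟩, .rel _ _ ⟨hdom p hp, hdom p' hp', r p.1 i, ?_, ?_, ?_, ?_⟩⟩
    · show p.2 (ri _ (r _ j)) = _
      rw [h.inv2 _ hp.1]
    · show p'.2 (ri _ (r _ j)) = _
      rw [h.inv2 _ hp'.1]
    · show r p.1 i ≠ L'.mu p.1
      rw [h.mu _ hp.1]
      intro e
      apply hi
      rw [← h.inv2 _ hp.1 i, e, h.inv2 _ hp.1]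
    · show p.2 (ri _ (r _ i)) = 0
      rw [h.inv2 _ hp.1]; exact hi0
    · show p'.1 = L'.nb p.1 (r p.1 i)
      rw [h.nb _ _ hp.1 hi]; exact hn
    · intro j
      show p.2 (ri p.1 j) = p'.2 (ri p'.1 (L'.g p.1 (r p.1 i) j))
      have := h.g _ _ hp.1 hi (hn ▸ hp'.1) (ri p.1 j)
      rw [h.inv1 _ hp.1] at this
      rw [this, ← hn, h.inv2 _ hp'.1]
      exact hg _

theorem HalfIso.good {L L' : Cx} {r ri : ℕ → Fin 5 → Fin 5} (h : HalfIso L L' r ri)
    (hG : L'.Good) : L.Good := by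
  refine Good.transfer h.corr ?_ hG
  have := h.symm.corr
  convert this using 3 with q p
  constructor
  · rintro ⟨h1, h2, h3⟩; exact ⟨h1.symm, h3, h2⟩
  · rintro ⟨h1, h2, h3⟩; exact ⟨h1.symm, h3, h2⟩

/-- Relabelling the vertices of each tetrahedron. -/
def relabel (L : Cx) (r ri : ℕ → Fin 5 → Fin 5) : Cx where
  al := L.al
  mu t := r t (L.mu t)
  nb t i := L.nb t (ri t i)
  g t i j := r (L.nb t (ri t i)) (L.g t (ri t i) (ri t j))

theorem good_of_relabel {L : Cx} {r ri : ℕ → Fin 5 → Fin 5} (h1 : ∀ t j, r t (ri t j) = j)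
    (h2 : ∀ t j, ri t (r t j) = j) (hG : (L.relabel r ri).Good) : L.Good :=
  HalfIso.good (L' := L.relabel r ri) (r := r) (ri := ri) ⟨fun t _ => h1 t, fun t _ => h2 t, fun _ => Iff.rfl,
    fun _ _ => rfl, fun t i _ _ => by simp [relabel, h2], fun t i _ _ _ j => by simp [relabel, h2]⟩
    hG

theorem good_of_congr {L L' : Cx} (h1 : ∀ t, L.al t ↔ L'.al t)
    (h2 : ∀ t, L.al t → L'.mu t = L.mu t ∧ ∀ i, i ≠ L.mu t → L'.nb t i = L.nb t i ∧
      ∀ j, L'.g t i j = L.g t i j) (hG : L'.Good) : L.Good :=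
  HalfIso.good (r := fun _ j => j) (ri := fun _ j => j) ⟨fun _ _ _ => rfl, fun _ _ _ => rfl, h1,
    fun t ht => (h2 t ht).1, fun t i ht hi => ((h2 t ht).2 i hi).1,
    fun t i ht hi _ => ((h2 t ht).2 i hi).2⟩ hG

/-! ### Pachner moves -/

def Inn (S : Fin 5 → Prop) (cell : Fin 5 → ℕ) (t : ℕ) : Prop := ∃ s, S s ∧ cell s = t

/-- The internal gluings of the part of the boundary of the four-simplex indexed by `S`. -/
def Internal (L : Cx) (S : Fin 5 → Prop) (cell : Fin 5 → ℕ) : Prop :=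
  (∀ s, S s → L.al (cell s) ∧ L.mu (cell s) = s) ∧
  ∀ s s', S s → S s' → s ≠ s' → L.nb (cell s) s' = cell s' ∧ L.g (cell s) s' s' = s ∧
    L.g (cell s) s' s = s' ∧ ∀ j, j ≠ s → j ≠ s' → L.g (cell s) s' j = j

theorem Internal.rel {L : Cx} {S : Fin 5 → Prop} {cell : Fin 5 → ℕ} (h : L.Internal S cell)
    {s s' : Fin 5} (hs : S s) (hs' : S s') {y : V5} (h0 : ∀ j, 0 ≤ y j) (hy : y s = 0)
    (hy' : y s' = 0) : L.Eqv (cell s, y) (cell s', y) := by
  by_cases e : s = s'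
  · subst e; exact .refl _
  obtain ⟨h1, h2, h3, h4⟩ := h.2 s s' hs hs' e
  refine .rel _ _ ⟨⟨(h.1 s hs).1, h0, by rw [(h.1 s hs).2]; exact hy⟩,
    ⟨(h.1 s' hs').1, h0, by rw [(h.1 s' hs').2]; exact hy'⟩, s', ?_, hy', h1.symm, fun j => ?_⟩
  · rw [(h.1 s hs).2]; exact fun e' => e e'.symm
  · dsimp only
    by_cases e1 : j = s
    · rw [e1, h3, hy, hy']
    by_cases e2 : j = s'
    · rw [e2, h2, hy, hy']
    rw [h4 j e1 e2]

theorem Internal.eq_of_rel {L : Cx} {S : Fin 5 → Prop} {cell : Fin 5 → ℕ} (h : L.Internal S cell)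
    {s i : Fin 5} (hs : S s) (hi : S i) (hne : i ≠ s) {y : V5} {q : ℕ × V5}
    (hp : L.Dom (cell s, y)) (_hq : L.Dom q) (hi0 : y i = 0) (hn : q.1 = L.nb (cell s) i)
    (hg : ∀ j, y j = q.2 (L.g (cell s) i j)) : q = (cell i, y) := by
  obtain ⟨h1, h2, h3, h4⟩ := h.2 s i hs hi hne.symm
  have hys : y s = 0 := by have := hp.2.2; rwa [(h.1 s hs).2] at this
  refine Prod.ext (hn.trans h1) (funext fun j => ?_)
  dsimp only
  by_cases e1 : j = s
  · rw [e1, hys, ← h2, ← hg, hi0]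
  by_cases e2 : j = i
  · rw [e2, hi0, ← h3, ← hg, hys]
  rw [hg j, h4 j e1 e2]

/-- The facet of the new complex corresponding to an external facet of the old one. -/
def Cor (L : Cx) (S S' : Fin 5 → Prop) (cell : Fin 5 → ℕ) (t : ℕ) (i : Fin 5) (t' : ℕ)
    (i' : Fin 5) : Prop :=
  (¬ Inn S cell t ∧ t' = t ∧ i' = i) ∨ (Inn S cell t ∧ S' i ∧ t' = cell i ∧ i' = L.mu t)

structure HalfMove (L L' : Cx) (S S' : Fin 5 → Prop) (cell : Fin 5 → ℕ) : Prop where
  compl : ∀ j, S' j ↔ ¬ S j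
  ne : ∃ u, S' u
  int : L.Internal S cell
  out : ∀ t, L.al t → ¬ Inn S cell t → L'.al t ∧ ¬ Inn S' cell t ∧ L'.mu t = L.mu t
  ext : ∀ t i, L.al t → i ≠ L.mu t → (Inn S cell t ∧ S i) ∨ ∃ t' i' t₂ i₂,
    L.Cor S S' cell t i t' i' ∧ L.Cor S S' cell (L.nb t i) (L.g t i i) t₂ i₂ ∧
    L'.nb t' i' = t₂ ∧ ∀ j, L'.g t' i' j = L.g t i j ∨
      ((j = i ∨ j = L.mu t) ∧ (L'.g t' i' j = L.g t i i ∨ L'.g t' i' j = L.mu (L.nb t i)))

def MM (S S' : Fin 5 → Prop) (cell : Fin 5 → ℕ) (p q : ℕ × V5) : Prop :=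
  (¬ Inn S cell p.1 ∧ ¬ Inn S' cell q.1 ∧ q = p) ∨ (Inn S cell p.1 ∧ Inn S' cell q.1 ∧
    ∃ c : ℝ, (∀ j, S j → q.2 j = p.2 j + c) ∧ ∀ j, S' j → p.2 j = q.2 j + c)

theorem HalfMove.corr {L L' : Cx} {S S' : Fin 5 → Prop} {cell : Fin 5 → ℕ}
    (h : HalfMove L L' S S' cell) (h' : L'.Internal S' cell) : Corr L L' (MM S S' cell) := by
  classical
  have hcov : ∀ t, L.al t → Cov {y | L.Dom (t, y)} (fun C => ∃ (t' : ℕ) (A : V5 →ᵃ[ℝ] V5),
      ∀ y ∈ C, L.Dom (t, y) → L'.Dom (t', A y) ∧ MM S S' cell (t, y) (t', A y)) := by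
    intro t ht
    by_cases hin : Inn S cell t
    · let P : Fin 5 → V5 →ᵃ[ℝ] ℝ := fun j => (LinearMap.proj j : V5 →ₗ[ℝ] ℝ).toAffineMap
      refine Cov.of_family (ι := {u // S' u})
        (fun u => {y | ∀ v : {u // S' u}, 0 ≤ (P v.1 - P u.1) y}) (fun y _ => ?_)
        (fun u => IsPolyhedron.of_family _) (fun u => ?_)
      · obtain ⟨u0, hu0⟩ := h.ne
        obtain ⟨u, -, hu⟩ := Finset.exists_min_image (Finset.univ : Finset {u // S' u})
          (fun u => y u.1) ⟨⟨u0, hu0⟩, Finset.mem_univ _⟩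
        exact ⟨u, fun v => by simpa [P] using hu v (Finset.mem_univ _)⟩
      · refine ⟨cell u.1, AffineMap.pi (fun j => if S j then P j + P u.1 else P j - P u.1),
          fun y hy hd => ?_⟩
        have hA : ∀ j, (AffineMap.pi (fun j => if S j then P j + P u.1 else P j - P u.1) y) j =
            if S j then y j + y u.1 else y j - y u.1 := fun j => by
          rw [AffineMap.pi_apply]; split_ifs <;> simp [P]
        refine ⟨⟨(h'.1 u.1 u.2).1, fun j => ?_, ?_⟩, Or.inr ⟨hin, ⟨u.1, u.2, rfl⟩, y u.1,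
          fun j hj => ?_, fun j hj => ?_⟩⟩
        · dsimp only; rw [hA]
          split_ifs with hj
          · exact add_nonneg (hd.2.1 j) (hd.2.1 u.1)
          · simpa [P] using hy ⟨j, (h.compl j).2 hj⟩
        · dsimp only; rw [(h'.1 u.1 u.2).2, hA, if_neg ((h.compl _).1 u.2), sub_self]
        · dsimp only; rw [hA, if_pos hj]
        · dsimp only; rw [hA, if_neg ((h.compl _).1 hj), sub_add_cancel]
    · obtain ⟨h1, h2, h3⟩ := h.out t ht hin
      exact Cov.single ⟨t, AffineMap.id ℝ V5, fun y _ hd =>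
        ⟨⟨h1, hd.2.1, by dsimp only; rw [h3]; exact hd.2.2⟩, Or.inl ⟨hin, h2, rfl⟩⟩⟩
  have hcor : ∀ t i t' i' y, L.Dom (t, y) → y i = 0 → L.Cor S S' cell t i t' i' →
      L'.Dom (t', y) ∧ MM S S' cell (t, y) (t', y) ∧ y i' = 0 ∧ (i ≠ L.mu t → i' ≠ L'.mu t') := by
    rintro t i t' i' y hd hy (⟨h1, rfl, rfl⟩ | ⟨h1, h2, rfl, rfl⟩)
    · obtain ⟨h2, h3, h4⟩ := h.out _ hd.1 h1
      exact ⟨⟨h2, hd.2.1, by dsimp only; rw [h4]; exact hd.2.2⟩, Or.inl ⟨h1, h3, rfl⟩, hy,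
        fun e => by rw [h4]; exact e⟩
    · exact ⟨⟨(h'.1 i h2).1, hd.2.1, by dsimp only; rw [(h'.1 i h2).2]; exact hy⟩,
        Or.inr ⟨h1, ⟨i, h2, rfl⟩, 0, fun j _ => by simp, fun j _ => by simp⟩, hd.2.2,
        fun e => by rw [(h'.1 i h2).2]; exact e.symm⟩
  refine ⟨hcov, ?_, ?_⟩
  · rintro p q q' - hq hq' (⟨h1, -, h2⟩ | ⟨h1, ⟨u, hu, e⟩, c, hc1, hc2⟩)
      (⟨h3, -, h4⟩ | ⟨h3, ⟨u', hu', e'⟩, c', hc1', hc2'⟩)
    · rw [h2, h4]; exact .refl _
    · exact absurd h3 h1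
    · exact absurd h1 h3
    · have z1 : q.2 u = 0 := by have := hq.2.2; rwa [← e, (h'.1 u hu).2] at this
      have z2 : q'.2 u' = 0 := by have := hq'.2.2; rwa [← e', (h'.1 u' hu').2] at this
      have hcc : c = c' := by
        have a1 := hc2 u hu; have a2 := hc2' u hu; have a3 := hc2 u' hu'; have a4 := hc2' u' hu'
        have := hq'.2.1 u; have := hq.2.1 u'
        linarith
      subst hcc
      have hz : q'.2 = q.2 := funext fun j => by
        by_cases hj : S j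
        · rw [hc1 j hj, hc1' j hj]
        · have a1 := hc2 j ((h.compl j).2 hj); have a2 := hc2' j ((h.compl j).2 hj); linarith
      have := h'.rel hu hu' hq.2.1 z1 (hz ▸ z2)
      rw [e, e'] at this
      convert this using 1
      exact Prod.ext rfl hz
  · rintro ⟨t, y⟩ p' ⟨hp, hp', i, hi, hi0, hn, hg⟩
    rcases h.ext t i hp.1 hi with ⟨⟨s, hs, rfl⟩, hSi⟩ | ⟨t', i', t₂, i₂, c1, c2, hnb, hgg⟩
    · have hp'e := h.int.eq_of_rel hs hSi (by rwa [(h.int.1 s hs).2] at hi) hp hp' hi0 hn hg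
      obtain ⟨𝒞, h1, h2⟩ := hcov _ hp.1
      obtain ⟨C, hC, hy⟩ := h1 y hp
      obtain ⟨t', A, hA⟩ := (h2 C hC).2
      obtain ⟨hd, hM⟩ := hA y hy hp
      refine ⟨_, _, hd, hd, hM, ?_, .refl _⟩
      rw [hp'e]
      rcases hM with ⟨h3, -⟩ | ⟨-, h3, h4⟩
      · exact absurd ⟨s, hs, rfl⟩ h3
      · exact Or.inr ⟨⟨i, hSi, rfl⟩, h3, h4⟩
    · obtain ⟨t0, y'⟩ := p'
      dsimp only at hn hg hi hi0
      subst hn
      have hi0' : y' (L.g t i i) = 0 := by rw [← hg, hi0]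
      obtain ⟨d1, m1, z1, n1⟩ := hcor _ _ _ _ _ hp hi0 c1
      obtain ⟨d2, m2, -, -⟩ := hcor _ _ _ _ _ hp' hi0' c2
      refine ⟨_, _, d1, d2, m1, m2, .rel _ _ ⟨d1, d2, i', n1 hi, z1, hnb.symm, fun j => ?_⟩⟩
      dsimp only
      rcases hgg j with e | ⟨e1, e2⟩
      · rw [e]; exact hg j
      · have a1 : y j = 0 := by
          rcases e1 with e | e
          · rw [e, hi0]
          · rw [e]; exact hp.2.2
        have a2 : y' (L'.g t' i' j) = 0 := by
          rcases e2 with e | e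
          · rw [e, hi0']
          · rw [e]; exact hp'.2.2
        rw [a1, a2]

theorem good_of_move {L L' : Cx} {S S' : Fin 5 → Prop} {cell : Fin 5 → ℕ}
    (h : HalfMove L L' S S' cell) (h' : HalfMove L' L S' S cell) (hG : L'.Good) : L.Good := by
  refine Good.transfer (h.corr h'.int) ?_ hG
  have := h'.corr h.int
  convert this using 3 with q p
  constructor
  · rintro (⟨h1, h2, h3⟩ | ⟨h1, h2, c, h3, h4⟩)
    · exact Or.inl ⟨h2, h1, h3.symm⟩
    · exact Or.inr ⟨h2, h1, c, h4, h3⟩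
  · rintro (⟨h1, h2, h3⟩ | ⟨h1, h2, c, h3, h4⟩)
    · exact Or.inl ⟨h2, h1, h3.symm⟩
    · exact Or.inr ⟨h2, h1, c, h4, h3⟩

/-! ### The boundary of the four-simplex -/

noncomputable def toE4 : V5 →ₗ[ℝ] E4 :=
  (WithLp.linearEquiv 2 ℝ (Fin 4 → ℝ)).symm.toLinearMap ∘ₗ
    LinearMap.pi (fun k : Fin 4 => (LinearMap.proj k.castSucc : V5 →ₗ[ℝ] ℝ) - LinearMap.proj 4)

theorem toE4_apply (y : V5) (k : Fin 4) : toE4 y k = y k.castSucc - y 4 := rfl

noncomputable def ofE4 : E4 →ₗ[ℝ] V5 :=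
  LinearMap.pi (fun j : Fin 5 => Fin.lastCases 0 (fun k : Fin 4 =>
    (LinearMap.proj k : (Fin 4 → ℝ) →ₗ[ℝ] ℝ) ∘ₗ (WithLp.linearEquiv 2 ℝ (Fin 4 → ℝ)).toLinearMap) j)

theorem ofE4_last (z : E4) : ofE4 z 4 = 0 := rfl

theorem ofE4_cast (z : E4) (k : Fin 4) : ofE4 z k.castSucc = z k := by
  simp [ofE4]

theorem good_of_boundary {L : Cx} {cell : Fin 5 → ℕ} (h : L.Internal (fun _ => True) cell)
    (h2 : ∀ t, L.al t → ∃ s, cell s = t) : L.Good := by
  refine ⟨fun p => toE4 p.2, ?_, ?_, fun t _ => Cov.single ⟨toE4.toAffineMap, fun _ _ _ => rfl⟩,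
    ?_⟩
  · rintro ⟨t, y⟩ q ⟨hp, hq, i, hi, hi0, hn, hg⟩
    obtain ⟨s, rfl⟩ := h2 t hp.1
    rw [h.eq_of_rel trivial trivial (by rwa [(h.1 s trivial).2] at hi) hp hq hi0 hn hg]
  · rintro ⟨t, y⟩ ⟨t', y'⟩ hp hq e
    obtain ⟨s, rfl⟩ := h2 t hp.1
    obtain ⟨s', rfl⟩ := h2 t' hq.1
    have z1 : y s = 0 := by have := hp.2.2; rwa [(h.1 s trivial).2] at this
    have z2 : y' s' = 0 := by have := hq.2.2; rwa [(h.1 s' trivial).2] at this
    have hd : ∀ j, y j - y 4 = y' j - y' 4 := fun j => by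
      refine Fin.lastCases ?_ (fun k => ?_) j
      · show y 4 - y 4 = y' 4 - y' 4
        simp
      · have : toE4 y k = toE4 y' k := by dsimp only at e; rw [e]
        exact this
    have hc : y 4 = y' 4 := by
      have a1 := hd s; have a2 := hd s'; have := hp.2.1 s'; have := hq.2.1 s
      dsimp only at *
      linarith
    have hy : y' = y := funext fun j => by have := hd j; linarith
    subst hy
    exact h.rel trivial trivial hp.2.1 z1 z2
  · let P : Fin 5 → E4 →ᵃ[ℝ] ℝ := fun j =>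
      ((LinearMap.proj j : V5 →ₗ[ℝ] ℝ) ∘ₗ ofE4).toAffineMap
    refine Cov.of_family (ι := Fin 5) (fun s => {z | ∀ j, 0 ≤ (P j - P s) z}) (fun z _ => ?_)
      (fun s => IsPolyhedron.of_family _) (fun s => ?_)
    · obtain ⟨s, -, hs⟩ := Finset.exists_min_image (Finset.univ : Finset (Fin 5))
        (fun j => ofE4 z j) Finset.univ_nonempty
      exact ⟨s, fun j => by simpa [P] using hs j (Finset.mem_univ _)⟩
    · refine ⟨cell s, AffineMap.pi (fun j => P j - P s), fun z hz => ?_⟩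
      have hB : ∀ j, (AffineMap.pi (fun j => P j - P s) z) j = ofE4 z j - ofE4 z s := fun j => by
        rw [AffineMap.pi_apply]; simp [P]
      refine ⟨⟨(h.1 s trivial).1, fun j => ?_, ?_⟩, ?_⟩
      · dsimp only; rw [hB]; simpa [P] using hz j
      · dsimp only; rw [(h.1 s trivial).2, hB, sub_self]
      · ext k
        dsimp only
        rw [toE4_apply, hB, hB, ofE4_last, ofE4_cast]; ring

end Cx

end Pool.Agent.Lib.MP_42180a_gt
end

-- part Pool.Agent.Lib.MP_42180a_gt.Check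
section

/-! A verified checker for sequences of Pachner moves. -/

namespace Pool.Agent.Lib.MP_42180a_gt

def all5 (f : Fin 5 → Bool) : Bool :=
  f ⟨0, by decide⟩ && f ⟨1, by decide⟩ && f ⟨2, by decide⟩ && f ⟨3, by decide⟩ && f ⟨4, by decide⟩

def any5 (f : Fin 5 → Bool) : Bool :=
  f ⟨0, by decide⟩ || f ⟨1, by decide⟩ || f ⟨2, by decide⟩ || f ⟨3, by decide⟩ || f ⟨4, by decide⟩

theorem all5_iff (f : Fin 5 → Bool) : all5 f = true ↔ ∀ j, f j = true := by
  simp only [all5, Bool.and_eq_true]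
  constructor
  · rintro ⟨⟨⟨⟨h0, h1⟩, h2⟩, h3⟩, h4⟩ j
    fin_cases j <;> assumption
  · intro h; exact ⟨⟨⟨⟨h _, h _⟩, h _⟩, h _⟩, h _⟩

theorem any5_iff (f : Fin 5 → Bool) : any5 f = true ↔ ∃ j, f j = true := by
  simp only [any5, Bool.or_eq_true]
  constructor
  · rintro ((((h | h) | h) | h) | h) <;> exact ⟨_, h⟩
  · rintro ⟨j, hj⟩
    fin_cases j <;> simp_all

def allBelow (f : ℕ → Bool) (n : ℕ) : Bool :=
  Nat.rec (motive := fun _ => Bool) true (fun k ih => f k && ih) n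

theorem allBelow_iff (f : ℕ → Bool) (n : ℕ) : allBelow f n = true ↔ ∀ k < n, f k = true := by
  induction n with
  | zero => simp [allBelow]
  | succ n ih =>
    have : allBelow f (n + 1) = (f n && allBelow f n) := rfl
    rw [this, Bool.and_eq_true, ih]
    constructor
    · rintro ⟨h1, h2⟩ k hk
      rcases Nat.lt_succ_iff_lt_or_eq.1 hk with h | h
      · exact h2 k h
      · rw [h]; exact h1
    · intro h; exact ⟨h n (Nat.lt_succ_self n), fun k hk => h k (Nat.lt_succ_of_lt hk)⟩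

/-- Forces evaluation of a natural number. -/
def force (x : ℕ) (k : ℕ → Bool) : Bool :=
  Nat.casesOn (motive := fun _ => Bool) x (k 0) (fun n => k (Nat.succ n))

theorem force_eq (x : ℕ) (k : ℕ → Bool) : force x k = k x := by cases x <;> rfl

def feq (a b : Fin 5) : Bool := Nat.beq a.val b.val

theorem feq_iff (a b : Fin 5) : feq a b = true ↔ a = b := by
  simp [feq, Nat.beq_eq, Fin.ext_iff]

structure BCx where
  al : ℕ → Bool
  mu : ℕ → Fin 5
  nb : ℕ → Fin 5 → ℕ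
  g : ℕ → Fin 5 → Fin 5 → Fin 5

namespace BCx

def toCx (B : BCx) : Cx := ⟨fun t => B.al t = true, B.mu, B.nb, B.g⟩

def relabel (L : BCx) (r ri : ℕ → Fin 5 → Fin 5) : BCx where
  al := L.al
  mu t := r t (L.mu t)
  nb t i := L.nb t (ri t i)
  g t i j := r (L.nb t (ri t i)) (L.g t (ri t i) (ri t j))

def inn (S : Fin 5 → Bool) (cell : Fin 5 → ℕ) (t : ℕ) : Bool :=
  any5 (fun s => S s && Nat.beq (cell s) t)

theorem inn_iff (S : Fin 5 → Bool) (cell : Fin 5 → ℕ) (t : ℕ) :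
    inn S cell t = true ↔ Cx.Inn (fun s => S s = true) cell t := by
  simp [inn, any5_iff, Cx.Inn, Nat.beq_eq]

def internalB (B : BCx) (S : Fin 5 → Bool) (cell : Fin 5 → ℕ) : Bool :=
  all5 (fun s => !S s || (B.al (cell s) && feq (B.mu (cell s)) s)) &&
  all5 (fun s => all5 (fun s' => !S s || !S s' || feq s s' ||
    (Nat.beq (B.nb (cell s) s') (cell s') && feq (B.g (cell s) s' s') s &&
      feq (B.g (cell s) s' s) s' &&
      all5 (fun j => feq j s || feq j s' || feq (B.g (cell s) s' j) j))))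

theorem internal_of (B : BCx) (S : Fin 5 → Bool) (cell : Fin 5 → ℕ)
    (h : B.internalB S cell = true) : B.toCx.Internal (fun s => S s = true) cell := by
  simp only [internalB, Bool.and_eq_true, all5_iff, Bool.or_eq_true, Bool.not_eq_true', feq_iff,
    Nat.beq_eq] at h
  refine ⟨fun s hs => ?_, fun s s' hs hs' hne => ?_⟩
  · rcases h.1 s with h1 | h1
    · simp [h1] at hs
    · exact h1
  · rcases h.2 s s' with ((h1 | h1) | h1) | ⟨⟨⟨h1, h2⟩, h3⟩, h4⟩
    · simp [h1] at hs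
    · simp [h1] at hs'
    · exact absurd h1 hne
    · refine ⟨h1, h2, h3, fun j e1 e2 => ?_⟩
      rcases h4 j with (h | h) | h
      · exact absurd h e1
      · exact absurd h e2
      · exact h

def extB (B B' : BCx) (S S' : Fin 5 → Bool) (cell : Fin 5 → ℕ) (t : ℕ) (i : Fin 5) : Bool :=
  (!inn S cell t || S' i) && (!inn S cell (B.nb t i) || S' (B.g t i i)) &&
  Nat.beq (B'.nb (cond (inn S cell t) (cell i) t) (cond (inn S cell t) (B.mu t) i))
    (cond (inn S cell (B.nb t i)) (cell (B.g t i i)) (B.nb t i)) &&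
  all5 (fun j =>
    feq (B'.g (cond (inn S cell t) (cell i) t) (cond (inn S cell t) (B.mu t) i) j) (B.g t i j) ||
    ((feq j i || feq j (B.mu t)) &&
      (feq (B'.g (cond (inn S cell t) (cell i) t) (cond (inn S cell t) (B.mu t) i) j) (B.g t i i) ||
       feq (B'.g (cond (inn S cell t) (cell i) t) (cond (inn S cell t) (B.mu t) i) j)
        (B.mu (B.nb t i)))))

def cellB (B B' : BCx) (S S' : Fin 5 → Bool) (cell : Fin 5 → ℕ) (t : ℕ) : Bool :=
  (inn S cell t || (B'.al t && !inn S' cell t && feq (B'.mu t) (B.mu t))) &&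
  all5 (fun i => feq i (B.mu t) || (inn S cell t && S i) || extB B B' S S' cell t i)

/-- The conditions of a move at one tetrahedron. -/
def CellP (L L' : Cx) (S S' : Fin 5 → Prop) (cell : Fin 5 → ℕ) (t : ℕ) : Prop :=
  (¬ Cx.Inn S cell t → L'.al t ∧ ¬ Cx.Inn S' cell t ∧ L'.mu t = L.mu t) ∧
  ∀ i, i ≠ L.mu t → (Cx.Inn S cell t ∧ S i) ∨ ∃ t' i' t₂ i₂,
    L.Cor S S' cell t i t' i' ∧ L.Cor S S' cell (L.nb t i) (L.g t i i) t₂ i₂ ∧
    L'.nb t' i' = t₂ ∧ ∀ j, L'.g t' i' j = L.g t i j ∨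
      ((j = i ∨ j = L.mu t) ∧ (L'.g t' i' j = L.g t i i ∨ L'.g t' i' j = L.mu (L.nb t i)))

theorem cor_of (B : BCx) (S S' : Fin 5 → Bool) (cell : Fin 5 → ℕ) (t : ℕ) (i : Fin 5)
    (h : inn S cell t = false ∨ S' i = true) :
    B.toCx.Cor (fun s => S s = true) (fun s => S' s = true) cell t i
      (cond (inn S cell t) (cell i) t) (cond (inn S cell t) (B.mu t) i) := by
  cases e : inn S cell t
  · exact Or.inl ⟨by rw [← inn_iff, e]; simp, rfl, rfl⟩
  · refine Or.inr ⟨(inn_iff _ _ _).1 e, ?_, rfl, rfl⟩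
    rcases h with h | h
    · simp [e] at h
    · exact h

theorem cellP_of (B B' : BCx) (S S' : Fin 5 → Bool) (cell : Fin 5 → ℕ) (t : ℕ)
    (h : cellB B B' S S' cell t = true) :
    CellP B.toCx B'.toCx (fun s => S s = true) (fun s => S' s = true) cell t := by
  simp only [cellB, Bool.and_eq_true, all5_iff, Bool.or_eq_true, Bool.not_eq_true', feq_iff] at h
  refine ⟨fun hn => ?_, fun i hi => ?_⟩
  · rcases h.1 with h1 | ⟨⟨h1, h2⟩, h3⟩
    · exact absurd ((inn_iff _ _ _).1 h1) hn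
    · exact ⟨h1, by rw [← inn_iff, h2]; simp, h3⟩
  · rcases h.2 i with (h1 | ⟨h1, h2⟩) | h1
    · exact absurd h1 hi
    · exact Or.inl ⟨(inn_iff _ _ _).1 h1, h2⟩
    · simp only [extB, Bool.and_eq_true, all5_iff, Bool.or_eq_true, Bool.not_eq_true', feq_iff,
        Nat.beq_eq] at h1
      obtain ⟨⟨⟨a1, a2⟩, a3⟩, a4⟩ := h1
      exact Or.inr ⟨_, _, _, _, cor_of B S S' cell t i a1, cor_of B S S' cell _ _ a2, a3, a4⟩

end BCx

def wd (d t : ℕ) : ℕ := Nat.mod (Nat.shiftRight d (Nat.mul 128 t)) 340282366920938463463374607431768211456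

def f5 (k : ℕ) : Fin 5 := ⟨Nat.mod k 5, Nat.mod_lt k (by decide)⟩

def muW (w : ℕ) : Fin 5 := f5 (Nat.mod w 8)

def nbN (w k : ℕ) : ℕ := Nat.mod (Nat.shiftRight w k) 1024

def nbW (w : ℕ) (i : Fin 5) : ℕ := nbN w (Nat.add 3 (Nat.mul 25 i.val))

def gW (w : ℕ) (i j : Fin 5) : Fin 5 :=
  f5 (Nat.mod (Nat.shiftRight w (Nat.add (Nat.add 13 (Nat.mul 25 i.val)) (Nat.mul 3 j.val))) 8)

def bit (m k : ℕ) : Bool := Nat.beq (Nat.mod (Nat.shiftRight m k) 2) 1

theorem lt_of_bit {m k N : ℕ} (h : bit m k = true) (hN : Nat.shiftRight m N = 0) : k < N := by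
  by_contra hk
  obtain ⟨c, rfl⟩ := Nat.exists_eq_add_of_le (not_lt.1 hk)
  have : Nat.shiftRight m (N + c) = 0 := by
    show m >>> (N + c) = 0
    rw [Nat.shiftRight_add]
    have : m >>> N = 0 := hN
    rw [this]; simp
  unfold bit at h
  rw [this] at h
  cases h

def dataB (mask d : ℕ) : BCx :=
  ⟨bit mask, fun t => muW (wd d t), fun t i => nbW (wd d t) i, fun t i j => gW (wd d t) i j⟩

def cellF (cc : ℕ) (s : Fin 5) : ℕ := nbN cc (Nat.mul 10 s.val)

def decP (rc : ℕ) (s j : Fin 5) : Fin 5 :=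
  f5 (Nat.mod (Nat.shiftRight rc (Nat.add (Nat.mul 15 s.val) (Nat.mul 3 j.val))) 8)

def sF (sm : ℕ) (s : Fin 5) : Bool := bit sm s.val

def hit (sm cc t : ℕ) (s : Fin 5) : Bool := sF sm s && Nat.beq (cellF cc s) t

def relF (sm cc rc t : ℕ) (j : Fin 5) : Fin 5 :=
  cond (hit sm cc t ⟨0, by decide⟩) (decP rc ⟨0, by decide⟩ j)
  (cond (hit sm cc t ⟨1, by decide⟩) (decP rc ⟨1, by decide⟩ j)
  (cond (hit sm cc t ⟨2, by decide⟩) (decP rc ⟨2, by decide⟩ j)
  (cond (hit sm cc t ⟨3, by decide⟩) (decP rc ⟨3, by decide⟩ j)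
  (cond (hit sm cc t ⟨4, by decide⟩) (decP rc ⟨4, by decide⟩ j) j))))

def invB (rc ric : ℕ) : Bool := all5 (fun s => all5 (fun j => feq (decP rc s (decP ric s j)) j))

theorem relF_inv {sm cc rc ric : ℕ} (h : invB rc ric = true) (t : ℕ) (j : Fin 5) :
    relF sm cc rc t (relF sm cc ric t j) = j := by
  simp only [invB, all5_iff, feq_iff] at h
  unfold relF
  cases hit sm cc t ⟨0, by decide⟩
  · cases hit sm cc t ⟨1, by decide⟩
    · cases hit sm cc t ⟨2, by decide⟩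
      · cases hit sm cc t ⟨3, by decide⟩
        · cases hit sm cc t ⟨4, by decide⟩
          · rfl
          · exact h _ _
        · exact h _ _
      · exact h _ _
    · exact h _ _
  · exact h _ _

theorem relF_out {sm cc rc t : ℕ} (h : ∀ s, cellF cc s ≠ t) (j : Fin 5) :
    relF sm cc rc t j = j := by
  have : ∀ s, hit sm cc t s = false := fun s => by
    have := h s
    simp [hit, ← Bool.not_eq_true, Nat.beq_eq, this]
  simp [relF, this]

def fastB (mask d mask' d' cm t : ℕ) : Bool :=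
  bit mask t && bit mask' t && !bit cm t && force (wd d t) (fun w =>
    Nat.beq w (wd d' t) && !bit cm (nbN w 3) && !bit cm (nbN w 28) && !bit cm (nbN w 53) &&
      !bit cm (nbN w 78) && !bit cm (nbN w 103))

theorem cellP_fast {B B' : BCx} {S S' : Fin 5 → Prop} {cell : Fin 5 → ℕ} {t : ℕ}
    (h1 : B'.al t = true) (h2 : ∀ s, cell s ≠ t) (h3 : ∀ i s, cell s ≠ B.nb t i)
    (h4 : B'.mu t = B.mu t) (h5 : ∀ i, B'.nb t i = B.nb t i) (h6 : ∀ i j, B'.g t i j = B.g t i j) :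
    BCx.CellP B.toCx B'.toCx S S' cell t := by
  refine ⟨fun _ => ⟨h1, fun ⟨s, _, e⟩ => h2 s e, h4⟩, fun i _ => Or.inr ⟨t, i, _, _,
    Or.inl ⟨fun ⟨s, _, e⟩ => h2 s e, rfl, rfl⟩, Or.inl ⟨fun ⟨s, _, e⟩ => h3 i s e, rfl, rfl⟩,
    h5 i, fun j => Or.inl (h6 i j)⟩⟩

theorem fast_both {mask d mask' d' cm t sm cc rc ric : ℕ} {S S' : Fin 5 → Prop}
    (hcm : ∀ s, bit cm (cellF cc s) = true) (h : fastB mask d mask' d' cm t = true) :
    BCx.CellP ((dataB mask d).relabel (relF sm cc rc) (relF sm cc ric)).toCx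
      (dataB mask' d').toCx S S' (cellF cc) t ∧
    BCx.CellP (dataB mask' d').toCx
      ((dataB mask d).relabel (relF sm cc rc) (relF sm cc ric)).toCx S' S (cellF cc) t := by
  simp only [fastB, force_eq, Bool.and_eq_true, Bool.not_eq_true', Nat.beq_eq] at h
  obtain ⟨⟨⟨a1, a2⟩, a3⟩, ⟨⟨⟨⟨⟨e, b0⟩, b1⟩, b2⟩, b3⟩, b4⟩⟩ := h
  have ht : ∀ s, cellF cc s ≠ t := fun s e => by have := hcm s; rw [e, a3] at this; cases this
  have hn : ∀ i s, cellF cc s ≠ nbW (wd d t) i := fun i s e => by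
    have h1 := hcm s
    have h2 : bit cm (nbW (wd d t) i) = false := by
      fin_cases i
      · exact b0
      · exact b1
      · exact b2
      · exact b3
      · exact b4
    rw [e, h2] at h1; cases h1
  have m1 : ((dataB mask d).relabel (relF sm cc rc) (relF sm cc ric)).mu t =
      (dataB mask' d').mu t := by
    simp only [BCx.relabel, dataB, relF_out ht, e]
  have m2 : ∀ i, ((dataB mask d).relabel (relF sm cc rc) (relF sm cc ric)).nb t i =
      (dataB mask' d').nb t i := fun i => by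
    simp only [BCx.relabel, dataB, relF_out ht, e]
  have m3 : ∀ i j, ((dataB mask d).relabel (relF sm cc rc) (relF sm cc ric)).g t i j =
      (dataB mask' d').g t i j := fun i j => by
    simp only [BCx.relabel, dataB, relF_out ht, relF_out (hn i), ← e]
  have hn' : ∀ i s, cellF cc s ≠ (dataB mask' d').nb t i := fun i s => by
    simp only [dataB, ← e]; exact hn i s
  exact ⟨cellP_fast a2 ht (fun i s => by rw [m2]; exact hn' i s) m1.symm (fun i => (m2 i).symm)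
    (fun i j => (m3 i j).symm), cellP_fast a1 ht hn' m1 m2 m3⟩

def stepB (N mask d mask' d' sm cc rc ric cm : ℕ) : Bool :=
  Nat.beq (Nat.shiftRight mask N) 0 && Nat.beq (Nat.shiftRight mask' N) 0 &&
  invB rc ric && invB ric rc && all5 (fun s => bit cm (cellF cc s)) &&
  any5 (sF sm) && any5 (fun s => !sF sm s) &&
  ((dataB mask d).relabel (relF sm cc rc) (relF sm cc ric)).internalB (sF sm) (cellF cc) &&
  (dataB mask' d').internalB (fun s => !sF sm s) (cellF cc) &&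
  allBelow (fun t => fastB mask d mask' d' cm t ||
    ((!bit mask t || BCx.cellB ((dataB mask d).relabel (relF sm cc rc) (relF sm cc ric))
      (dataB mask' d') (sF sm) (fun s => !sF sm s) (cellF cc) t) &&
     (!bit mask' t || BCx.cellB (dataB mask' d')
      ((dataB mask d).relabel (relF sm cc rc) (relF sm cc ric)) (fun s => !sF sm s) (sF sm)
      (cellF cc) t))) N

theorem good_of_step {N mask d mask' d' sm cc rc ric cm : ℕ}
    (h : stepB N mask d mask' d' sm cc rc ric cm = true) (hG : (dataB mask' d').toCx.Good) :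
    (dataB mask d).toCx.Good := by
  simp only [stepB, Bool.and_eq_true, allBelow_iff, all5_iff, any5_iff, Nat.beq_eq,
    Bool.or_eq_true] at h
  obtain ⟨⟨⟨⟨⟨⟨⟨⟨⟨n1, n2⟩, i1⟩, i2⟩, hcm⟩, s1⟩, s2⟩, t1⟩, t2⟩, hall⟩ := h
  refine Cx.good_of_relabel (r := relF sm cc rc) (ri := relF sm cc ric) (relF_inv i1)
    (relF_inv i2) ?_
  have c1 : ∀ t, bit mask t = true →
      BCx.CellP ((dataB mask d).relabel (relF sm cc rc) (relF sm cc ric)).toCx
      (dataB mask' d').toCx (fun s => sF sm s = true) (fun s => (!sF sm s) = true) (cellF cc) t :=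
    fun t ht => by
      rcases hall t (lt_of_bit ht n1) with h | ⟨h | h, -⟩
      · exact (fast_both hcm h).1
      · simp [ht] at h
      · exact BCx.cellP_of _ _ _ _ _ _ h
  have c2 : ∀ t, bit mask' t = true →
      BCx.CellP (dataB mask' d').toCx
      ((dataB mask d).relabel (relF sm cc rc) (relF sm cc ric)).toCx
      (fun s => (!sF sm s) = true) (fun s => sF sm s = true) (cellF cc) t :=
    fun t ht => by
      rcases hall t (lt_of_bit ht n2) with h | ⟨-, h | h⟩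
      · exact (fast_both hcm h).2
      · simp [ht] at h
      · exact BCx.cellP_of _ _ _ _ _ _ h
  exact Cx.good_of_move (L := ((dataB mask d).relabel (relF sm cc rc) (relF sm cc ric)).toCx)
    (S := fun s => sF sm s = true) (S' := fun s => (!sF sm s) = true) (cell := cellF cc)
    ⟨fun j => by simp, s2, BCx.internal_of _ _ _ t1, fun t ht => (c1 t ht).1,
      fun t i ht => (c1 t ht).2 i⟩
    ⟨fun j => by simp, s1, BCx.internal_of _ _ _ t2, fun t ht => (c2 t ht).1,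
      fun t i ht => (c2 t ht).2 i⟩ hG

def finB (N cc rc ric mask d : ℕ) : Bool :=
  Nat.beq (Nat.shiftRight mask N) 0 && invB rc ric && invB ric rc &&
  ((dataB mask d).relabel (relF 31 cc rc) (relF 31 cc ric)).internalB (fun _ => true) (cellF cc) &&
  allBelow (fun t => !bit mask t || any5 (fun s => Nat.beq (cellF cc s) t)) N

theorem good_of_fin {N cc rc ric mask d : ℕ} (h : finB N cc rc ric mask d = true) :
    (dataB mask d).toCx.Good := by
  simp only [finB, Bool.and_eq_true, allBelow_iff, any5_iff, Nat.beq_eq, Bool.or_eq_true] at h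
  obtain ⟨⟨⟨⟨n1, i1⟩, i2⟩, t1⟩, hall⟩ := h
  refine Cx.good_of_relabel (r := relF 31 cc rc) (ri := relF 31 cc ric) (relF_inv i1)
    (relF_inv i2) ?_
  refine Cx.good_of_boundary
    (L := ((dataB mask d).relabel (relF 31 cc rc) (relF 31 cc ric)).toCx) (cell := cellF cc) ?_
    (fun t ht => ?_)
  · simpa using BCx.internal_of _ _ _ t1
  · rcases hall t (lt_of_bit ht n1) with h | h
    · have ht' : bit mask t = true := ht
      simp [ht'] at h
    · exact h

/-- Bits `[k, k + l)` of `x`. -/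
def fld (x k l : ℕ) : ℕ := Nat.mod (Nat.shiftRight x k) (Nat.pow 2 l)

def setW (d t w : ℕ) : ℕ :=
  Nat.add (Nat.sub d (Nat.shiftLeft (wd d t) (Nat.mul 128 t))) (Nat.shiftLeft w (Nat.mul 128 t))

def updF (x : ℕ) (k : ℕ) (d : ℕ) (cont : ℕ → Bool) : Bool :=
  Nat.rec (motive := fun _ => ℕ → Bool) (fun d => cont d)
    (fun j ih d => force (setW d (fld x (Nat.add 209 (Nat.mul 138 j)) 10)
      (fld x (Nat.add 219 (Nat.mul 138 j)) 128)) ih) k d

theorem updF_imp {x k d : ℕ} {cont : ℕ → Bool} (h : updF x k d cont = true) :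
    ∃ d', cont d' = true := by
  induction k generalizing d with
  | zero => exact ⟨d, h⟩
  | succ k ih =>
    have : updF x (k + 1) d cont = force (setW d (fld x (Nat.add 209 (Nat.mul 138 k)) 10)
      (fld x (Nat.add 219 (Nat.mul 138 k)) 128)) (fun d => updF x k d cont) := rfl
    rw [this, force_eq] at h
    exact ih h

def bitsOf (cc : ℕ) (S : Fin 5 → Bool) : ℕ :=
  Nat.lor (cond (S ⟨0, by decide⟩) (Nat.shiftLeft 1 (cellF cc ⟨0, by decide⟩)) 0)
  (Nat.lor (cond (S ⟨1, by decide⟩) (Nat.shiftLeft 1 (cellF cc ⟨1, by decide⟩)) 0)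
  (Nat.lor (cond (S ⟨2, by decide⟩) (Nat.shiftLeft 1 (cellF cc ⟨2, by decide⟩)) 0)
  (Nat.lor (cond (S ⟨3, by decide⟩) (Nat.shiftLeft 1 (cellF cc ⟨3, by decide⟩)) 0)
  (cond (S ⟨4, by decide⟩) (Nat.shiftLeft 1 (cellF cc ⟨4, by decide⟩)) 0))))

def runB (N : ℕ) (fin : ℕ → ℕ → Bool) (l : List ℕ) : ℕ → ℕ → Bool :=
  List.rec (motive := fun _ => ℕ → ℕ → Bool) fin (fun x _ ih mask d =>
    force (fld x 0 5) fun sm => force (fld x 5 50) fun cc => force (fld x 55 75) fun rc =>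
    force (fld x 130 75) fun ric => force (bitsOf cc (fun _ => true)) fun cm =>
    force (Nat.lor (Nat.xor mask (bitsOf cc (sF sm))) (bitsOf cc (fun s => !sF sm s))) fun mask' =>
    updF x (fld x 205 4) d fun d' => stepB N mask d mask' d' sm cc rc ric cm && ih mask' d') l

theorem good_of_run {N : ℕ} {fin : ℕ → ℕ → Bool}
    (hfin : ∀ m d, fin m d = true → (dataB m d).toCx.Good) (l : List ℕ) :
    ∀ m d, runB N fin l m d = true → (dataB m d).toCx.Good := by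
  induction l with
  | nil => exact hfin
  | cons x l ih =>
    intro m d h
    have : runB N fin (x :: l) m d = force (fld x 0 5) fun sm => force (fld x 5 50) fun cc =>
      force (fld x 55 75) fun rc =>
      force (fld x 130 75) fun ric => force (bitsOf cc (fun _ => true)) fun cm =>
      force (Nat.lor (Nat.xor m (bitsOf cc (sF sm))) (bitsOf cc (fun s => !sF sm s))) fun mask' =>
      updF x (fld x 205 4) d fun d' => stepB N m d mask' d' sm cc rc ric cm &&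
        runB N fin l mask' d' := rfl
    rw [this] at h
    simp only [force_eq] at h
    obtain ⟨d', h⟩ := updF_imp h
    rw [Bool.and_eq_true] at h
    exact good_of_step h.1 (ih _ _ h.2)

def eqB (M D m d : ℕ) : Bool := Nat.beq m M && Nat.beq d D

theorem good_of_eqB {M D : ℕ} (h : (dataB M D).toCx.Good) (m d : ℕ) (e : eqB M D m d = true) :
    (dataB m d).toCx.Good := by
  simp only [eqB, Bool.and_eq_true, Nat.beq_eq] at e
  rw [e.1, e.2]; exact h

end Pool.Agent.Lib.MP_42180a_gt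
end

-- part Pool.Agent.Lib.MP_42180a_gt.Chart
section

/-! PL charts on the quotient space. -/

namespace Pool.Agent.Lib.MP_42180a_gt

open Topology Set

variable {n : ℕ}

def code (P : Fin n) (m : Fin 5) : ℕ := 5 * P.val + m.val

theorem code_inj {P Q : Fin n} {m m' : Fin 5} (h : code P m = code Q m') : P = Q ∧ m = m' := by
  unfold code at h
  have := m.2; have := m'.2
  exact ⟨Fin.ext (by omega), Fin.ext (by omega)⟩

noncomputable def vec (m : Fin 5) : V5 →ᵃ[ℝ] V5 :=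
  AffineMap.pi (fun j => if j = m then AffineMap.const ℝ V5 (1 : ℝ) -
    (∑ k, (LinearMap.proj k : V5 →ₗ[ℝ] ℝ)).toAffineMap
    else (LinearMap.proj j : V5 →ₗ[ℝ] ℝ).toAffineMap)

theorem vec_apply (m : Fin 5) (y : V5) (j : Fin 5) :
    vec m y j = if j = m then 1 - ∑ k, y k else y j := by
  rw [vec, AffineMap.pi_apply]; split_ifs <;> simp

noncomputable def upd (m : Fin 5) : V5 →ᵃ[ℝ] V5 :=
  AffineMap.pi (fun j => if j = m then 0 else (LinearMap.proj j : V5 →ₗ[ℝ] ℝ).toAffineMap)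

theorem upd_apply (m : Fin 5) (y : V5) (j : Fin 5) : upd m y j = if j = m then 0 else y j := by
  rw [upd, AffineMap.pi_apply]; split_ifs <;> simp

theorem sum_upd (m : Fin 5) (y : V5) : ∑ k, upd m y k = ∑ k, y k - y m := by
  rw [← Finset.add_sum_erase _ _ (Finset.mem_univ m), ← Finset.add_sum_erase _ y (Finset.mem_univ m),
    upd_apply, if_pos rfl, Finset.sum_congr rfl (g := y)]
  · ring
  · intro k hk; rw [upd_apply, if_neg (Finset.ne_of_mem_erase hk)]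

theorem vec_upd (m : Fin 5) (a : Pent) : vec m (upd m a.1) = a.1 := by
  funext j
  rw [vec_apply]
  split_ifs with h
  · rw [sum_upd, a.2.2, h]; ring
  · rw [upd_apply, if_neg h]

theorem upd_vec {m : Fin 5} {y : V5} (h : y m = 0) : upd m (vec m y) = y := by
  funext j
  rw [upd_apply]
  split_ifs with e
  · rw [e, h]
  · rw [vec_apply, if_neg e]

theorem vec_mem {m : Fin 5} {y : V5} (h0 : ∀ j, 0 ≤ y j) (h : y m = 0) (h1 : 0 ≤ vec m y m) :
    vec m y ∈ stdSimplex ℝ (Fin 5) := by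
  refine ⟨fun j => ?_, ?_⟩
  · by_cases e : j = m
    · rw [e]; exact h1
    · rw [vec_apply, if_neg e]; exact h0 j
  · have := sum_upd m (vec m y)
    rw [upd_vec h, vec_apply, if_pos rfl] at this
    linarith

theorem vec_perm {m : Fin 5} {y y' : V5} {g : Equiv.Perm (Fin 5)} (h : ∀ j, y' (g j) = y j)
    (j : Fin 5) : vec (g m) y' (g j) = vec m y j := by
  rw [vec_apply, vec_apply, h, ← Equiv.sum_comp g y']
  simp [h]

theorem upd_perm {m : Fin 5} {y y' : V5} {g : Equiv.Perm (Fin 5)} (h : ∀ j, y' (g j) = y j)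
    (j : Fin 5) : upd (g m) y' (g j) = upd m y j := by
  rw [upd_apply, upd_apply, h]
  simp

namespace Gluing

variable (T : Gluing n)

structure IsLink (vc : Fin n → Fin 5 → Prop) (L : Cx) : Prop where
  inv : ∀ P i m, m ≠ i → vc P m → vc (T.nbr P i) (T.perm P i m)
  al : ∀ t, L.al t ↔ ∃ P m, t = code P m ∧ vc P m
  mu : ∀ P m, vc P m → L.mu (code P m) = m
  nb : ∀ P m i, vc P m → i ≠ m → L.nb (code P m) i = code (T.nbr P i) (T.perm P i m)
  g : ∀ P m i j, vc P m → i ≠ m → L.g (code P m) i j = T.perm P i j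

variable {T} {vc : Fin n → Fin 5 → Prop} {L : Cx}

theorem IsLink.conn_vc (hL : T.IsLink vc L) {P Q : Fin n} {S : Set (Fin 5)}
    {g : Equiv.Perm (Fin 5)} (h : T.Conn P S Q g) {m : Fin 5} (hm : m ∈ S) (hv : vc P m) :
    vc Q (g m) := by
  induction h with
  | refl => exact hv
  | step i _ hi ih => exact hL.inv _ i _ (hi m hm) ih

theorem IsLink.dom (hL : T.IsLink vc L) {P : Fin n} {m : Fin 5} (hv : vc P m) {y : V5}
    (h0 : ∀ j, 0 ≤ y j) (hy : y m = 0) : L.Dom (code P m, y) :=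
  ⟨(hL.al _).2 ⟨P, m, rfl, hv⟩, h0, by dsimp only; rw [hL.mu P m hv]; exact hy⟩

theorem IsLink.of_dom (hL : T.IsLink vc L) {P : Fin n} {m : Fin 5} {y : V5}
    (h : L.Dom (code P m, y)) : vc P m ∧ (∀ j, 0 ≤ y j) ∧ y m = 0 := by
  obtain ⟨Q, m', e, hv⟩ := (hL.al _).1 h.1
  obtain ⟨rfl, rfl⟩ := code_inj e
  exact ⟨hv, h.2.1, by have := h.2.2; dsimp only at this; rwa [hL.mu P m hv] at this⟩

theorem IsLink.eqv_of_conn (hL : T.IsLink vc L) {P Q : Fin n} {S : Set (Fin 5)}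
    {g : Equiv.Perm (Fin 5)} (h : T.Conn P S Q g) {m : Fin 5} (hm : m ∈ S) (hv : vc P m)
    {y : V5} (h0 : ∀ j, 0 ≤ y j) (hy : y m = 0) (hS : ∀ j, y j ≠ 0 → j ∈ S) :
    ∀ y' : V5, (∀ j, y' (g j) = y j) → L.Eqv (code P m, y) (code Q (g m), y') := by
  induction h with
  | refl =>
    intro y' h
    have : y' = y := funext h
    rw [this]; exact .refl _
  | @step Q g i hc hi ih =>
    intro y' h
    have hv' := hL.conn_vc hc hm hv
    have hz : ∀ j, (fun j => y' (T.perm Q i j)) (g j) = y j := h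
    have h0' : ∀ j, 0 ≤ y' j := fun j => by
      rw [← (T.perm Q i * g).apply_symm_apply j, h]; exact h0 _
    refine .trans _ _ _ (ih _ hz) (.rel _ _ ⟨hL.dom hv' (fun j => h0' _) ((hz m).trans hy),
      hL.dom (hL.inv _ i _ (hi m hm) hv') h0' ((h m).trans hy), i, ?_, ?_, ?_, fun j => ?_⟩)
    · dsimp only; rw [hL.mu _ _ hv']; exact (hi m hm).symm
    · dsimp only
      have := hz (g⁻¹ i)
      simp only [Equiv.Perm.coe_inv, Equiv.apply_symm_apply] at this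
      rw [this]
      by_contra h1
      exact hi _ (hS _ h1) (by simp)
    · dsimp only; rw [hL.nb _ _ _ hv' (hi m hm).symm]; rfl
    · dsimp only; rw [hL.g _ _ _ _ hv' (hi m hm).symm]

theorem IsLink.conn_of_eqv (hL : T.IsLink vc L) {p q : ℕ × V5} (h : L.Eqv p q) :
    L.Dom p → ∀ P m, p.1 = code P m → ∃ (Q : Fin n) (g : Equiv.Perm (Fin 5)),
      q.1 = code Q (g m) ∧
      T.Conn P (insert m {j | p.2 j ≠ 0}) Q g ∧ ∀ j, q.2 (g j) = p.2 j := by
  have him : ∀ (g : Equiv.Perm (Fin 5)) (m : Fin 5) (a b : V5), (∀ j, b (g j) = a j) →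
      g '' (insert m {j | a j ≠ 0}) = insert (g m) {j | b j ≠ 0} := fun g m a b hb => by
    rw [image_insert_eq]
    congr 1
    ext j
    constructor
    · rintro ⟨m, hm, rfl⟩; show b _ ≠ 0; rw [hb]; exact hm
    · intro hj
      refine ⟨g⁻¹ j, ?_, by simp⟩
      show a _ ≠ 0
      rw [← hb]; simpa using hj
  induction h with
  | rel p q h =>
    obtain ⟨t, y⟩ := p
    rintro hp P m rfl
    obtain ⟨-, -, i, h1, h2, h3, h4⟩ := h
    have hv := (hL.of_dom hp).1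
    dsimp only at h1 h2 h3 h4
    rw [hL.mu _ _ hv] at h1
    refine ⟨T.nbr P i, T.perm P i, h3.trans (hL.nb _ _ _ hv h1), Conn.single _ _ _ ?_,
      fun j => ?_⟩
    · rintro (e | e)
      · exact h1 e
      · exact e h2
    · dsimp only; rw [h4, hL.g _ _ _ _ hv h1]
  | refl p => intro _ P m e; exact ⟨P, 1, e, .refl, fun _ => rfl⟩
  | symm p q hpq ih =>
    intro hq Q m' e
    have hp := (Cx.Eqv.dom_iff hpq).2 hq
    obtain ⟨P, m, e', -⟩ := (hL.al _).1 hp.1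
    obtain ⟨Q', g, h1, h2, h3⟩ := ih hp P m e'
    obtain ⟨rfl, rfl⟩ := code_inj (e.symm.trans h1)
    refine ⟨P, g⁻¹, by simpa using e', him g m _ _ h3 ▸ h2.symm, fun j => ?_⟩
    rw [← h3]; simp
  | trans p q r hpq _ ih1 ih2 =>
    intro hp P m e
    obtain ⟨Q, g, h1, h2, h3⟩ := ih1 hp P m e
    obtain ⟨R, k, h4, h5, h6⟩ := ih2 ((Cx.Eqv.dom_iff hpq).1 hp) Q _ h1
    exact ⟨R, k * g, h4, h2.trans (him g m _ _ h3 ▸ h5), fun j => (h6 _).trans (h3 j)⟩

/-- A chart which is piecewise linear in both directions. -/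
def ChartPL (T : Gluing n) (e : OpenPartialHomeomorph T.Space E4) : Prop :=
  (∀ P, Cov {a : V5 | ∃ h : a ∈ stdSimplex ℝ (Fin 5), T.cell P ⟨a, h⟩ ∈ e.source}
    (fun C => ∃ A : V5 →ᵃ[ℝ] E4, ∀ b : Pent, T.cell P b ∈ e.source → b.1 ∈ C →
      e (T.cell P b) = A b.1)) ∧
  Cov e.target (fun D => ∃ (P : Fin n) (B : E4 →ᵃ[ℝ] V5), ∀ z ∈ D, z ∈ e.target →
    ∃ h : B z ∈ stdSimplex ℝ (Fin 5), e.symm z = T.cell P ⟨B z, h⟩)

theorem continuousOn_cell_aff {X : Type} [TopologicalSpace X] (P : Fin n) {B : X → V5}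
    (hB : Continuous B) {f : X → T.Space} {s : Set X}
    (h : ∀ z ∈ s, ∃ h : B z ∈ stdSimplex ℝ (Fin 5), f z = T.cell P ⟨B z, h⟩) :
    ContinuousOn f s := by
  rw [continuousOn_iff_continuous_domRestrict]
  have : s.domRestrict f = fun z : s => T.cell P ⟨B z, (h z z.2).1⟩ :=
    funext fun z => (h z z.2).2
  rw [this]
  exact (T.continuous_cell P).comp ((hB.comp continuous_subtype_val).subtype_mk _)

theorem exists_chart (hT : T.Valid) (hL : T.IsLink vc L) (hG : L.Good) (P₀ : Fin n)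
    (S₀ : Set (Fin 5)) (m₀ : Fin 5) (hm₀ : m₀ ∈ S₀) (hv₀ : vc P₀ m₀) (τ : ℝ) (hτ : 0 < τ) :
    ∃ e : OpenPartialHomeomorph T.Space E4, e.source = T.N P₀ S₀ S₀ τ τ ∧ T.ChartPL e := by
  classical
  obtain ⟨F, hF⟩ := hG
  let W : Fin n → Fin 5 → V5 → Prop := fun P m a =>
    Gen τ a ∧ ∃ g, T.Conn P₀ S₀ P g ∧ g '' S₀ = big τ a ∧ g m₀ = m
  let lv : Fin n → Set (Fin 5) → Fin 5 := fun P S => T.tr P₀ S₀ P S m₀
  have hWo : ∀ P m, IsOpen {a | W P m a} := fun P m => by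
    have := isOpen_gen τ τ (fun S _ => ∃ g, T.Conn P₀ S₀ P g ∧ g '' S₀ = S ∧ g m₀ = m)
    convert this using 2 with a
    simp [W]
  have hWN : ∀ P m (a : Pent), W P m a.1 → T.cell P a ∈ T.N P₀ S₀ S₀ τ τ ∧ lv P (big τ a.1) = m :=
    fun P m a ⟨h1, g, h2, h3, h4⟩ => ⟨(mem_N hτ.le).2 ⟨h1, h1, g, h2, h3, h3⟩,
      (tr_eq hT h2 h3 m₀ hm₀).trans h4⟩
  have hNW : ∀ P (a : Pent), T.cell P a ∈ T.N P₀ S₀ S₀ τ τ → W P (lv P (big τ a.1)) a.1 :=
    fun P a h => by
      obtain ⟨h1, -, g, h2, h3, -⟩ := (mem_N hτ.le).1 h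
      exact ⟨h1, g, h2, h3, (tr_eq hT h2 h3 m₀ hm₀).symm⟩
  have hWbig : ∀ P m a, W P m a → τ < a m ∧ vc P m := fun P m a ⟨_, g, h2, h3, h4⟩ =>
    ⟨by have : m ∈ big τ a := h3 ▸ ⟨m₀, hm₀, h4⟩
        exact this, h4 ▸ hL.conn_vc h2 hm₀ hv₀⟩
  have hdom : ∀ P m (a : Pent), W P m a.1 → L.Dom (code P m, upd m a.1) := fun P m a h =>
    hL.dom (hWbig P m _ h).2 (fun j => by
      rw [upd_apply]; split_ifs
      · exact le_rfl
      · exact a.2.1 j) (by rw [upd_apply, if_pos rfl])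
  have hWtr : ∀ P m a Q (k : Equiv.Perm (Fin 5)) b, W P m a → T.Conn P (big τ a) Q k →
      (∀ j, b (k j) = a j) → W Q (k m) b := fun P m a Q k b ⟨h1, g, h2, h3, h4⟩ hk hb =>
    ⟨(gen_iff hb).1 h1, k * g, h2.trans (h3 ▸ hk), by
      rw [Equiv.Perm.coe_mul, image_comp, h3, image_big hb], by rw [← h4]; rfl⟩
  let fwd : Fin n × Pent → E4 := fun p =>
    F (code p.1 (lv p.1 (big τ p.2.1)), upd (lv p.1 (big τ p.2.1)) p.2.1)
  let f : T.Space → E4 := fun x => fwd (Quot.out x)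
  have hf : ∀ P m (a : Pent), W P m a.1 → f (T.cell P a) = F (code P m, upd m a.1) := by
    intro P m a h
    have e : T.cell P a = T.cell (Quot.out (T.cell P a)).1 (Quot.out (T.cell P a)).2 :=
      (Quot.out_eq _).symm
    obtain ⟨k, hk1, hk⟩ := cell_eq_iff.1 e
    have h' := hWtr P m _ _ k _ h (hk1.mono (big_subset_supp hτ.le a)) hk
    show F _ = _
    rw [(hWN _ _ _ h').2]
    refine (hF.eq_of_eqv (hL.eqv_of_conn hk1 (hτ.trans (hWbig P m _ h).1).ne' (hWbig P m _ h).2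
      (y := upd m a.1) (hdom P m a h).2.1 (by rw [upd_apply, if_pos rfl]) (fun j hj => ?_) _
      (upd_perm hk))).symm
    rw [upd_apply] at hj
    split_ifs at hj
    · exact absurd rfl hj
    · exact hj
  have hsurj : ∀ z : E4, ∃ (p : Fin n × Fin 5 × V5), L.Dom (code p.1 p.2.1, p.2.2) ∧
      F (code p.1 p.2.1, p.2.2) = z := fun z => by
    obtain ⟨𝒞, h1, h2⟩ := hF.2.2.2
    obtain ⟨D, hD, hz⟩ := h1 z trivial
    obtain ⟨t, B, hB⟩ := (h2 D hD).2
    obtain ⟨P, m, rfl, -⟩ := (hL.al _).1 (hB z hz).1.1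
    exact ⟨(P, m, B z), hB z hz⟩
  choose rep hrep1 hrep2 using hsurj
  let finv : E4 → T.Space := fun z =>
    if h : vec (rep z).2.1 (rep z).2.2 ∈ stdSimplex ℝ (Fin 5) then T.cell (rep z).1 ⟨_, h⟩
    else T.cell P₀ (stdSimplex.vertex m₀)
  have hbigsub : ∀ m (y : V5), big τ (vec m y) ⊆ insert m {j | y j ≠ 0} := fun m y j hj => by
    by_cases e : j = m
    · exact Or.inl e
    · have : τ < vec m y j := hj
      rw [vec_apply, if_neg e] at this
      exact Or.inr (hτ.trans this).ne'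
  have hsimp : ∀ P m y, L.Dom (code P m, y) → W P m (vec m y) →
      vec m y ∈ stdSimplex ℝ (Fin 5) := fun P m y hd hW =>
    vec_mem hd.2.1 (hL.of_dom hd).2.2 (hτ.trans (hWbig P m _ hW).1).le
  have hmove : ∀ P m y Q m' y', L.Dom (code P m, y) → L.Dom (code Q m', y') →
      F (code P m, y) = F (code Q m', y') → W P m (vec m y) → W Q m' (vec m' y') ∧
      ∀ h h', T.cell P ⟨vec m y, h⟩ = T.cell Q ⟨vec m' y', h'⟩ := by
    intro P m y Q m' y' hd hd' e hW
    obtain ⟨Q', k, h1, h2, h3⟩ := hL.conn_of_eqv (hF.2.1 _ _ hd hd' e) hd P m rfl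
    obtain ⟨rfl, rfl⟩ := code_inj h1
    refine ⟨hWtr P m _ Q k _ hW (h2.mono (hbigsub m y)) (vec_perm h3), fun h h' => ?_⟩
    refine h2.exists_eq _ (fun j hj => ?_) _ (vec_perm h3)
    by_cases e : j = m
    · exact Or.inl e
    · have : vec m y j ≠ 0 := hj
      rw [vec_apply, if_neg e] at this
      exact Or.inr this
  have hfinv : ∀ P m y (hd : L.Dom (code P m, y)) (hW : W P m (vec m y)),
      finv (F (code P m, y)) = T.cell P ⟨vec m y, hsimp P m y hd hW⟩ := by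
    intro P m y hd hW
    obtain ⟨h1, h2⟩ := hmove P m y _ _ _ hd (hrep1 _) (hrep2 _).symm hW
    show dite _ _ _ = _
    rw [dif_pos (hsimp _ _ _ (hrep1 _) h1)]
    exact (h2 _ _).symm
  let tgt : Set E4 := {z | ∃ P m y, L.Dom (code P m, y) ∧ F (code P m, y) = z ∧ W P m (vec m y)}
  have htgt : ∀ P m y, L.Dom (code P m, y) → (F (code P m, y) ∈ tgt ↔ W P m (vec m y)) :=
    fun P m y hd => ⟨fun ⟨Q, m', y', hd', e, hW⟩ => (hmove _ _ _ _ _ _ hd' hd e hW).1,
      fun hW => ⟨P, m, y, hd, rfl, hW⟩⟩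
  have cov1 : ∀ P, Cov {a : V5 | ∃ h : a ∈ stdSimplex ℝ (Fin 5), T.cell P ⟨a, h⟩ ∈
      T.N P₀ S₀ S₀ τ τ} (fun C => ∃ A : V5 →ᵃ[ℝ] E4, ∀ b : Pent, T.cell P b ∈ T.N P₀ S₀ S₀ τ τ →
      b.1 ∈ C → f (T.cell P b) = A b.1) := by
    intro P
    let H : Set (Fin 5) → Fin 5 → V5 →ᵃ[ℝ] ℝ := fun S j =>
      if j ∈ S then (LinearMap.proj j : V5 →ₗ[ℝ] ℝ).toAffineMap - AffineMap.const ℝ V5 τ
      else AffineMap.const ℝ V5 τ - (LinearMap.proj j : V5 →ₗ[ℝ] ℝ).toAffineMap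
    have hH : ∀ S j y, H S j y = if j ∈ S then y j - τ else τ - y j := fun S j y => by
      simp only [H]; split_ifs <;> simp
    refine Cov.bind (R := fun C => ∃ S, ∀ y ∈ C, Gen τ y → big τ y = S)
      (Cov.of_family (ι := Set (Fin 5)) (fun S => {y | ∀ j, 0 ≤ H S j y})
        (fun y _ => ⟨big τ y, fun j => ?_⟩) (fun S => IsPolyhedron.of_family _)
        (fun S => ⟨S, fun y hy hg => ?_⟩)) ?_
    · rw [hH]
      split_ifs with h
      · exact sub_nonneg.2 (le_of_lt h)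
      · exact sub_nonneg.2 (not_lt.1 h)
    · ext j
      have := hy j
      rw [hH] at this
      split_ifs at this with h
      · exact ⟨fun _ => h, fun _ => lt_of_le_of_ne (sub_nonneg.1 this) (hg j).symm⟩
      · exact ⟨fun h' => absurd h' (not_lt.2 (sub_nonneg.1 this)), fun h' => absurd h' h⟩
    · rintro C ⟨S, hS⟩
      have key : ∀ b : Pent, T.cell P b ∈ T.N P₀ S₀ S₀ τ τ → b.1 ∈ C → W P (lv P S) b.1 :=
        fun b hb hC => by
          have := hNW P b hb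
          rwa [hS _ hC this.1] at this
      by_cases hal : L.al (code P (lv P S))
      · refine (hF.2.2.1 _ hal).comap (upd (lv P S)) ?_ ?_
        · rintro y ⟨⟨h, hy⟩, hC⟩
          exact hdom P _ ⟨y, h⟩ (key _ hy hC)
        · rintro C' ⟨A, hA⟩
          refine ⟨A.comp (upd (lv P S)), fun b hb hC => ?_⟩
          have := key b hb hC.2
          rw [hf P _ b this]
          exact hA _ hC.1 (hdom P _ b this)
      · exact Cov.single ⟨0, fun b hb hC => absurd (hdom P _ b (key b hb hC.2)).1 hal⟩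
  have cov2 : Cov univ (fun D => ∃ (P : Fin n) (m : Fin 5) (B : E4 →ᵃ[ℝ] V5), ∀ z ∈ D,
      L.Dom (code P m, B z) ∧ F (code P m, B z) = z) := by
    refine hF.2.2.2.mono subset_rfl ?_
    rintro D ⟨t, B, hB⟩
    by_cases hal : L.al t
    · obtain ⟨P, m, rfl, -⟩ := (hL.al _).1 hal
      exact ⟨P, m, B, hB⟩
    · exact ⟨P₀, m₀, B, fun z hz => absurd (hB z hz).1.1 hal⟩
  have cov3 : Cov tgt (fun D => ∃ (P : Fin n) (B : E4 →ᵃ[ℝ] V5), ∀ z ∈ D, z ∈ tgt →
      ∃ h : B z ∈ stdSimplex ℝ (Fin 5), finv z = T.cell P ⟨B z, h⟩) := by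
    refine cov2.mono (subset_univ _) ?_
    rintro D ⟨P, m, B, hB⟩
    refine ⟨P, (vec m).comp B, fun z hz hz' => ?_⟩
    obtain ⟨h1, h2⟩ := hB z hz
    have hW := (htgt P m _ h1).1 (h2.symm ▸ hz')
    exact ⟨hsimp P m _ h1 hW, (congrArg finv h2.symm).trans (hfinv P m _ h1 hW)⟩
  have hopen := T.isOpen_N P₀ S₀ S₀ τ hτ.le
  have hot : IsOpen tgt := by
    refine Cov.isOpen (cov2.mono subset_rfl ?_)
    rintro D ⟨P, m, B, hB⟩
    refine ⟨((vec m).comp B) ⁻¹' {a | W P m a},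
      (hWo P m).preimage (AffineMap.continuous_of_finiteDimensional _), fun z hz => ?_⟩
    obtain ⟨h1, h2⟩ := hB z hz
    conv_lhs => rw [← h2]
    exact htgt P m _ h1
  refine ⟨{ toFun := f
            invFun := finv
            source := T.N P₀ S₀ S₀ τ τ
            target := tgt
            map_source' := ?_
            map_target' := ?_
            left_inv' := ?_
            right_inv' := ?_
            open_source := hopen
            open_target := hot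
            continuousOn_toFun := ?_
            continuousOn_invFun := ?_ }, rfl, cov1, cov3⟩
  · intro x hx
    obtain ⟨P, a, rfl⟩ := T.exists_cell x
    have hW := hNW P a hx
    rw [hf P _ a hW]
    exact ⟨P, _, _, hdom P _ a hW, rfl, by rw [vec_upd]; exact hW⟩
  · rintro z ⟨P, m, y, hd, rfl, hW⟩
    rw [hfinv P m y hd hW]
    exact (hWN P m ⟨_, hsimp P m y hd hW⟩ hW).1
  · intro x hx
    obtain ⟨P, a, rfl⟩ := T.exists_cell x
    have hW := hNW P a hx
    rw [hf P _ a hW, hfinv P _ _ (hdom P _ a hW) (by rw [vec_upd]; exact hW)]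
    congr 1
    exact Subtype.ext (vec_upd _ a)
  · rintro z ⟨P, m, y, hd, rfl, hW⟩
    rw [hfinv P m y hd hW, hf P m ⟨_, hsimp P m y hd hW⟩ hW]
    dsimp only
    rw [upd_vec (hL.of_dom hd).2.2]
  · rw [T.isQuotientMap_pr.continuousOn_isOpen_iff hopen]
    intro p hp
    obtain ⟨P, a⟩ := p
    have h1 : ContinuousOn (fun b : Pent => f (T.cell P b)) (T.cell P ⁻¹' T.N P₀ S₀ S₀ τ τ) := by
      refine Cov.continuousOn continuous_subtype_val ((cov1 P).mono ?_ ?_)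
      · rintro _ ⟨b, hb, rfl⟩; exact ⟨b.2, hb⟩
      · rintro C ⟨A, hA⟩
        exact ((A.continuous_of_finiteDimensional.comp continuous_subtype_val).continuousOn).congr
          fun b hb => hA b hb.1 hb.2
    have h2 := h1.continuousAt ((hopen.preimage (T.continuous_cell P)).mem_nhds hp)
    refine ContinuousAt.continuousWithinAt ?_
    have h3 : ContinuousAt (fun p : Fin n × Pent => f (T.cell P p.2)) (P, a) :=
      ContinuousAt.comp (f := Prod.snd) (x := (P, a)) h2 continuousAt_snd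
    refine h3.congr ?_
    have : ∀ᶠ p : Fin n × Pent in 𝓝 (P, a), p.1 = P :=
      continuousAt_fst.eventually (p := fun Q => Q = P) (by simp)
    filter_upwards [this] with p hp
    rw [← hp]; rfl
  · refine Cov.continuousOn (j := fun z : E4 => z) continuous_id (cov3.mono (by simp) ?_)
    rintro D ⟨P, B, hB⟩
    exact continuousOn_cell_aff P B.continuous_of_finiteDimensional fun z hz => hB z hz.2 hz.1

theorem ChartPL.trans {e e' : OpenPartialHomeomorph T.Space E4} (h : T.ChartPL e)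
    (h' : T.ChartPL e') (x : E4) (hx : x ∈ (e.symm.trans e').source) :
    PLAt (fun y : E4 => y) (e.symm.trans e') x := by
  refine Cov.plAt ((e.symm.trans e').open_source.mem_nhds hx) ?_
  refine (h.2.mono (s' := (fun y : E4 => y) '' (e.symm.trans e').source) ?_ (fun _ h => h)).bind ?_
  · rintro _ ⟨z, hz, rfl⟩; exact hz.1
  · rintro D ⟨P, B, hB⟩
    refine (h'.1 P).comap B ?_ ?_
    · rintro _ ⟨⟨z, hz, rfl⟩, hD⟩
      obtain ⟨h1, h2⟩ := hB z hD hz.1
      exact ⟨h1, h2 ▸ hz.2⟩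
    · rintro C ⟨A, hA⟩
      refine ⟨A.comp B, fun z hz hC => ?_⟩
      obtain ⟨h1, h2⟩ := hB z hC.2 hz.1
      show e' (e.symm z) = A (B z)
      rw [h2]
      exact hA ⟨_, h1⟩ (h2 ▸ hz.2) hC.1

theorem exists_chartedSpace (hT : T.Valid)
    (h : ∀ P m, ∃ (vc : Fin n → Fin 5 → Prop) (L : Cx), vc P m ∧ T.IsLink vc L ∧ L.Good) :
    ∃ _ : ChartedSpace E4 T.Space, IsPLManifold T.Space ∧ T.Triangulates T.Space := by
  have key : ∀ x : T.Space, ∃ e : OpenPartialHomeomorph T.Space E4, x ∈ e.source ∧ T.ChartPL e := by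
    intro x
    obtain ⟨P, a, rfl⟩ := T.exists_cell x
    obtain ⟨τ, h1, h2, h3⟩ := exists_gen a.1
    obtain ⟨m, hm⟩ := exists_big a
    obtain ⟨vc, L, hv, hL, hG⟩ := h P m
    obtain ⟨e, he, he'⟩ := exists_chart hT hL hG P (big τ a.1) m (h2.trans_le hm) hv τ h1
    exact ⟨e, he ▸ mem_N_self h3 h3, he'⟩
  choose ch hch1 hch2 using key
  refine ⟨⟨{e | T.ChartPL e}, ch, hch1, hch2⟩, fun e he e' he' => ChartPL.trans he he',
    Homeomorph.refl _, fun e he P a ha => ?_⟩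
  refine Cov.plAt (U := T.cell P ⁻¹' e.source)
    ((e.open_source.preimage (T.continuous_cell P)).mem_nhds ha) ((And.left he P).mono ?_ ?_)
  · rintro _ ⟨b, hb, rfl⟩; exact ⟨b.2, hb⟩
  · rintro C ⟨A, hA⟩; exact ⟨A, hA⟩

end Gluing

end Pool.Agent.Lib.MP_42180a_gt
end
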