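import Pool.Agent.Lib.MP_42180a_gt.Sing
import Pool.Agent.Lib.MP_42180a_gt.Local

-- part Pool.Agent.Lib.MP_42180a_gt.Hom
section

/-! The bridge to the singular chain complex of Mathlib. -/

namespace Pool.Agent.Lib.MP_42180a_gt

open CategoryTheory AlgebraicTopology Simplicial Limits Opposite

theorem le_rank_homology {R : Type} [CommRing R] [Nontrivial R]
    (S : ShortComplex (ModuleCat.{0} R)) {r : ℕ} (z : Fin r → S.X₂) (hz : ∀ j, S.g.hom (z j) = 0)
    (h : ∀ a : Fin r → R, (∃ w, S.f.hom w = ∑ j, a j • z j) → ∀ j, a j = 0) :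
    (r : Cardinal) ≤ Module.rank R S.homology := by
  rw [S.moduleCatHomologyIso.toLinearEquiv.rank_eq]
  let y : Fin r → S.moduleCatLeftHomologyData.H := fun j =>
    (LinearMap.range S.moduleCatToCycles).mkQ ⟨z j, hz j⟩
  have hy : LinearIndependent R y := by
    rw [Fintype.linearIndependent_iff]
    intro a ha
    refine h a ?_
    have h1 : (LinearMap.range S.moduleCatToCycles).mkQ (∑ j, a j • ⟨z j, hz j⟩) = 0 := by
      rw [map_sum]
      simp only [map_smul]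
      exact ha
    obtain ⟨w, hw⟩ := (Submodule.Quotient.mk_eq_zero _).1 h1
    refine ⟨w, ?_⟩
    have h2 := congrArg Subtype.val hw
    rw [Submodule.coe_sum] at h2
    exact h2
  simpa using hy.cardinal_le_rank

theorem eq_top_of_iota {R : Type} [CommRing R] (Y : SSet.{0}) (k : ℕ)
    (W : Submodule R ((Y.chainComplex (ModuleCat.of R R)).X k))
    (h : ∀ x, (Y.ιChainComplex (R := ModuleCat.of R R) x).hom (1 : R) ∈ W) : W = ⊤ := by
  have : ModuleCat.ofHom W.mkQ = 0 := by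
    refine SSet.chainComplex_hom_ext fun x => ?_
    ext
    simpa using h x
  rw [eq_top_iff]
  intro w _
  have h2 := congrArg (fun f => ModuleCat.Hom.hom f w) this
  simpa using h2

theorem iota_induction {R : Type} [CommRing R] (Y : SSet.{0}) (k : ℕ)
    (p : (Y.chainComplex (ModuleCat.of R R)).X k → Prop) (h0 : p 0)
    (h1 : ∀ a b, p a → p b → p (a + b)) (h2 : ∀ (t : R) a, p a → p (t • a))
    (h : ∀ x, p ((Y.ιChainComplex (R := ModuleCat.of R R) x).hom (1 : R))) : ∀ w, p w := by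
  let W : Submodule R ((Y.chainComplex (ModuleCat.of R R)).X k) :=
    { carrier := {w | p w}
      add_mem' := fun ha hb => h1 _ _ ha hb
      zero_mem' := h0
      smul_mem' := fun t a ha => h2 t a ha }
  intro w
  exact (eq_top_of_iota Y k W h ▸ Submodule.mem_top : w ∈ W)

variable {X : Type} [TopologicalSpace X]

noncomputable abbrev KX (X : Type) [TopologicalSpace X] : ChainComplex (ModuleCat.{0} ℤ) ℕ :=
  (TopCat.toSSet.obj (TopCat.of X)).chainComplex (ModuleCat.of ℤ ℤ)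

noncomputable def sx {k : ℕ} (σ : C(Dl k, X)) : (TopCat.toSSet.obj (TopCat.of X)) _⦋k⦌ :=
  (TopCat.toSSetObjEquiv (TopCat.of X) (op ⦋k⦌)).symm σ

noncomputable def xs {k : ℕ} (x : (TopCat.toSSet.obj (TopCat.of X)) _⦋k⦌) : C(Dl k, X) :=
  TopCat.toSSetObjEquiv (TopCat.of X) (op ⦋k⦌) x

theorem xs_sx {k : ℕ} (σ : C(Dl k, X)) : xs (sx σ) = σ := Equiv.apply_symm_apply _ _

theorem sx_xs {k : ℕ} (x : (TopCat.toSSet.obj (TopCat.of X)) _⦋k⦌) : sx (xs x) = x :=
  Equiv.symm_apply_apply _ _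

theorem delta_sx {k : ℕ} (σ : C(Dl (k + 1), X)) (i : Fin (k + 2)) :
    (TopCat.toSSet.obj (TopCat.of X)).δ i (sx σ) = sx (σ.comp (face i)) := by
  rw [← sx_xs ((TopCat.toSSet.obj (TopCat.of X)).δ i (sx σ))]
  congr 1

noncomputable def gen {k : ℕ} (σ : C(Dl k, X)) : (KX X).X k :=
  ((TopCat.toSSet.obj (TopCat.of X)).ιChainComplex (R := ModuleCat.of ℤ ℤ) (sx σ)).hom (1 : ℤ)

theorem d_gen {k : ℕ} (σ : C(Dl (k + 1), X)) : ((KX X).d (k + 1) k).hom (gen σ) =
    ∑ i : Fin (k + 2), (-1 : ℤ) ^ i.val • gen (σ.comp (face i)) := by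
  have := congrArg (fun f => ModuleCat.Hom.hom f (1 : ℤ))
    (SSet.ιChainComplex_d (TopCat.toSSet.obj (TopCat.of X)) (ModuleCat.of ℤ ℤ) (sx σ))
  simp only [ModuleCat.hom_comp, LinearMap.comp_apply, delta_sx, ModuleCat.hom_sum,
    LinearMap.sum_apply, ModuleCat.hom_zsmul, LinearMap.smul_apply] at this
  exact this

noncomputable def ev {k : ℕ} (φ : C(Dl k, X) → ℤ) : (KX X).X k →ₗ[ℤ] ℤ :=
  (Cofan.IsColimit.desc ((TopCat.toSSet.obj (TopCat.of X)).isColimitChainComplexXCofan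
    (ModuleCat.of ℤ ℤ) k) (A := ModuleCat.of ℤ ℤ)
    (fun x => ModuleCat.ofHom (LinearMap.toSpanSingleton ℤ ℤ (φ (xs x))))).hom

theorem ev_gen {k : ℕ} (φ : C(Dl k, X) → ℤ) (σ : C(Dl k, X)) : ev φ (gen σ) = φ σ := by
  have := congrArg (fun f => ModuleCat.Hom.hom f (1 : ℤ))
    (Cofan.IsColimit.fac ((TopCat.toSSet.obj (TopCat.of X)).isColimitChainComplexXCofan
    (ModuleCat.of ℤ ℤ) k) (A := ModuleCat.of ℤ ℤ)
    (fun x => ModuleCat.ofHom (LinearMap.toSpanSingleton ℤ ℤ (φ (xs x)))) (sx σ))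
  simp only [ModuleCat.hom_comp, LinearMap.comp_apply, xs_sx, ModuleCat.hom_ofHom,
    LinearMap.toSpanSingleton_apply, one_smul] at this
  exact this

theorem gen_induction {k : ℕ} (p : (KX X).X k → Prop) (h0 : p 0)
    (h1 : ∀ a b, p a → p b → p (a + b)) (h2 : ∀ a, p a → p (-a)) (h : ∀ σ, p (gen σ)) :
    ∀ w, p w := by
  refine iota_induction _ k p h0 h1 (fun t a ha => ?_) (fun x => ?_)
  · have key : ∀ t : ℤ, p (t • a) := fun t => by
      induction t with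
      | zero => simpa using h0
      | succ i ih => rw [add_zsmul, one_zsmul]; exact h1 _ _ ih ha
      | pred i ih => rw [sub_zsmul, one_zsmul]; exact h1 _ _ ih (h2 _ ha)
    convert key t using 1
    exact int_smul_eq_zsmul _ _ _
  · have := h (xs x)
    rwa [gen, sx_xs] at this

theorem ev_d {k : ℕ} (φ : C(Dl k, X) → ℤ) (σ : C(Dl (k + 1), X)) :
    ev φ (((KX X).d (k + 1) k).hom (gen σ)) = cob φ σ := by
  rw [d_gen, map_sum]
  simp only [map_zsmul, ev_gen, smul_eq_mul, cob]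

theorem le_betti2 {r : ℕ} (z : Fin r → (KX X).X 2) (hz : ∀ j, ((KX X).d 2 1).hom (z j) = 0)
    (h : ∀ a : Fin r → ℤ, (∃ w, ((KX X).d 3 2).hom w = ∑ j, a j • z j) → ∀ j, a j = 0) :
    (r : Cardinal) ≤ betti2 X := by
  have e : betti2 X = Module.rank ℤ ((KX X).sc' 3 2 1).homology :=
    ((KX X).homologyIsoSc' 3 2 1 (by simp) (by simp)).toLinearEquiv.rank_eq
  rw [e]
  refine le_rank_homology _ z hz fun a ⟨w, hw⟩ => h a ⟨w, hw.trans ?_⟩
  exact Finset.sum_congr rfl fun j _ => int_smul_eq_zsmul _ _ _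

/-- A locally defined cocycle vanishes on boundaries after enough subdivisions. -/
theorem ev_iter_boundary (c : C(Dl 2, X) → ℤ) {ι : Type} (V : ι → Set X) (hV : ∀ i, IsOpen (V i))
    (hV' : ∀ x, ∃ i, x ∈ V i) (hc : ∀ (w : C(Dl 3, X)) i, (∀ x, w x ∈ V i) → cob c w = 0)
    (w : (KX X).X 3) : ∃ N₀, ∀ N ≥ N₀, ev ((Sd sd2)^[N] c) (((KX X).d 3 2).hom w) = 0 := by
  refine gen_induction
    (fun w => ∃ N₀, ∀ N ≥ N₀, ev ((Sd sd2)^[N] c) (((KX X).d 3 2).hom w) = 0)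
    ⟨0, fun N _ => by simp⟩ ?_ ?_ (fun σ => ?_) w
  · rintro a b ⟨N₁, h1⟩ ⟨N₂, h2⟩
    exact ⟨max N₁ N₂, fun N hN => by
      rw [map_add, map_add, h1 N (le_of_max_le_left hN), h2 N (le_of_max_le_right hN), add_zero]⟩
  · rintro a ⟨N₁, h1⟩
    exact ⟨N₁, fun N hN => by rw [map_neg, map_neg, h1 N hN, neg_zero]⟩
  · obtain ⟨N₀, hN₀⟩ := exists_small V hV σ fun x => hV' _
    refine ⟨N₀, fun N hN => ?_⟩
    rw [ev_d, cob_iter (cob_Sd sd2 sd3 chk23 good2.ne),
      iter_congr good3 _ (fun _ : C(Dl 3, X) => 0) N _ σ, iter_zero]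
    intro g hg
    obtain ⟨i, hi⟩ := hN₀ N hN g hg
    exact hc _ i hi

end Pool.Agent.Lib.MP_42180a_gt
end

-- part Pool.Agent.Lib.MP_42180a_gt.Cocycle
section

/-! Simplicial 2-cocycles detect singular homology classes. -/

namespace Pool.Agent.Lib.MP_42180a_gt

open Topology Set

namespace Gluing

variable {n : ℕ} (T : Gluing n)

structure IsCoc (c : Fin n → Fin 5 → Fin 5 → Fin 5 → ℤ) : Prop where
  inv : ∀ P i a b d, a ≠ i → b ≠ i → d ≠ i →
    c (T.nbr P i) (T.perm P i a) (T.perm P i b) (T.perm P i d) = c P a b d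
  coc : ∀ P a b d e, c P b d e - c P a d e + c P a b e - c P a b d = 0
  deg : ∀ P a b, c P a a b = 0 ∧ c P a b a = 0 ∧ c P b a a = 0

noncomputable def cellC (P : Fin n) : C(Dl 4, T.Space) := ⟨T.cell P, T.continuous_cell P⟩

/-- The affine singular simplex with given vertices in a pentachoron. -/
noncomputable def tri {k : ℕ} (P : Fin n) (m : Fin (k + 1) → Fin 5) : C(Dl k, T.Space) :=
  (T.cellC P).comp (aff fun i => vx (m i))

variable {T} {c : Fin n → Fin 5 → Fin 5 → Fin 5 → ℤ}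

theorem IsCoc.conn (hc : T.IsCoc c) {P Q : Fin n} {S : Set (Fin 5)} {g : Equiv.Perm (Fin 5)}
    (h : T.Conn P S Q g) {a b d : Fin 5} (ha : a ∈ S) (hb : b ∈ S) (hd : d ∈ S) :
    c Q (g a) (g b) (g d) = c P a b d := by
  induction h with
  | refl => rfl
  | step i _ hi ih => exact (hc.inv _ i _ _ _ (hi a ha) (hi b hb) (hi d hd)).trans ih

theorem supp_aff {k : ℕ} (m : Fin (k + 1) → Fin 5) (x : Dl k) :
    supp (aff (l := 4) (fun i => vx (m i)) x) ⊆ range m := fun j hj => by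
  by_contra h
  refine hj ?_
  rw [aff_apply]
  refine Finset.sum_eq_zero fun i _ => ?_
  rw [vx_apply, if_neg (fun e => h ⟨i, e.symm⟩), mul_zero]

theorem tri_face {k : ℕ} (P : Fin n) (m : Fin (k + 2) → Fin 5) (i : Fin (k + 2)) :
    (T.tri P m).comp (face i) = T.tri P (fun l => m (i.succAbove l)) := by
  rw [tri, ContinuousMap.comp_assoc, aff_face]; rfl

theorem tri_inv {k : ℕ} (P : Fin n) (i : Fin 5) (m : Fin (k + 1) → Fin 5) (h : ∀ l, m l ≠ i) :
    T.tri (T.nbr P i) (fun l => T.perm P i (m l)) = T.tri P m := by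
  ext x
  refine ((Conn.single P (range m) i (fun ⟨l, e⟩ => h l e)).exists_eq _ (supp_aff m x) _
    fun j => ?_).symm
  rw [aff_apply, aff_apply]
  simp [vx_apply]

theorem exists_cochain (hT : T.Valid) (hc : T.IsCoc c) : ∃ φ : C(Dl 2, T.Space) → ℤ,
    (∀ (w : C(Dl 3, T.Space)) (τ : Ioo (0 : ℝ) (1 / 5)), (∀ x, w x ∈ T.U τ.1) → cob φ w = 0) ∧
    ∀ P (m : Fin 3 → Fin 5), ∃ N₀, ∀ N ≥ N₀,
      (Sd sd2)^[N] φ (T.tri P m) = c P (m 0) (m 1) (m 2) := by
  classical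
  choose mx hmx using exists_big
  let oP : T.Space → Fin n := fun x => (Quot.out x).1
  let oa : T.Space → Pent := fun x => (Quot.out x).2
  have hout : ∀ x, T.cell (oP x) (oa x) = x := fun x => Quot.out_eq x
  let Fr : ℝ → Fin n → Set (Fin 5) → T.Space → Fin 5 → Prop := fun τ P S x m =>
    ∃ g, T.Conn P S (oP x) g ∧ g '' S = big τ (oa x).1 ∧ g m = mx (oa x)
  let Val : C(Dl 2, T.Space) → ℤ → Prop := fun σ k => ∃ (τ : Ioo (0 : ℝ) (1 / 5)) (P : Fin n)
    (S : Set (Fin 5)) (m : Fin 3 → Fin 5), (∀ x, σ x ∈ T.U τ.1) ∧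
      (∀ i, Fr τ.1 P S (σ (vx i)) (m i)) ∧ k = c P (m 0) (m 1) (m 2)
  have hbig : ∀ (τ : Ioo (0 : ℝ) (1 / 5)) (a : Pent), mx a ∈ big τ.1 a.1 := fun τ a =>
    τ.2.2.trans_le (hmx a)
  have hfam : ∀ {k : ℕ} (σ : C(Dl k, T.Space)) (τ τ' : Ioo (0 : ℝ) (1 / 5)),
      (∀ x, σ x ∈ T.U τ.1) → (∀ x, σ x ∈ T.U τ'.1) → ∀ x, ∃ g,
        T.Conn (oP (σ (vx 0))) (big τ.1 (oa (σ (vx 0))).1) (oP (σ x)) g ∧
        g '' big τ.1 (oa (σ (vx 0))).1 = big τ.1 (oa (σ x)).1 ∧
        g '' big τ'.1 (oa (σ (vx 0))).1 = big τ'.1 (oa (σ x)).1 := by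
    intro k σ τ τ' h h' x
    have := subset_N τ.2.1.le (isPreconnected_range σ.continuous) (range_subset_iff.2 h)
      (range_subset_iff.2 h') (P := oP (σ (vx 0))) (a := oa (σ (vx 0))) ⟨_, (hout _).symm⟩
      (mem_range_self x)
    rw [← hout (σ x)] at this
    exact ((mem_N τ.2.1.le).1 this).2.2
  have hval : ∀ (σ : C(Dl 2, T.Space)) (τ : Ioo (0 : ℝ) (1 / 5)) P S (m : Fin 3 → Fin 5)
      (h : Fin 3 → Equiv.Perm (Fin 5)), (∀ i, Fr τ.1 P S (σ (vx i)) (m i)) →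
      (∀ i, T.Conn (oP (σ (vx 0))) (big τ.1 (oa (σ (vx 0))).1) (oP (σ (vx i))) (h i) ∧
        h i '' big τ.1 (oa (σ (vx 0))).1 = big τ.1 (oa (σ (vx i))).1) →
      c P (m 0) (m 1) (m 2) = c (oP (σ (vx 0))) ((h 0)⁻¹ (mx (oa (σ (vx 0)))))
        ((h 1)⁻¹ (mx (oa (σ (vx 1))))) ((h 2)⁻¹ (mx (oa (σ (vx 2))))) := by
    intro σ τ P S m h hF hh
    obtain ⟨g₀, a1, a2, -⟩ := hF 0
    have key : ∀ i, m i ∈ S ∧ (h i)⁻¹ (mx (oa (σ (vx i)))) = g₀ (m i) := fun i => by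
      obtain ⟨g, b1, b2, b3⟩ := hF i
      have hm : m i ∈ S := by
        have := hbig τ (oa (σ (vx i)))
        rw [← b2, ← b3] at this
        exact g.injective.mem_set_image.1 this
      refine ⟨hm, ?_⟩
      have := hT.unique b1 (a1.trans (a2 ▸ (hh i).1)) (by
        rw [Equiv.Perm.coe_mul, image_comp, a2, (hh i).2, b2]) _ hm
      rw [← b3, this]; simp
    rw [(key 0).2, (key 1).2, (key 2).2]
    exact (hc.conn a1 (key 0).1 (key 1).1 (key 2).1).symm
  have huniq : ∀ σ k k', Val σ k → Val σ k' → k = k' := by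
    have aux : ∀ (σ : C(Dl 2, T.Space)) (τ τ' : Ioo (0 : ℝ) (1 / 5)) P S (m : Fin 3 → Fin 5) P' S' (m' : Fin 3 → Fin 5),
        τ.1 ≤ τ'.1 → (∀ x, σ x ∈ T.U τ.1) → (∀ x, σ x ∈ T.U τ'.1) →
        (∀ i, Fr τ.1 P S (σ (vx i)) (m i)) → (∀ i, Fr τ'.1 P' S' (σ (vx i)) (m' i)) →
        c P (m 0) (m 1) (m 2) = c P' (m' 0) (m' 1) (m' 2) := by
      intro σ τ τ' P S m P' S' m' hle h h' hF hF'
      choose g g1 g2 g3 using fun i => hfam σ τ τ' h h' (vx i)
      rw [hval σ τ P S m g hF fun i => ⟨g1 i, g2 i⟩, hval σ τ' P' S' m' g hF'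
        fun i => ⟨(g1 i).mono fun j hj => lt_of_le_of_lt hle hj, g3 i⟩]
    rintro σ k k' ⟨τ, P, S, m, h, hF, rfl⟩ ⟨τ', P', S', m', h', hF', rfl⟩
    rcases le_total τ.1 τ'.1 with hle | hle
    · exact aux σ τ τ' P S m P' S' m' hle h h' hF hF'
    · exact (aux σ τ' τ P' S' m' P S m hle h' h hF' hF).symm
  let φ : C(Dl 2, T.Space) → ℤ := fun σ => if h : ∃ k, Val σ k then h.choose else 0
  have hφ : ∀ σ k, Val σ k → φ σ = k := fun σ k hk => by
    have h : ∃ k, Val σ k := ⟨k, hk⟩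
    show dite _ _ _ = _
    rw [dif_pos h]
    exact huniq σ _ _ h.choose_spec hk
  refine ⟨φ, fun w τ hw => ?_, fun P m => ?_⟩
  · choose g g1 g2 g3 using fun i => hfam w τ τ hw hw (vx i)
    have key : ∀ i : Fin 4, φ (w.comp (face i)) = c (oP (w (vx 0)))
        ((g (i.succAbove 0))⁻¹ (mx (oa (w (vx (i.succAbove 0))))))
        ((g (i.succAbove 1))⁻¹ (mx (oa (w (vx (i.succAbove 1))))))
        ((g (i.succAbove 2))⁻¹ (mx (oa (w (vx (i.succAbove 2)))))) := fun i =>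
      hφ _ _ ⟨τ, _, big τ.1 (oa (w (vx 0))).1,
        fun l => (g (i.succAbove l))⁻¹ (mx (oa (w (vx (i.succAbove l))))), fun x => hw _,
        fun l => by
          rw [ContinuousMap.comp_apply, face_vx]
          exact ⟨g _, g1 _, g2 _, by simp⟩, rfl⟩
    rw [cob_two, key, key, key, key]
    exact hc.coc _ _ _ _ _
  · choose k k1 k2 using fun b : Pent => cell_eq_iff.1 (hout (T.cell P b)).symm
    let mh : Pent → Fin 5 := fun b => (k b)⁻¹ (mx (oa (T.cell P b)))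
    have hmh : ∀ b, mh b ∈ supp b := fun b => by
      have := hmx (oa (T.cell P b))
      show b.1 _ ≠ 0
      rw [← k2 b]
      simp only [mh, Equiv.Perm.coe_inv, Equiv.apply_symm_apply]
      exact (lt_of_lt_of_le (by norm_num) this).ne'
    let γ : Dl 4 → Dl 4 → Dl 4 → ℤ := fun x y z => c P (mh x) (mh y) (mh z)
    let ρ : C(Dl 2, Dl 4) := aff fun i => vx (m i)
    obtain ⟨N₀, hN₀⟩ := exists_small (fun τ : Ioo (0 : ℝ) (1 / 5) => {b : Dl 4 | Gen τ.1 b.1})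
      (fun τ => by
        have := (isOpen_gen τ.1 τ.1 (fun _ _ => True)).preimage
          (continuous_subtype_val (p := fun a => a ∈ stdSimplex ℝ (Fin 5)))
        simpa using this) ρ
      (fun x => let ⟨τ, h1, h2, h3⟩ := exists_gen (ρ x).1; ⟨⟨τ, h1, h2⟩, h3⟩)
    refine ⟨N₀, fun N hN => ?_⟩
    rw [iter_congr good2 φ (fun σ : C(Dl 2, Dl 4) => γ (σ (vx 0)) (σ (vx 1)) (σ (vx 2))) N _ ρ,
      iter_vertex γ (fun x y z w => hc.coc P _ _ _ _)]
    · have : ∀ i, mh (ρ (vx i)) = m i := fun i => by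
        have h1 := hmh (ρ (vx i))
        simp only [ρ, aff_vx] at h1 ⊢
        by_contra h
        exact h1 (by rw [vx_apply, if_neg h])
      simp only [γ, this]
    · intro i x y z
      have : ∀ x, mh (ρ (face i x)) = m (i.succAbove 0) ∨ mh (ρ (face i x)) = m (i.succAbove 1) :=
        fun x => by
          have h1 := hmh (ρ (face i x))
          have h2 : ρ (face i x) = aff (fun l => vx (m (i.succAbove l))) x :=
            congrArg (fun f : C(Dl 1, Dl 4) => f x) (aff_face (fun i => vx (m i)) i)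
          rw [h2] at h1 ⊢
          obtain ⟨l, hl⟩ := supp_aff _ x h1
          rw [← hl]
          fin_cases l
          · exact Or.inl rfl
          · exact Or.inr rfl
      simp only [γ]
      rcases this x with h1 | h1 <;> rcases this y with h2 | h2 <;> rcases this z with h3 | h3 <;>
        rw [h1, h2, h3] <;>
        first | exact (hc.deg _ _ _).1 | exact (hc.deg _ _ _).2.1 | exact (hc.deg _ _ _).2.2
    · intro g hg
      obtain ⟨τ, hτ⟩ := hN₀ N hN g hg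
      have hlc : IsLocallyConstant fun x => big τ.1 (ρ (g x)).1 := by
        rw [IsLocallyConstant.iff_eventually_eq]
        intro x
        exact ((continuous_subtype_val.comp (ρ.comp g).continuous).continuousAt.eventually
          (p := fun b => Gen τ.1 b ∧ big τ.1 b = big τ.1 (ρ (g x)).1) (hτ x).eventually).mono
          fun y hy => hy.2
      refine hφ _ _ ⟨τ, P, big τ.1 (ρ (g (vx 0))).1, fun i => mh (ρ (g (vx i))),
        fun x => mem_U.2 (hτ x), fun i => ?_, rfl⟩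
      rw [hlc.apply_eq_of_preconnectedSpace (vx 0) (vx i)]
      exact ⟨k (ρ (g (vx i))), (k1 _).mono (big_subset_supp τ.2.1.le _), image_big (k2 _),
        Equiv.apply_symm_apply _ _⟩

theorem le_betti2_of_coc (hT : T.Valid) {r : ℕ} (c : Fin r → Fin n → Fin 5 → Fin 5 → Fin 5 → ℤ)
    (hc : ∀ i, T.IsCoc (c i)) (P : Fin r → Fin n) (m : Fin r → Fin 3 → Fin 5) (P₀ : Fin n)
    (m₀ : Fin 3 → Fin 5)
    (hb : ∀ j (i : Fin 3), T.tri (P j) (fun l => m j (i.succAbove l)) =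
      T.tri P₀ (fun l => m₀ (i.succAbove l)))
    (hd : ∀ i j, c i (P j) (m j 0) (m j 1) (m j 2) - c i P₀ (m₀ 0) (m₀ 1) (m₀ 2) =
      if i = j then 1 else 0) : (r : Cardinal) ≤ betti2 T.Space := by
  refine le_betti2 (fun j => gen (T.tri (P j) (m j)) - gen (T.tri P₀ m₀)) (fun j => ?_) ?_
  · rw [map_sub, d_gen, d_gen]
    simp only [tri_face, hb j, sub_self]
  · rintro a ⟨w, hw⟩ i
    obtain ⟨φ, h1, h2⟩ := exists_cochain hT (hc i)
    obtain ⟨N₁, hN₁⟩ := ev_iter_boundary φ (fun τ : Ioo (0 : ℝ) (1 / 5) => T.U τ.1)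
      (fun τ => T.isOpen_U _) (fun x => let ⟨τ, h1, h2, h3⟩ := T.exists_mem_U x; ⟨⟨τ, h1, h2⟩, h3⟩)
      h1 w
    choose M hM using fun j => h2 (P j) (m j)
    obtain ⟨N₂, hN₂⟩ := h2 P₀ m₀
    have := hN₁ (N₁ + N₂ + ∑ j, M j) (by omega)
    rw [hw, map_sum] at this
    have h3 : ∀ j, M j ≤ N₁ + N₂ + ∑ j, M j := fun j =>
      (Finset.single_le_sum (fun _ _ => Nat.zero_le _) (Finset.mem_univ j)).trans (by omega)
    simp only [map_zsmul, map_sub, ev_gen, hM _ _ (h3 _), hN₂ _ (show N₂ ≤ N₁ + N₂ + ∑ j, M j by omega),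
      hd] at this
    simpa using this

end Gluing

end Pool.Agent.Lib.MP_42180a_gt
end
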