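import Pool.Agent.Lib.MP_42180a_gt.Defs

/-! Finite polyhedral covers. -/

namespace Pool.Agent.Lib.MP_42180a_gt

open Topology

variable {E F : Type} [AddCommGroup E] [Module ℝ E] [AddCommGroup F] [Module ℝ F]

theorem IsPolyhedron.univ : IsPolyhedron (Set.univ : Set E) :=
  ⟨∅, by ext; simp⟩

theorem IsPolyhedron.inter {C D : Set E} (hC : IsPolyhedron C) (hD : IsPolyhedron D) :
    IsPolyhedron (C ∩ D) := by
  classical
  obtain ⟨H, rfl⟩ := hC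
  obtain ⟨K, rfl⟩ := hD
  refine ⟨H ∪ K, ?_⟩
  ext x
  simp only [Set.mem_inter_iff, Set.mem_ofPred_eq, Finset.mem_union]
  constructor
  · rintro ⟨h1, h2⟩ h (hh | hh)
    · exact h1 h hh
    · exact h2 h hh
  · intro h
    exact ⟨fun k hk => h k (Or.inl hk), fun k hk => h k (Or.inr hk)⟩

theorem IsPolyhedron.preimage {C : Set F} (hC : IsPolyhedron C) (A : E →ᵃ[ℝ] F) :
    IsPolyhedron (A ⁻¹' C) := by
  classical
  obtain ⟨H, rfl⟩ := hC
  refine ⟨H.image (fun h => h.comp A), ?_⟩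
  ext x
  simp

theorem IsPolyhedron.of_family {ι : Type} [Fintype ι] (h : ι → E →ᵃ[ℝ] ℝ) :
    IsPolyhedron {x | ∀ i, 0 ≤ h i x} := by
  classical
  refine ⟨Finset.univ.image h, ?_⟩
  ext x
  simp

theorem IsPolyhedron.isClosed {E : Type} [NormedAddCommGroup E] [NormedSpace ℝ E]
    [FiniteDimensional ℝ E] {C : Set E} (hC : IsPolyhedron C) : IsClosed C := by
  obtain ⟨H, rfl⟩ := hC
  have : {x | ∀ h ∈ H, 0 ≤ h x} = ⋂ h ∈ H, {x : E | 0 ≤ h x} := by ext; simp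
  rw [this]
  exact isClosed_biInter fun h _ => isClosed_le continuous_const h.continuous_of_finiteDimensional

/-- `s` is covered by finitely many polyhedra with property `R`. -/
def Cov (s : Set E) (R : Set E → Prop) : Prop :=
  ∃ 𝒞 : Finset (Set E), (∀ y ∈ s, ∃ C ∈ 𝒞, y ∈ C) ∧ ∀ C ∈ 𝒞, IsPolyhedron C ∧ R C

theorem Cov.mono {s s' : Set E} {R R' : Set E → Prop} (h : Cov s R) (hs : s' ⊆ s)
    (hR : ∀ C, R C → R' C) : Cov s' R' := by
  obtain ⟨𝒞, h1, h2⟩ := h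
  exact ⟨𝒞, fun y hy => h1 y (hs hy), fun C hC => ⟨(h2 C hC).1, hR C (h2 C hC).2⟩⟩

theorem Cov.of_family {ι : Type} [Fintype ι] {s : Set E} {R : Set E → Prop} (C : ι → Set E)
    (h1 : ∀ y ∈ s, ∃ i, y ∈ C i) (h2 : ∀ i, IsPolyhedron (C i)) (h3 : ∀ i, R (C i)) :
    Cov s R := by
  classical
  refine ⟨Finset.univ.image C, fun y hy => ?_, fun D hD => ?_⟩
  · obtain ⟨i, hi⟩ := h1 y hy
    exact ⟨C i, by simp, hi⟩
  · obtain ⟨i, -, rfl⟩ := Finset.mem_image.1 hD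
    exact ⟨h2 i, h3 i⟩

theorem Cov.single {s : Set E} {R : Set E → Prop} (h : R Set.univ) : Cov s R :=
  Cov.of_family (ι := Unit) (fun _ => Set.univ) (fun _ _ => ⟨(), trivial⟩)
    (fun _ => IsPolyhedron.univ) (fun _ => h)

theorem Cov.bind {s : Set E} {R R' : Set E → Prop} (h : Cov s R)
    (h' : ∀ C, R C → Cov (s ∩ C) (fun D => R' (D ∩ C))) : Cov s R' := by
  classical
  obtain ⟨𝒞, h1, h2⟩ := h
  choose! 𝒟 hD1 hD2 using h'
  refine ⟨𝒞.biUnion (fun C => (𝒟 C).image (fun D => D ∩ C)), fun y hy => ?_, fun D hD => ?_⟩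
  · obtain ⟨C, hC, hyC⟩ := h1 y hy
    obtain ⟨D, hD, hyD⟩ := hD1 C (h2 C hC).2 y ⟨hy, hyC⟩
    exact ⟨D ∩ C, Finset.mem_biUnion.2 ⟨C, hC, Finset.mem_image.2 ⟨D, hD, rfl⟩⟩, hyD, hyC⟩
  · obtain ⟨C, hC, hD⟩ := Finset.mem_biUnion.1 hD
    obtain ⟨D', hD', rfl⟩ := Finset.mem_image.1 hD
    exact ⟨(hD2 C (h2 C hC).2 D' hD').1.inter (h2 C hC).1, (hD2 C (h2 C hC).2 D' hD').2⟩

theorem Cov.comap {s : Set E} {s' : Set F} {R : Set E → Prop} {R' : Set F → Prop}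
    (h : Cov s' R') (A : E →ᵃ[ℝ] F) (hA : ∀ y ∈ s, A y ∈ s')
    (hR : ∀ C, R' C → R (A ⁻¹' C)) : Cov s R := by
  classical
  obtain ⟨𝒞, h1, h2⟩ := h
  refine ⟨𝒞.image (fun C => A ⁻¹' C), fun y hy => ?_, fun D hD => ?_⟩
  · obtain ⟨C, hC, hyC⟩ := h1 _ (hA y hy)
    exact ⟨A ⁻¹' C, Finset.mem_image.2 ⟨C, hC, rfl⟩, hyC⟩
  · obtain ⟨C, hC, rfl⟩ := Finset.mem_image.1 hD
    exact ⟨(h2 C hC).1.preimage A, hR C (h2 C hC).2⟩

theorem Cov.plAt {D : Type} [TopologicalSpace D] {j : D → E} {f : D → F} {x : D} {U : Set D}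
    (hU : U ∈ 𝓝 x)
    (h : Cov (j '' U) (fun C => ∃ A : E →ᵃ[ℝ] F, ∀ y ∈ U, j y ∈ C → f y = A (j y))) :
    PLAt j f x := by
  obtain ⟨𝒞, h1, h2⟩ := h
  exact ⟨U, hU, 𝒞, fun y hy => h1 _ ⟨y, hy, rfl⟩, h2⟩

/-- A map which is continuous on each piece of a finite polyhedral cover is continuous. -/
theorem Cov.continuousOn {E : Type} [NormedAddCommGroup E] [NormedSpace ℝ E]
    [FiniteDimensional ℝ E] {D Y : Type} [TopologicalSpace D] [TopologicalSpace Y]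
    {j : D → E} (hj : Continuous j) {f : D → Y} {U : Set D}
    (h : Cov (j '' U) (fun C => ContinuousOn f (U ∩ j ⁻¹' C))) : ContinuousOn f U := by
  obtain ⟨𝒞, h1, h2⟩ := h
  intro x hx
  have hU : U = ⋃ C ∈ (𝒞 : Set (Set E)), (U ∩ j ⁻¹' C) := by
    ext y
    simp only [Set.mem_iUnion, Set.mem_inter_iff, Set.mem_preimage, Finset.mem_coe]
    constructor
    · intro hy
      obtain ⟨C, hC, hyC⟩ := h1 _ ⟨y, hy, rfl⟩
      exact ⟨C, hC, hy, hyC⟩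
    · rintro ⟨C, -, hy, -⟩
      exact hy
  unfold ContinuousWithinAt
  rw [hU, nhdsWithin_biUnion (Finset.finite_toSet 𝒞)]
  simp only [Filter.tendsto_iSup]
  intro C hC
  by_cases hxC : j x ∈ C
  · exact (h2 C hC).2 x ⟨hx, hxC⟩
  · have : x ∉ closure (U ∩ j ⁻¹' C) := fun hc =>
      hxC ((((h2 C hC).1.isClosed.preimage hj).closure_subset_iff.2 Set.inter_subset_right) hc)
    exact continuousWithinAt_of_notMem_closure this

/-- A set which is relatively open in each piece of a finite polyhedral cover is open. -/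
theorem Cov.isOpen {E : Type} [NormedAddCommGroup E] [NormedSpace ℝ E]
    [FiniteDimensional ℝ E] {W : Set E}
    (h : Cov Set.univ (fun C => ∃ O, IsOpen O ∧ ∀ y ∈ C, y ∈ W ↔ y ∈ O)) : IsOpen W := by
  obtain ⟨𝒞, h1, h2⟩ := h
  choose! O hO1 hO2 using fun C hC => (h2 C hC).2
  rw [← isClosed_compl_iff]
  have : Wᶜ = ⋃ C ∈ (𝒞 : Set (Set E)), (C ∩ (O C)ᶜ) := by
    ext y
    simp only [Set.mem_iUnion, Set.mem_inter_iff, Set.mem_compl_iff, Finset.mem_coe]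
    constructor
    · intro hy
      obtain ⟨C, hC, hyC⟩ := h1 y trivial
      exact ⟨C, hC, hyC, fun h => hy ((hO2 C hC y hyC).2 h)⟩
    · rintro ⟨C, hC, hyC, hy⟩ h
      exact hy ((hO2 C hC y hyC).1 h)
  rw [this]
  exact (Finset.finite_toSet 𝒞).isClosed_biUnion fun C hC =>
    (h2 C hC).1.isClosed.inter (hO1 C hC).isClosed_compl

end Pool.Agent.Lib.MP_42180a_gt
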