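import Pool.Agent.Lib.MP_42180a_gt.Local

/-! Simple connectivity of the quotient space from a combinatorial condition. -/

namespace Pool.Agent.Lib.MP_42180a_gt

open Topology Set CategoryTheory unitInterval

section General

variable {X : Type} [TopologicalSpace X] [PathConnectedSpace X] (x₀ : X)

/-- The loop at the base point determined by a path. -/
noncomputable def lp {x y : X} (p : Path x y) : End (FundamentalGroupoid.mk x₀) :=
  FundamentalGroupoid.fromPath (Path.Homotopic.Quotient.mk (PathConnectedSpace.somePath x₀ x)) ≫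
    FundamentalGroupoid.fromPath (Path.Homotopic.Quotient.mk p) ≫
    Groupoid.inv (FundamentalGroupoid.fromPath
      (Path.Homotopic.Quotient.mk (PathConnectedSpace.somePath x₀ y)))

theorem lp_congr {x y x' y' : X} (p : Path x y) (q : Path x' y') (h : ∀ t, p t = q t) :
    lp x₀ p = lp x₀ q := by
  have hx : x = x' := by rw [← p.source, h, q.source]
  have hy : y = y' := by rw [← p.target, h, q.target]
  subst hx; subst hy
  have : p = q := Path.ext (funext h)
  rw [this]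

theorem lp_homotopic {x y : X} {p q : Path x y} (h : p.Homotopic q) : lp x₀ p = lp x₀ q := by
  unfold lp
  rw [Path.Homotopic.Quotient.eq.2 h]

theorem lp_trans {x y z : X} (p : Path x y) (q : Path y z) :
    lp x₀ (p.trans q) = lp x₀ q * lp x₀ p := by
  unfold lp
  rw [End.mul_def, Path.Homotopic.Quotient.mk_trans]
  have : FundamentalGroupoid.fromPath ((Path.Homotopic.Quotient.mk p).trans
    (Path.Homotopic.Quotient.mk q)) = FundamentalGroupoid.fromPath (Path.Homotopic.Quotient.mk p) ≫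
      FundamentalGroupoid.fromPath (Path.Homotopic.Quotient.mk q) := rfl
  rw [this]
  simp

theorem lp_refl (x : X) : lp x₀ (Path.refl x) = 1 := by
  have := lp_trans x₀ (Path.refl x) (Path.refl x)
  rw [Path.refl_trans_refl] at this
  exact mul_left_cancel (a := lp x₀ (Path.refl x)) (by rw [mul_one]; exact this.symm)

theorem homotopic_of_lp {x : X} (p : Path x x) (h : lp x₀ p = 1) : p.Homotopic (Path.refl x) := by
  have h2 := h.trans (lp_refl x₀ x).symm
  unfold lp at h2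
  rw [cancel_epi, cancel_mono] at h2
  exact Path.Homotopic.Quotient.eq.1 h2

theorem lp_map_eq {Y : Type} [TopologicalSpace Y] [SimplyConnectedSpace Y] {f : Y → X}
    (hf : Continuous f) {a b c : Y} (p : Path a b) (q : Path b c) (r : Path a c) :
    lp x₀ (q.map hf) * lp x₀ (p.map hf) = lp x₀ (r.map hf) := by
  rw [← lp_trans, ← Path.map_trans]
  exact lp_homotopic x₀ ((SimplyConnectedSpace.paths_homotopic _ _).map ⟨f, hf⟩)

theorem simplyConnected_of_local (H : X → End (FundamentalGroupoid.mk x₀))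
    (h : ∀ x, ∃ V, IsOpen V ∧ x ∈ V ∧ ∀ y z (p : Path y z), (∀ t, p t ∈ V) →
      lp x₀ p * H y = H z) : SimplyConnectedSpace X := by
  rw [simply_connected_iff_loops_nullhomotopic]
  refine ⟨inferInstance, fun x γ => homotopic_of_lp x₀ γ ?_⟩
  choose V hV1 hV2 hV3 using h
  obtain ⟨t, t0, tm, ⟨N, hN⟩, ht⟩ := exists_monotone_Icc_subset_open_cover_unitInterval
    (c := fun x => γ ⁻¹' V x) (fun x => (hV1 x).preimage γ.continuous)
    (fun s _ => mem_iUnion.2 ⟨γ s, hV2 _⟩)
  have key : ∀ k, lp x₀ (γ.subpath 0 (t k)) * H (γ 0) = H (γ (t k)) := by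
    intro k
    induction k with
    | zero => rw [t0, Path.subpath_self, lp_refl, one_mul]
    | succ k ih =>
      obtain ⟨y, hy⟩ := ht k
      rw [← lp_homotopic x₀ ⟨Path.Homotopy.subpathTransSubpath γ 0 (t k) (t (k + 1))⟩, lp_trans, mul_assoc, ih]
      refine hV3 y _ _ _ fun s => ?_
      have : (γ.subpath (t k) (t (k + 1))) s ∈ range (γ.subpath (t k) (t (k + 1))) := ⟨s, rfl⟩
      rw [Path.range_subpath_of_le _ _ _ (tm (Nat.le_succ k))] at this
      obtain ⟨u, hu, e⟩ := this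
      rw [← e]; exact hy hu
  have := key N
  rw [hN N le_rfl, lp_congr x₀ (γ.subpath 0 1) γ (fun s => by rw [Path.subpath_zero_one]; rfl),
    γ.source, γ.target] at this
  exact mul_right_cancel (b := H x) (by rw [one_mul]; exact this)

instance : ContractibleSpace I := (convex_Icc (0 : ℝ) 1).contractibleSpace ⟨0, by simp⟩

theorem lp_square {y z v : X} (δ : Path y z) (p : Path y v) (q : Path z v) (Θ : I × I → X)
    (hΘ : Continuous Θ) (h0 : ∀ t, Θ (0, t) = δ t) (h1 : ∀ t, Θ (1, t) = v)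
    (h2 : ∀ s, Θ (s, 0) = p s) (h3 : ∀ s, Θ (s, 1) = q s) : lp x₀ q * lp x₀ δ = lp x₀ p := by
  let A₁ : Path ((0, 0) : I × I) (0, 1) := ⟨⟨fun t => (0, t), by fun_prop⟩, rfl, rfl⟩
  let A₂ : Path ((0, 1) : I × I) (1, 1) := ⟨⟨fun t => (t, 1), by fun_prop⟩, rfl, rfl⟩
  let B₁ : Path ((0, 0) : I × I) (1, 0) := ⟨⟨fun t => (t, 0), by fun_prop⟩, rfl, rfl⟩
  let B₂ : Path ((1, 0) : I × I) (1, 1) := ⟨⟨fun t => (1, t), by fun_prop⟩, rfl, rfl⟩
  have e1 := lp_map_eq x₀ hΘ A₁ A₂ (B₁.trans B₂)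
  rw [Path.map_trans, lp_trans, lp_congr x₀ (A₁.map hΘ) δ h0, lp_congr x₀ (A₂.map hΘ) q h3,
    lp_congr x₀ (B₁.map hΘ) p h2, lp_congr x₀ (B₂.map hΘ) (Path.refl v) h1, lp_refl,
    one_mul] at e1
  exact e1

end General

/-- Convex combination in the pentachoron. -/
noncomputable def mix (s : I) (a b : Pent) : Pent :=
  ⟨fun j => (1 - s.1) * a.1 j + s.1 * b.1 j, fun j =>
    add_nonneg (mul_nonneg (sub_nonneg.2 s.2.2) (a.2.1 j)) (mul_nonneg s.2.1 (b.2.1 j)), by
      rw [Finset.sum_add_distrib, ← Finset.mul_sum, ← Finset.mul_sum, a.2.2, b.2.2]; ring⟩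

theorem continuous_mix : Continuous fun p : I × Pent × Pent => mix p.1 p.2.1 p.2.2 := by
  refine Continuous.subtype_mk (continuous_pi fun j => ?_) _
  have c1 : Continuous fun p : I × Pent × Pent => p.2.1.1 j :=
    (continuous_apply j).comp (continuous_subtype_val.comp (continuous_fst.comp continuous_snd))
  have c2 : Continuous fun p : I × Pent × Pent => p.2.2.1 j :=
    (continuous_apply j).comp (continuous_subtype_val.comp (continuous_snd.comp continuous_snd))
  have c3 : Continuous fun p : I × Pent × Pent => p.1.1 := continuous_subtype_val.comp continuous_fst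
  exact ((continuous_const.sub c3).mul c1).add (c3.mul c2)

theorem mix_zero (a b : Pent) : mix 0 a b = a := Subtype.ext (funext fun j => by simp [mix])

theorem mix_one (a b : Pent) : mix 1 a b = b := Subtype.ext (funext fun j => by simp [mix])

noncomputable def segP (a b : Pent) : Path a b :=
  ⟨⟨fun s => mix s a b, continuous_mix.comp (f := fun s : I => (s, a, b)) (continuous_id.prodMk continuous_const)⟩,
    mix_zero a b, mix_one a b⟩

instance : ContractibleSpace Pent :=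
  (convex_stdSimplex ℝ (Fin 5)).contractibleSpace ⟨_, (stdSimplex.vertex (0 : Fin 5)).2⟩

noncomputable def vtx (m : Fin 5) : Pent := stdSimplex.vertex m

theorem vtx_apply (m j : Fin 5) : (vtx m).1 j = if j = m then 1 else 0 := by
  simp [vtx, stdSimplex.vertex, Pi.single_apply]

theorem vtx_perm (g : Equiv.Perm (Fin 5)) (m j : Fin 5) : (vtx (g m)).1 (g j) = (vtx m).1 j := by
  simp [vtx_apply]

namespace Gluing

variable {n : ℕ} (T : Gluing n)

theorem supp_vtx (m : Fin 5) : supp (vtx m) ⊆ {m} := fun j hj => by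
  by_contra h
  exact hj (by rw [vtx_apply, if_neg (show ¬ j = m from h)])

theorem supp_mix (s : I) (a b : Pent) : supp (mix s a b) ⊆ supp a ∪ supp b := fun j hj => by
  by_contra h
  simp only [supp, mem_union, mem_ofPred_eq, not_or, not_not] at h
  exact hj (by simp [mix, h.1, h.2])

noncomputable def seg (P : Fin n) (a b : Pent) : Path (T.cell P a) (T.cell P b) :=
  (segP a b).map (T.continuous_cell P)

theorem pathConnected (x₀ : T.Space) (h : ∀ P, ∃ m, T.cell P (vtx m) = x₀) :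
    PathConnectedSpace T.Space := by
  have key : ∀ x, Joined x x₀ := fun x => by
    obtain ⟨P, a, rfl⟩ := T.exists_cell x
    obtain ⟨m, hm⟩ := h P
    exact hm ▸ ⟨T.seg P a (vtx m)⟩
  exact ⟨⟨x₀⟩, fun x y => (key x).trans (key y).symm⟩

variable {T} in
theorem Conn.mix_eq {P Q : Fin n} {S : Set (Fin 5)} {g : Equiv.Perm (Fin 5)}
    (h : T.Conn P S Q g) {a b a' b' : Pent} (ha : supp a ⊆ S) (hb : supp b ⊆ S)
    (ha' : ∀ j, a'.1 (g j) = a.1 j) (hb' : ∀ j, b'.1 (g j) = b.1 j) (s : I) :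
    T.cell P (mix s a b) = T.cell Q (mix s a' b') :=
  h.exists_eq _ ((supp_mix s a b).trans (union_subset ha hb)) _ fun j => by
    simp only [mix, ha', hb']

/-- Every group valued 1-cocycle on the edges is a coboundary. -/
def SC : Prop :=
  ∀ (G : Type) [Group G] (g : Fin n → Fin 5 → Fin 5 → G),
    (∀ P a b c, g P b c * g P a b = g P a c) →
    (∀ P i a b, a ≠ i → b ≠ i → g (T.nbr P i) (T.perm P i a) (T.perm P i b) = g P a b) →
    ∃ h : Fin n → Fin 5 → G, (∀ P i a, a ≠ i → h (T.nbr P i) (T.perm P i a) = h P a) ∧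
      ∀ P a b, g P a b * h P a = h P b

variable {T} in
theorem Conn.inv_eq {α : Type} {h : Fin n → Fin 5 → α}
    (hh : ∀ P i a, a ≠ i → h (T.nbr P i) (T.perm P i a) = h P a) {P Q : Fin n} {S : Set (Fin 5)}
    {g : Equiv.Perm (Fin 5)} (hc : T.Conn P S Q g) {m : Fin 5} (hm : m ∈ S) :
    h Q (g m) = h P m := by
  induction hc with
  | refl => rfl
  | step i _ hi ih => exact (hh _ i _ (hi m hm)).trans ih

theorem exists_contraction (hT : T.Valid) (P₀ : Fin n) (S₀ : Set (Fin 5)) (m₀ : Fin 5)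
    (hm₀ : m₀ ∈ S₀) (τ : ℝ) (hτ : 0 ≤ τ) : ∃ K : I × T.Space → T.Space,
      ContinuousOn K (univ ×ˢ T.N P₀ S₀ S₀ τ τ) ∧ ∀ P a, T.cell P a ∈ T.N P₀ S₀ S₀ τ τ → ∀ s,
        K (s, T.cell P a) = T.cell P (mix s a (vtx (T.tr P₀ S₀ P (big τ a.1) m₀))) := by
  let K : I × T.Space → T.Space := fun p => T.cell (Quot.out p.2).1 (mix p.1 (Quot.out p.2).2
    (vtx (T.tr P₀ S₀ (Quot.out p.2).1 (big τ (Quot.out p.2).2.1) m₀)))
  have hK : ∀ P a, T.cell P a ∈ T.N P₀ S₀ S₀ τ τ → ∀ s,
      K (s, T.cell P a) = T.cell P (mix s a (vtx (T.tr P₀ S₀ P (big τ a.1) m₀))) := by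
    intro P a ha s
    have e : T.cell P a = T.cell (Quot.out (T.cell P a)).1 (Quot.out (T.cell P a)).2 :=
      (Quot.out_eq _).symm
    obtain ⟨k, hk1, hk⟩ := cell_eq_iff.1 e
    obtain ⟨-, -, g, g1, g2, -⟩ := (mem_N hτ).1 ha
    have hm : g m₀ ∈ supp a := big_subset_supp hτ a (g2 ▸ ⟨m₀, hm₀, rfl⟩)
    show T.cell _ _ = _
    rw [tr_eq hT g1 g2 m₀ hm₀, tr_eq hT (g := k * g)
      (g1.trans (hk1.mono (g2 ▸ big_subset_supp hτ a)))
      (by rw [Equiv.Perm.coe_mul, image_comp, g2, image_big hk]) m₀ hm₀]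
    exact (hk1.mix_eq subset_rfl ((supp_vtx _).trans (singleton_subset_iff.2 hm)) hk
      (vtx_perm k _) s).symm
  refine ⟨K, ?_, hK⟩
  have hq : IsQuotientMap (Prod.map (id : I → I) T.pr) :=
    (isProperMap_id.prodMap T.isProperMap_pr).isClosedMap.isQuotientMap
      (continuous_id.prodMap T.continuous_pr)
      (Function.surjective_id.prodMap T.isQuotientMap_pr.surjective)
  have hopen := T.isOpen_N P₀ S₀ S₀ τ hτ
  rw [hq.continuousOn_isOpen_iff (isOpen_univ.prod hopen)]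
  rintro ⟨s, P, a⟩ ⟨-, ha⟩
  refine ContinuousAt.continuousWithinAt ?_
  have h3 : Continuous (fun p : I × Fin n × Pent =>
      T.cell P (mix p.1 p.2.2 (vtx (T.tr P₀ S₀ P (big τ a.1) m₀)))) :=
    (T.continuous_cell P).comp (continuous_mix.comp (continuous_fst.prodMk
      ((continuous_snd.comp continuous_snd).prodMk continuous_const)))
  refine h3.continuousAt.congr ?_
  have e1 : ∀ᶠ p : I × Fin n × Pent in 𝓝 (s, P, a), p.2.1 = P :=
    (continuous_fst.comp continuous_snd).continuousAt.eventually (p := fun Q => Q = P) (by simp)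
  have e2 : ∀ᶠ p : I × Fin n × Pent in 𝓝 (s, P, a), T.pr p.2 ∈ T.N P₀ S₀ S₀ τ τ :=
    (T.continuous_pr.comp continuous_snd).continuousAt.eventually (hopen.mem_nhds ha)
  have e3 : ∀ᶠ p : I × Fin n × Pent in 𝓝 (s, P, a), Gen τ p.2.2.1 ∧ big τ p.2.2.1 = big τ a.1 :=
    (show Continuous (fun p : I × Fin n × Pent => p.2.2.1) from
      continuous_subtype_val.comp (continuous_snd.comp continuous_snd)).continuousAt.eventually
      (p := fun b => Gen τ b ∧ big τ b = big τ a.1) ((mem_N hτ).1 ha).1.eventually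
  filter_upwards [e1, e2, e3]
  rintro ⟨s', Q, b⟩ h1 h2 h4
  dsimp only at h1 h2 h4
  subst h1
  rw [← h4.2]
  exact (hK Q b h2 s').symm

theorem simplyConnected (hT : T.Valid) (hS : T.SC) (x₀ : T.Space)
    (hc : ∀ P, ∃ m, T.cell P (vtx m) = x₀) : SimplyConnectedSpace T.Space := by
  have := T.pathConnected x₀ hc
  have hseg : ∀ P a b c, lp x₀ (T.seg P b c) * lp x₀ (T.seg P a b) = lp x₀ (T.seg P a c) :=
    fun P a b c => lp_map_eq x₀ (T.continuous_cell P) _ _ _
  obtain ⟨h, hh1, hh2⟩ := hS _ (fun P a b => lp x₀ (T.seg P (vtx a) (vtx b)))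
    (fun P a b c => hseg P _ _ _) (fun P i a b ha hb => lp_congr x₀ _ _ fun s =>
      ((Conn.single P {a, b} i (by simp [ha.symm, hb.symm])).mix_eq
        ((supp_vtx a).trans (by simp)) ((supp_vtx b).trans (by simp)) (vtx_perm _ a)
        (vtx_perm _ b) s).symm)
  choose mx hmx using exists_big
  let H : T.Space → End (FundamentalGroupoid.mk x₀) := fun x =>
    lp x₀ (T.seg (Quot.out x).1 (vtx (mx (Quot.out x).2)) (Quot.out x).2) *
      h (Quot.out x).1 (mx (Quot.out x).2)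
  have hH : ∀ P a m, lp x₀ (T.seg P a (vtx m)) * H (T.cell P a) = h P m := by
    intro P a m
    have e : T.cell P a = T.cell (Quot.out (T.cell P a)).1 (Quot.out (T.cell P a)).2 :=
      (Quot.out_eq _).symm
    obtain ⟨k, hk1, hk⟩ := cell_eq_iff.1 e
    obtain ⟨m', hm'⟩ := k.surjective (mx (Quot.out (T.cell P a)).2)
    have hs : m' ∈ supp a := by
      have := hmx (Quot.out (T.cell P a)).2
      rw [← hm', hk] at this
      exact (lt_of_lt_of_le (by norm_num) this).ne'
    show _ * (_ * _) = _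
    rw [← hm', hk1.inv_eq hh1 hs, lp_congr x₀ (T.seg _ (vtx (k m')) _) (T.seg P (vtx m') a)
      (fun s => (hk1.mix_eq ((supp_vtx _).trans (singleton_subset_iff.2 hs)) subset_rfl
        (vtx_perm k _) hk s).symm), ← mul_assoc, hseg]
    exact hh2 P m' m
  refine simplyConnected_of_local x₀ H fun x => ?_
  obtain ⟨P₀, a₀, rfl⟩ := T.exists_cell x
  obtain ⟨τ, h1, h2, h3⟩ := exists_gen a₀.1
  have hm₀ : mx a₀ ∈ big τ a₀.1 := h2.trans_le (hmx a₀)
  obtain ⟨K, hK1, hK2⟩ := T.exists_contraction hT P₀ (big τ a₀.1) (mx a₀) hm₀ τ h1.le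
  refine ⟨_, T.isOpen_N P₀ (big τ a₀.1) (big τ a₀.1) τ h1.le, mem_N_self h3 h3,
    fun y z δ hδ => ?_⟩
  have hend : ∀ P a, T.cell P a ∈ T.N P₀ (big τ a₀.1) (big τ a₀.1) τ τ →
      T.cell P (vtx (T.tr P₀ (big τ a₀.1) P (big τ a.1) (mx a₀))) = T.cell P₀ (vtx (mx a₀)) ∧
      h P (T.tr P₀ (big τ a₀.1) P (big τ a.1) (mx a₀)) = h P₀ (mx a₀) := fun P a ha => by
    obtain ⟨-, -, g, g1, g2, -⟩ := (mem_N h1.le).1 ha
    rw [tr_eq hT g1 g2 _ hm₀]
    exact ⟨(g1.exists_eq _ ((supp_vtx _).trans (singleton_subset_iff.2 hm₀)) _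
      (vtx_perm g _)).symm, g1.inv_eq hh1 hm₀⟩
  obtain ⟨P, a, rfl⟩ := T.exists_cell y
  obtain ⟨Q, b, rfl⟩ := T.exists_cell z
  have ha : T.cell P a ∈ T.N P₀ (big τ a₀.1) (big τ a₀.1) τ τ := δ.source ▸ hδ 0
  have hb : T.cell Q b ∈ T.N P₀ (big τ a₀.1) (big τ a₀.1) τ τ := δ.target ▸ hδ 1
  have sq := lp_square x₀ δ ((T.seg P a (vtx _)).cast rfl (hend P a ha).1.symm)
    ((T.seg Q b (vtx _)).cast rfl (hend Q b hb).1.symm) (fun p => K (p.1, δ p.2))
    (hK1.comp_continuous (continuous_fst.prodMk (δ.continuous.comp continuous_snd))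
      fun p => ⟨trivial, hδ p.2⟩) (fun t => ?_) (fun t => ?_) (fun s => ?_) (fun s => ?_)
  · rw [lp_congr x₀ (Path.cast _ _ _) (T.seg Q b (vtx _)) (fun _ => rfl),
      lp_congr x₀ (Path.cast _ _ _) (T.seg P a (vtx _)) (fun _ => rfl)] at sq
    have e1 := hH P a (T.tr P₀ (big τ a₀.1) P (big τ a.1) (mx a₀))
    have e2 := hH Q b (T.tr P₀ (big τ a₀.1) Q (big τ b.1) (mx a₀))
    rw [← sq, (hend P a ha).2, mul_assoc] at e1
    rw [(hend Q b hb).2, ← e1] at e2
    exact (mul_left_cancel e2).symm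
  · obtain ⟨R, c, e⟩ := T.exists_cell (δ t)
    have hc := hδ t
    dsimp only
    rw [← e] at hc ⊢
    rw [hK2 R c hc, mix_zero]
  · obtain ⟨R, c, e⟩ := T.exists_cell (δ t)
    have hc := hδ t
    dsimp only
    rw [← e] at hc ⊢
    rw [hK2 R c hc, mix_one, (hend R c hc).1]
  · dsimp only
    rw [δ.source, hK2 P a ha]; rfl
  · dsimp only
    rw [δ.target, hK2 Q b hb]; rfl

end Gluing

end Pool.Agent.Lib.MP_42180a_gt
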