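import Pool.Agent.Lib.MP_42180a_gt.Big0
import Pool.Agent.Lib.MP_42180a_gt.Leaf
import Pool.Agent.Lib.MP_42180a_gt.Chart
import Pool.Agent.Lib.MP_42180a_gt.Pi1
import Pool.Agent.Lib.MP_42180a_gt.Cocycle

/-! The triangulation with 32 pentachora and its combinatorial properties. -/

namespace Pool.Agent.Lib.MP_42180a_gt

open Set

def f32 (k : ℕ) : Fin 32 := ⟨Nat.mod k 32, Nat.mod_lt k (by decide)⟩

def gw (P : Fin 32) (i : Fin 5) : ℕ := fld gtab (40 * (5 * P.val + i.val)) 40

def nbr0 (P : Fin 32) (i : Fin 5) : Fin 32 := f32 (gw P i)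

def pf (P : Fin 32) (i j : Fin 5) : Fin 5 := f5 (fld (gw P i) (5 + 3 * j.val) 3)

def pg (P : Fin 32) (i j : Fin 5) : Fin 5 := f5 (fld (gw P i) (20 + 3 * j.val) 3)

theorem pg_pf : ∀ P i j, pg P i (pf P i j) = j ∧ pf P i (pg P i j) = j := by decide +kernel

def perm0 (P : Fin 32) (i : Fin 5) : Equiv.Perm (Fin 5) :=
  ⟨pf P i, pg P i, fun j => (pg_pf P i j).1, fun j => (pg_pf P i j).2⟩

theorem glue_chk : ∀ P i, nbr0 (nbr0 P i) (pf P i i) = P ∧
    (∀ j, pf (nbr0 P i) (pf P i i) j = pg P i j) ∧ (nbr0 P i, pf P i i) ≠ (P, i) := by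
  decide +kernel

/-- The triangulation. -/
def T0 : Gluing 32 :=
  ⟨nbr0, perm0, fun P i => (glue_chk P i).1, fun P i => Equiv.ext (glue_chk P i).2.1,
    fun P i => (glue_chk P i).2.2⟩

/-! ### Validity -/

theorem Gluing.valid_of_lab {n : ℕ} (T : Gluing n) (lab : Fin n → (Fin 5 → Bool) → Fin 5 → ℕ)
    (h1 : ∀ P i (S : Fin 5 → Bool) m, S i = false → S m = true →
      lab (T.nbr P i) (fun j => S ((T.perm P i)⁻¹ j)) (T.perm P i m) = lab P S m)
    (h2 : ∀ P (S : Fin 5 → Bool) m m', S m = true → S m' = true → lab P S m = lab P S m' →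
      m = m') : T.Valid := by
  classical
  intro P S g hc hS m hm
  have key : ∀ Q g, T.Conn P S Q g →
      lab Q (fun j => decide (g⁻¹ j ∈ S)) (g m) = lab P (fun j => decide (j ∈ S)) m := by
    intro Q g h
    induction h with
    | refl => rfl
    | @step Q g i _ hi ih =>
      rw [← ih, ← h1 Q i (fun j => decide (g⁻¹ j ∈ S)) (g m)
        (by simpa using fun h => hi _ h (by simp)) (by simpa using hm)]
      rfl
  have e : (fun j => decide (g⁻¹ j ∈ S)) = fun j => decide (j ∈ S) := funext fun j => by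
    rw [decide_eq_decide]
    conv_rhs => rw [← hS]
    exact ⟨fun h => ⟨_, h, by simp⟩, by rintro ⟨k, hk, rfl⟩; simpa using hk⟩
  have := key P g hc
  rw [e] at this
  exact h2 P _ _ _ (by simpa using (hS ▸ ⟨m, hm, rfl⟩ : g m ∈ S)) (by simpa using hm) this

def scode (S : Fin 5 → Bool) : ℕ :=
  cond (S ⟨0, by decide⟩) 1 0 + cond (S ⟨1, by decide⟩) 2 0 + cond (S ⟨2, by decide⟩) 4 0 +
    cond (S ⟨3, by decide⟩) 8 0 + cond (S ⟨4, by decide⟩) 16 0

def sdec (c : Fin 32) (j : Fin 5) : Bool := bit c.val j.val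

theorem exists_sdec (S : Fin 5 → Bool) : ∃ c : Fin 32, S = sdec c := by
  revert S; decide +kernel

def lab0 (P : Fin 32) (c : ℕ) (m : Fin 5) : ℕ := fld ltab (3 * ((32 * P.val + c) * 5 + m.val)) 3

def labB (P : Fin 32) (c : Fin 32) : Bool :=
  all5 (fun i => sdec c i || force (scode (fun j => sdec c (pg P i j))) fun c' =>
    all5 (fun m => !sdec c m || Nat.beq (lab0 (nbr0 P i) c' (pf P i m)) (lab0 P (scode (sdec c)) m))) &&
  all5 (fun m => all5 (fun m' => !sdec c m || !sdec c m' || feq m m' ||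
    !Nat.beq (lab0 P (scode (sdec c)) m) (lab0 P (scode (sdec c)) m')))

theorem lab_chk : ∀ P c, labB P c = true := by decide +kernel

theorem T0_valid : T0.Valid := by
  refine T0.valid_of_lab (fun P S m => lab0 P (scode S) m) (fun P i S m h1 h2 => ?_)
    (fun P S m m' h1 h2 h3 => ?_)
  · obtain ⟨c, rfl⟩ := exists_sdec S
    have := lab_chk P c
    simp only [labB, Bool.and_eq_true, all5_iff, Bool.or_eq_true, force_eq, Nat.beq_eq] at this
    rcases this.1 i with h | h
    · rw [h1] at h; cases h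
    · rcases h m with h | h
      · rw [h2] at h; cases h
      · exact h
  · obtain ⟨c, rfl⟩ := exists_sdec S
    have := lab_chk P c
    simp only [labB, Bool.and_eq_true, all5_iff, Bool.or_eq_true, feq_iff] at this
    rcases this.2 m m' with ((h | h) | h) | h
    · rw [h1] at h; cases h
    · rw [h2] at h; cases h
    · exact h
    · rw [h3] at h; simp at h

/-! ### Vertex links -/

def cone (P : Fin 32) (m : Fin 5) : Bool := bit coneMask (code P m)

theorem link_chk : ∀ (P : Fin 32) (m : Fin 5), muW (wd dall (code P m)) = m ∧ ∀ i, i ≠ m →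
    nbW (wd dall (code P m)) i = code (nbr0 P i) (pf P i m) ∧ cone (nbr0 P i) (pf P i m) = cone P m ∧
    (cone P m = true → nbr0 P i = P ∧ pf P i m = m ∧ cone P i = false) ∧
    ∀ j, gW (wd dall (code P m)) i j = pf P i j := by decide +kernel

theorem isLink_of (vc : Fin 32 → Fin 5 → Prop) (mask : ℕ) (h0 : Nat.shiftRight mask 160 = 0)
    (h1 : ∀ P m, bit mask (code P m) = true ↔ vc P m)
    (h2 : ∀ P i m, m ≠ i → vc P m → vc (nbr0 P i) (pf P i m)) :
    T0.IsLink vc (dataB mask dall).toCx := by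
  refine ⟨h2, fun t => ⟨fun ht => ?_, ?_⟩, fun P m _ => (link_chk P m).1,
    fun P m i _ hi => ((link_chk P m).2 i hi).1,
    fun P m i j _ hi => ((link_chk P m).2 i hi).2.2.2 j⟩
  · have hlt : t < 160 := lt_of_bit ht h0
    have e : t = code (⟨t / 5, by omega⟩ : Fin 32) ⟨t % 5, by omega⟩ := by
      simp only [code]; omega
    exact ⟨_, _, e, (h1 _ _).1 (e ▸ ht)⟩
  · rintro ⟨P, m, rfl, hv⟩
    exact (h1 P m).2 hv

theorem bit_pow (s t : ℕ) : bit (Nat.shiftLeft 1 s) t = true ↔ t = s := by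
  have : bit (Nat.shiftLeft 1 s) t = Nat.testBit (2 ^ s) t := by
    have e : Nat.shiftLeft 1 s = 2 ^ s := by
      show 1 <<< s = _
      rw [Nat.one_shiftLeft]
    rw [e, Nat.testBit_eq_decide_div_mod_eq, bit, Bool.eq_iff_iff, Nat.beq_eq, decide_eq_true_eq]
    show (2 ^ s >>> t) % 2 = 1 ↔ _
    rw [Nat.shiftRight_eq_div_pow]
  rw [this, Nat.testBit_two_pow, decide_eq_true_eq, eq_comm]

theorem central_chk : ∀ (P : Fin 32) (m : Fin 5),
    bit 1277381022667889913978391984094476530404741281791 (code P m) = !cone P m := by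
  decide +kernel

theorem T0_links (P : Fin 32) (m : Fin 5) :
    ∃ (vc : Fin 32 → Fin 5 → Prop) (L : Cx), vc P m ∧ T0.IsLink vc L ∧ L.Good := by
  cases h : cone P m
  · exact ⟨fun P m => cone P m = false, _, h, isLink_of _ _ (by decide +kernel)
      (fun P m => by simp [central_chk])
      (fun P i m hi hv => ((link_chk P m).2 i hi.symm).2.1.trans hv), big0_good⟩
  · have hlt : code P m < 160 := by unfold code; omega
    refine ⟨fun Q k => Q = P ∧ k = m, _, ⟨rfl, rfl⟩, isLink_of _ _ ?_ (fun Q k => ?_) ?_,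
      leaf_good hlt h⟩
    · show (1 <<< code P m) >>> 160 = 0
      rw [Nat.one_shiftLeft, Nat.shiftRight_eq_div_pow]
      exact Nat.div_eq_of_lt (Nat.pow_lt_pow_right (by norm_num) hlt)
    · rw [bit_pow]
      exact ⟨code_inj, by rintro ⟨rfl, rfl⟩; rfl⟩
    · rintro Q i k hi ⟨rfl, rfl⟩
      have := ((link_chk Q k).2 i hi.symm).2.2.1 h
      exact ⟨this.1, this.2.1⟩

/-! ### The loop edge -/

def ew (P : Fin 32) (a b : Fin 5) : ℕ := fld etab (13 * (25 * P.val + 5 * a.val + b.val)) 13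

def rk (P : Fin 32) (a b : Fin 5) : ℕ := fld (ew P a b) 0 9

def via (P : Fin 32) (a b : Fin 5) : Fin 5 := f5 (fld (ew P a b) 9 3)

def pos (P : Fin 32) (a b : Fin 5) : Bool := bit (ew P a b) 12

theorem edge_chk : ∀ (P : Fin 32) (a b : Fin 5), a ≠ b → cone P a = false → cone P b = false →
    (P = 0 ∧ a = 0 ∧ b = 1 ∧ pos P a b = true) ∨ (P = 0 ∧ a = 1 ∧ b = 0 ∧ pos P a b = false) ∨
    (a ≠ via P a b ∧ b ≠ via P a b ∧
      pos (nbr0 P (via P a b)) (pf P (via P a b) a) (pf P (via P a b) b) = pos P a b ∧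
      rk (nbr0 P (via P a b)) (pf P (via P a b) a) (pf P (via P a b) b) < rk P a b) := by
  decide +kernel

theorem root_eq {α : Type} (Θ : Fin 32 → Fin 5 → Fin 5 → α)
    (h : ∀ P i a b, a ≠ i → b ≠ i → Θ (T0.nbr P i) (T0.perm P i a) (T0.perm P i b) = Θ P a b)
    (P : Fin 32) (a b : Fin 5) (hab : a ≠ b) (ha : cone P a = false) (hb : cone P b = false) :
    Θ P a b = cond (pos P a b) (Θ 0 0 1) (Θ 0 1 0) := by
  induction hr : rk P a b using Nat.strong_induction_on generalizing P a b with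
  | _ r ih =>
    rcases edge_chk P a b hab ha hb with ⟨rfl, rfl, rfl, e⟩ | ⟨rfl, rfl, rfl, e⟩ | ⟨h1, h2, h3, h4⟩
    · rw [e]; rfl
    · rw [e]; rfl
    · rw [← h P _ a b h1 h2, ← h3]
      exact ih _ (hr ▸ h4) _ _ _ (fun e => hab ((T0.perm P _).injective e))
        (((link_chk P a).2 _ h1.symm).2.1.trans ha) (((link_chk P b).2 _ h2.symm).2.1.trans hb) rfl

theorem base_chk : cone 0 0 = false ∧ cone 0 1 = false ∧ cone 0 2 = false ∧ pos 0 0 2 = true ∧
    pos 0 1 2 = true := by decide +kernel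

theorem T0_SC : T0.SC := by
  intro G _ g h1 h2
  have haa : ∀ P a, g P a a = 1 := fun P a =>
    mul_left_cancel (a := g P a a) (by rw [mul_one]; exact h1 P a a a)
  have e1 : g 0 0 1 = 1 := by
    have a1 := root_eq g h2 0 0 2 (by decide) base_chk.1 base_chk.2.2.1
    have a2 := root_eq g h2 0 1 2 (by decide) base_chk.2.1 base_chk.2.2.1
    rw [base_chk.2.2.2.1] at a1
    rw [base_chk.2.2.2.2] at a2
    have := h1 0 0 1 2
    rw [a1, a2] at this
    exact mul_left_cancel (a := g 0 0 1) (by rw [mul_one]; exact this)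
  have e2 : g 0 1 0 = 1 := by
    have := h1 0 0 1 0
    rwa [e1, mul_one, haa] at this
  have hcc : ∀ P a b, cone P a = false → cone P b = false → g P a b = 1 := fun P a b ha hb => by
    by_cases hab : a = b
    · rw [hab, haa]
    · rw [root_eq g h2 P a b hab ha hb, e1, e2, Bool.cond_self]
  have hnext : ∀ P a, cone P a = true → cone P (a + 1) = false := fun P a ha =>
    (((link_chk P a).2 (a + 1) (by simp)).2.2.1 ha).2.2
  refine ⟨fun P a => cond (cone P a) (g P (a + 1) a) 1, fun P i a hi => ?_, fun P a b => ?_⟩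
  · have := (link_chk P a).2 i hi.symm
    show cond (cone (nbr0 P i) (pf P i a)) (g (nbr0 P i) (pf P i a + 1) (pf P i a)) 1 =
      cond (cone P a) (g P (a + 1) a) 1
    rw [this.2.1]
    cases ha : cone P a
    · rfl
    · rw [(this.2.2.1 ha).1, (this.2.2.1 ha).2.1]
  · show g P a b * cond (cone P a) (g P (a + 1) a) 1 = cond (cone P b) (g P (b + 1) b) 1
    cases ha : cone P a <;> cases hb : cone P b <;> simp only [cond_true, cond_false, mul_one]
    · exact hcc P a b ha hb
    · rw [← h1 P (b + 1) a b, hcc P (b + 1) a (hnext P b hb) ha, mul_one]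
    · rw [h1, hcc P _ _ (hnext P a ha) hb]
    · by_cases hab : b = a
      · rw [hab, haa, one_mul]
      · have := (((link_chk P a).2 b hab).2.2.1 ha).2.2
        rw [hb] at this; cases this

theorem two_central : ∀ P : Fin 32, ∃ a b, a ≠ b ∧ cone P a = false ∧ cone P b = false := by
  decide +kernel

theorem T0_vertex (P : Fin 32) : ∃ m, T0.cell P (vtx m) = T0.cell 0 (vtx 0) := by
  have h : ∀ P i a b, a ≠ i → b ≠ i → (fun P a (_ : Fin 5) => T0.cell P (vtx a)) (T0.nbr P i)
      (T0.perm P i a) (T0.perm P i b) = (fun P a (_ : Fin 5) => T0.cell P (vtx a)) P a b :=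
    fun P i a _ ha _ => ((Gluing.Conn.single P {a} i (by simpa using ha.symm)).exists_eq _
      (Gluing.supp_vtx a) _ (vtx_perm _ a)).symm
  have a2 := root_eq (fun P a (_ : Fin 5) => T0.cell P (vtx a)) h 0 1 2 (by decide) base_chk.2.1
    base_chk.2.2.1
  rw [base_chk.2.2.2.2] at a2
  obtain ⟨a, b, hab, ha, hb⟩ := two_central P
  refine ⟨a, (root_eq (fun P a (_ : Fin 5) => T0.cell P (vtx a)) h P a b hab ha hb).trans ?_⟩
  cases pos P a b
  · exact a2
  · rfl

/-! ### Cocycles and cycles -/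

def tc (P : Fin 32) (a b d : Fin 5) : ℕ :=
  fld ttab (8 * (125 * P.val + 25 * a.val + 5 * b.val + d.val)) 8

def ww (c : ℕ) : ℕ := fld wtab (128 * c) 128

def dg (w : ℕ) (i : ℕ) : ℕ := Nat.mod (Nat.shiftRight w (Nat.mul 8 i)) 256

def coc0 (i : Fin 16) (P : Fin 32) (a b d : Fin 5) : ℤ := (dg (ww (tc P a b d)) i.val : ℤ) - 16

theorem tc_chk : ∀ (P : Fin 32) (i : Fin 5), all5 (fun a => feq a i || all5 (fun b => feq b i ||
    all5 (fun d => feq d i || Nat.beq (tc (nbr0 P i) (pf P i a) (pf P i b) (pf P i d))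
      (tc P a b d)))) = true := by decide +kernel

theorem tc_deg : ∀ (P : Fin 32) (a b : Fin 5), tc P a a b = 0 ∧ tc P a b a = 0 ∧ tc P b a a = 0 := by
  decide +kernel

theorem ww_zero : ∀ i : Fin 16, dg (ww 0) i.val = 16 := by decide +kernel

def cocB (P : Fin 32) : Bool :=
  all5 fun a => all5 fun b => all5 fun d => all5 fun e =>
    force (ww (tc P b d e)) fun w1 => force (ww (tc P a d e)) fun w2 =>
    force (ww (tc P a b e)) fun w3 => force (ww (tc P a b d)) fun w4 =>
    allBelow (fun i => Nat.beq (Nat.add (dg w1 i) (dg w3 i)) (Nat.add (dg w2 i) (dg w4 i))) 16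

theorem coc_chk : ∀ P, cocB P = true := by decide +kernel

theorem coc0_isCoc (i : Fin 16) : T0.IsCoc (coc0 i) := by
  refine ⟨fun P j a b d ha hb hd => ?_, fun P a b d e => ?_, fun P a b => ?_⟩
  · have := tc_chk P j
    simp only [all5_iff, Bool.or_eq_true, feq_iff, Nat.beq_eq] at this
    have h := (((this a).resolve_left ha b).resolve_left hb d).resolve_left hd
    exact congrArg (fun c => (dg (ww c) i.val : ℤ) - 16) h
  · have := coc_chk P
    simp only [cocB, all5_iff, force_eq, allBelow_iff, Nat.beq_eq, Nat.add_eq] at this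
    have h := this a b d e i.val i.2
    unfold coc0
    omega
  · obtain ⟨h1, h2, h3⟩ := tc_deg P a b
    simp [coc0, h1, h2, h3, ww_zero i]

def zP (j : Fin 16) : Fin 32 := f32 (fld ztab (14 * j.val) 5)

def zm (j : Fin 16) (l : Fin 3) : Fin 5 := f5 (fld ztab (14 * j.val + 5 + 3 * l.val) 3)

theorem z_chk : ∀ (j : Fin 16) (i : Fin 3), zm j (i.succAbove 0) ≠ zm j (i.succAbove 1) ∧
    cone (zP j) (zm j (i.succAbove 0)) = false ∧ cone (zP j) (zm j (i.succAbove 1)) = false ∧
    pos (zP j) (zm j (i.succAbove 0)) (zm j (i.succAbove 1)) = true := by decide +kernel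

def m0 (l : Fin 3) : Fin 5 := f5 l.val

theorem z0_chk : ∀ (i : Fin 3), m0 (i.succAbove 0) ≠ m0 (i.succAbove 1) ∧
    cone 0 (m0 (i.succAbove 0)) = false ∧ cone 0 (m0 (i.succAbove 1)) = false ∧
    pos 0 (m0 (i.succAbove 0)) (m0 (i.succAbove 1)) = true := by decide +kernel

theorem dual_chk : ∀ i j : Fin 16, coc0 i (zP j) (zm j 0) (zm j 1) (zm j 2) -
    coc0 i 0 (m0 0) (m0 1) (m0 2) = if i = j then 1 else 0 := by decide +kernel

theorem T0_betti : (16 : Cardinal) ≤ betti2 T0.Space := by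
  have h : ∀ P i a b, a ≠ i → b ≠ i → (fun P a b => T0.tri (k := 1) P ![a, b]) (T0.nbr P i)
      (T0.perm P i a) (T0.perm P i b) = (fun P a b => T0.tri (k := 1) P ![a, b]) P a b :=
    fun P i a b ha hb => by
      have := Gluing.tri_inv (T := T0) (k := 1) P i ![a, b] (fun l => by fin_cases l <;> simpa)
      dsimp only
      rw [← this]
      congr 1
      funext l; fin_cases l <;> rfl
  have h2 : ∀ f : Fin 2 → Fin 5, f = ![f 0, f 1] := fun f => by
    funext l; fin_cases l <;> rfl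
  have := Gluing.le_betti2_of_coc T0_valid coc0 coc0_isCoc zP zm 0 m0 (fun j i => ?_) dual_chk
  · exact_mod_cast this
  · obtain ⟨a1, a2, a3, a4⟩ := z_chk j i
    obtain ⟨b1, b2, b3, b4⟩ := z0_chk i
    have e1 := root_eq (fun P a b => T0.tri (k := 1) P ![a, b]) h _ _ _ a1 a2 a3
    have e2 := root_eq (fun P a b => T0.tri (k := 1) P ![a, b]) h _ _ _ b1 b2 b3
    rw [a4] at e1
    rw [b4] at e2
    rw [h2 (fun l => zm j (i.succAbove l)), h2 (fun l => m0 (i.succAbove l))]
    exact e1.trans e2.symm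

end Pool.Agent.Lib.MP_42180a_gt
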