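import Mathlib

/-!
Definitions for generalised triangulations of closed PL 4-manifolds.
-/

namespace Pool.Agent.Lib.MP_42180a_gt

open Topology

/-- A convex polyhedron: a finite intersection of closed affine half-spaces. -/
def IsPolyhedron {E : Type} [AddCommGroup E] [Module ℝ E] (C : Set E) : Prop :=
  ∃ H : Finset (E →ᵃ[ℝ] ℝ), C = {x | ∀ h ∈ H, 0 ≤ h x}

/-- `f : D → F` is piecewise linear near `x`, where `D` sits in the real vector space `E` via `j`:
some neighbourhood `U` of `x` is covered by finitely many convex polyhedra of `E`, on each of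
which `f` agrees with an affine map `E → F`. -/
def PLAt {D E F : Type} [TopologicalSpace D] [AddCommGroup E] [Module ℝ E] [AddCommGroup F]
    [Module ℝ F] (j : D → E) (f : D → F) (x : D) : Prop :=
  ∃ U ∈ 𝓝 x, ∃ 𝒞 : Finset (Set E), (∀ y ∈ U, ∃ C ∈ 𝒞, j y ∈ C) ∧
    ∀ C ∈ 𝒞, IsPolyhedron C ∧ ∃ A : E →ᵃ[ℝ] F, ∀ y ∈ U, j y ∈ C → f y = A (j y)

/-- Euclidean 4-space. -/
abbrev E4 : Type := EuclideanSpace ℝ (Fin 4)

/-- The atlas of `M` is a PL atlas: every transition map is piecewise linear. -/
def IsPLManifold (M : Type) [TopologicalSpace M] [ChartedSpace E4 M] : Prop :=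
  ∀ e ∈ atlas E4 M, ∀ e' ∈ atlas E4 M, ∀ x ∈ (e.symm.trans e').source,
    PLAt (fun y : E4 => y) (e.symm.trans e') x

/-- The standard geometric 4-simplex (pentachoron), in barycentric coordinates. -/
abbrev Pent : Type := stdSimplex ℝ (Fin 5)

/-- A pairing of the `5 n` facets of `n` pentachora by affine bijections.  Facet `i` of
pentachoron `P` (the one opposite vertex `i`) is glued to facet `perm P i i` of pentachoron
`nbr P i`, vertex `j ≠ i` going to vertex `perm P i j`. -/
structure Gluing (n : ℕ) where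
  nbr : Fin n → Fin 5 → Fin n
  perm : Fin n → Fin 5 → Equiv.Perm (Fin 5)
  nbr_nbr : ∀ P i, nbr (nbr P i) (perm P i i) = P
  perm_nbr : ∀ P i, perm (nbr P i) (perm P i i) = (perm P i)⁻¹
  ne_self : ∀ P i, (nbr P i, perm P i i) ≠ (P, i)

/-- The identifications: a point of facet `i` of `P` is identified with its image. -/
def Gluing.Rel {n : ℕ} (T : Gluing n) (x y : Fin n × Pent) : Prop :=
  ∃ i : Fin 5, x.2.1 i = 0 ∧ y.1 = T.nbr x.1 i ∧ ∀ j, y.2.1 (T.perm x.1 i j) = x.2.1 j

/-- The quotient space of the disjoint union of the `n` pentachora. -/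
def Gluing.Space {n : ℕ} (T : Gluing n) : Type := Quot T.Rel

instance Gluing.instTop {n : ℕ} (T : Gluing n) : TopologicalSpace T.Space :=
  inferInstanceAs (TopologicalSpace (Quot T.Rel))

/-- The characteristic map of pentachoron `P`. -/
def Gluing.cell {n : ℕ} (T : Gluing n) (P : Fin n) (a : Pent) : T.Space := Quot.mk T.Rel (P, a)

/-- `T` is a generalised triangulation of `M`: there is a homeomorphism from the quotient space
onto `M` which, on each pentachoron and in each chart of `M`, is piecewise linear. -/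
def Gluing.Triangulates {n : ℕ} (T : Gluing n) (M : Type) [TopologicalSpace M]
    [ChartedSpace E4 M] : Prop :=
  ∃ Φ : T.Space ≃ₜ M, ∀ e ∈ atlas E4 M, ∀ (P : Fin n) (a : Pent), Φ (T.cell P a) ∈ e.source →
    PLAt (fun b : Pent => b.1) (fun b : Pent => e (Φ (T.cell P b))) a

/-- The second Betti number: the rank of the singular homology group `H₂(M; ℤ)`. -/
noncomputable def betti2 (M : Type) [TopologicalSpace M] : Cardinal :=
  Module.rank ℤ (((AlgebraicTopology.singularHomologyFunctor (ModuleCat ℤ) 2).obj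
    (ModuleCat.of ℤ ℤ)).obj (TopCat.of M))

end Pool.Agent.Lib.MP_42180a_gt
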