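import Pool.Agent.Lib.MP_42180a_gt.Defs

/-! Barycentric subdivision of singular cochains, and lower bounds for singular homology. -/

namespace Pool.Agent.Lib.MP_42180a_gt

open Topology Set

abbrev Dl (k : ℕ) : Type := stdSimplex ℝ (Fin (k + 1))

noncomputable def face {k : ℕ} (i : Fin (k + 2)) : C(Dl k, Dl (k + 1)) :=
  ⟨stdSimplex.map i.succAbove, stdSimplex.continuous_map _⟩

noncomputable def aff {k l : ℕ} (v : Fin (k + 1) → Dl l) : C(Dl k, Dl l) :=
  ⟨fun x => ⟨fun j => ∑ i, x.1 i * (v i).1 j,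
      fun j => Finset.sum_nonneg fun i _ => mul_nonneg (x.2.1 i) ((v i).2.1 j), by
        rw [Finset.sum_comm]
        simp only [← Finset.mul_sum, (v _).2.2, mul_one]
        exact x.2.2⟩,
    Continuous.subtype_mk (continuous_pi fun j => continuous_finsetSum _ fun i _ =>
      ((continuous_apply i).comp continuous_subtype_val).mul continuous_const) _⟩

theorem aff_apply {k l : ℕ} (v : Fin (k + 1) → Dl l) (x : Dl k) (j : Fin (l + 1)) :
    (aff v x).1 j = ∑ i, x.1 i * (v i).1 j := rfl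

noncomputable def vx {k : ℕ} (i : Fin (k + 1)) : Dl k := stdSimplex.vertex i

theorem vx_apply {k : ℕ} (i j : Fin (k + 1)) : (vx i).1 j = if j = i then 1 else 0 := by
  simp [vx, stdSimplex.vertex, Pi.single_apply]

theorem aff_vx {k l : ℕ} (v : Fin (k + 1) → Dl l) (i : Fin (k + 1)) : aff v (vx i) = v i :=
  Subtype.ext (funext fun j => by simp [aff_apply, vx_apply])

theorem aff_comp {k l m : ℕ} (u : Fin (l + 1) → Dl m) (v : Fin (k + 1) → Dl l) :
    (aff u).comp (aff v) = aff (fun i => aff u (v i)) := by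
  ext x j
  show ∑ i, (∑ a, x.1 a * (v a).1 i) * (u i).1 j = ∑ a, x.1 a * ∑ i, (v a).1 i * (u i).1 j
  simp only [Finset.sum_mul, Finset.mul_sum, mul_assoc]
  exact Finset.sum_comm

theorem face_eq {k : ℕ} (i : Fin (k + 2)) : face i = aff (fun l => vx (i.succAbove l)) := by
  ext x j
  show FunOnFinite.linearMap ℝ ℝ i.succAbove x.1 j = ∑ l, x.1 l * (vx (i.succAbove l)).1 j
  rw [FunOnFinite.linearMap_apply_apply, Finset.sum_filter]
  refine Finset.sum_congr rfl fun l _ => ?_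
  rw [vx_apply]
  by_cases h : i.succAbove l = j
  · simp [h]
  · simp [h, Ne.symm h]

theorem aff_face {k l : ℕ} (v : Fin (k + 2) → Dl l) (i : Fin (k + 2)) :
    (aff v).comp (face i) = aff (fun m => v (i.succAbove m)) := by
  rw [face_eq, aff_comp]; simp only [aff_vx]

theorem face_vx {k : ℕ} (i : Fin (k + 2)) (l : Fin (k + 1)) : face i (vx l) = vx (i.succAbove l) := by
  rw [face_eq, aff_vx]

noncomputable def bary {k : ℕ} (S : Finset (Fin (k + 1))) : Dl k :=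
  if h : S.Nonempty then ⟨fun j => if j ∈ S then (S.card : ℝ)⁻¹ else 0,
    fun j => by dsimp only; split_ifs <;> positivity, by
      rw [← Finset.sum_filter, Finset.filter_mem_eq_inter, Finset.univ_inter, Finset.sum_const,
        nsmul_eq_mul]
      exact mul_inv_cancel₀ (Nat.cast_ne_zero.2 h.card_pos.ne')⟩
  else vx 0

theorem bary_apply {k : ℕ} {S : Finset (Fin (k + 1))} (h : S.Nonempty) (j : Fin (k + 1)) :
    (bary S).1 j = if j ∈ S then (S.card : ℝ)⁻¹ else 0 := by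
  rw [bary, dif_pos h]

theorem bary_singleton {k : ℕ} (i : Fin (k + 1)) : bary {i} = vx i :=
  Subtype.ext (funext fun j => by simp [bary_apply, vx_apply])

theorem face_bary {k : ℕ} (i : Fin (k + 2)) {S : Finset (Fin (k + 1))} (h : S.Nonempty) :
    face i (bary S) = bary (S.map i.succAboveEmb) := by
  refine Subtype.ext (funext fun j => ?_)
  rw [face_eq, aff_apply, bary_apply (by simpa using h)]
  simp only [bary_apply h, vx_apply, Finset.card_map]
  by_cases hj : j ∈ S.map i.succAboveEmb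
  · obtain ⟨l, hl, rfl⟩ := Finset.mem_map.1 hj
    rw [if_pos hj, Finset.sum_eq_single l]
    · simp [hl]
    · intro b _ hb; simp [Ne.symm hb]
    · simp
  · rw [if_neg hj]
    refine Finset.sum_eq_zero fun l _ => ?_
    by_cases hl : l ∈ S
    · have : j ≠ i.succAbove l := fun e => hj (Finset.mem_map.2 ⟨l, hl, e.symm⟩)
      simp [this]
    · simp [hl]

theorem face_aff {k l : ℕ} (i : Fin (l + 2)) (v : Fin (k + 1) → Dl l) :
    (face i).comp (aff v) = aff (fun m => face i (v m)) := by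
  rw [face_eq, aff_comp]

/-- The taxicab distance. -/
def d1 {k : ℕ} (x y : Dl k) : ℝ := ∑ j, |x.1 j - y.1 j|

theorem d1_le_two {k : ℕ} (x y : Dl k) : d1 x y ≤ 2 := by
  have : d1 x y ≤ ∑ j, (x.1 j + y.1 j) := Finset.sum_le_sum fun j _ => by
    have := x.2.1 j; have := y.2.1 j
    rw [abs_le]; constructor <;> linarith
  rw [Finset.sum_add_distrib, x.2.2, y.2.2] at this
  linarith

theorem dist_le_d1 {k : ℕ} (x y : Dl k) : dist x y ≤ d1 x y := by
  rw [Subtype.dist_eq, d1, dist_pi_le_iff (Finset.sum_nonneg fun j _ => abs_nonneg _)]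
  intro j
  rw [Real.dist_eq]
  exact Finset.single_le_sum (f := fun j => |x.1 j - y.1 j|) (fun j _ => abs_nonneg _)
    (Finset.mem_univ j)

theorem d1_aff {k l : ℕ} (v : Fin (k + 1) → Dl l) (j₀ : Fin (l + 1))
    (h : ∀ i, 1 / 4 ≤ (v i).1 j₀) (x y : Dl k) : d1 (aff v x) (aff v y) ≤ 3 / 4 * d1 x y := by
  let w : Fin (k + 1) → Fin (l + 1) → ℝ := fun i j => (v i).1 j - if j = j₀ then 1 / 4 else 0
  have hw0 : ∀ i j, 0 ≤ w i j := fun i j => by
    simp only [w]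
    split_ifs with e
    · rw [e]; linarith [h i]
    · simpa using (v i).2.1 j
  have hw1 : ∀ i, ∑ j, w i j = 3 / 4 := fun i => by
    simp only [w, Finset.sum_sub_distrib, (v i).2.2, Finset.sum_ite_eq', Finset.mem_univ, if_true]
    norm_num
  have key : ∀ j, (aff v x).1 j - (aff v y).1 j = ∑ i, (x.1 i - y.1 i) * w i j := fun j => by
    simp only [aff_apply, w, mul_sub, Finset.sum_sub_distrib, sub_mul, ← Finset.sum_mul, x.2.2,
      y.2.2]
    ring
  calc d1 (aff v x) (aff v y) ≤ ∑ j, ∑ i, |x.1 i - y.1 i| * w i j := by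
        refine Finset.sum_le_sum fun j _ => ?_
        rw [key]
        refine (Finset.abs_sum_le_sum_abs _ _).trans (le_of_eq ?_)
        exact Finset.sum_congr rfl fun i _ => by rw [abs_mul, abs_of_nonneg (hw0 i j)]
    _ = 3 / 4 * d1 x y := by
        rw [Finset.sum_comm]
        simp only [← Finset.mul_sum, hw1, d1]
        rw [← Finset.sum_mul, mul_comm]

abbrev SdL (k l : ℕ) : Type := List (ℤ × (Fin (k + 1) → Finset (Fin (l + 1))))

def sd1 : SdL 1 1 := [(1, ![{0, 1}, {1}]),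
    (-1, ![{0, 1}, {0}])]

def sd2 : SdL 2 2 := [(1, ![{0, 1, 2}, {1, 2}, {2}]),
    (-1, ![{0, 1, 2}, {1, 2}, {1}]),
    (-1, ![{0, 1, 2}, {0, 2}, {2}]),
    (1, ![{0, 1, 2}, {0, 2}, {0}]),
    (1, ![{0, 1, 2}, {0, 1}, {1}]),
    (-1, ![{0, 1, 2}, {0, 1}, {0}])]

def sd3 : SdL 3 3 := [(1, ![{0, 1, 2, 3}, {1, 2, 3}, {2, 3}, {3}]),
    (-1, ![{0, 1, 2, 3}, {1, 2, 3}, {2, 3}, {2}]),
    (-1, ![{0, 1, 2, 3}, {1, 2, 3}, {1, 3}, {3}]),
    (1, ![{0, 1, 2, 3}, {1, 2, 3}, {1, 3}, {1}]),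
    (1, ![{0, 1, 2, 3}, {1, 2, 3}, {1, 2}, {2}]),
    (-1, ![{0, 1, 2, 3}, {1, 2, 3}, {1, 2}, {1}]),
    (-1, ![{0, 1, 2, 3}, {0, 2, 3}, {2, 3}, {3}]),
    (1, ![{0, 1, 2, 3}, {0, 2, 3}, {2, 3}, {2}]),
    (1, ![{0, 1, 2, 3}, {0, 2, 3}, {0, 3}, {3}]),
    (-1, ![{0, 1, 2, 3}, {0, 2, 3}, {0, 3}, {0}]),
    (-1, ![{0, 1, 2, 3}, {0, 2, 3}, {0, 2}, {2}]),
    (1, ![{0, 1, 2, 3}, {0, 2, 3}, {0, 2}, {0}]),
    (1, ![{0, 1, 2, 3}, {0, 1, 3}, {1, 3}, {3}]),
    (-1, ![{0, 1, 2, 3}, {0, 1, 3}, {1, 3}, {1}]),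
    (-1, ![{0, 1, 2, 3}, {0, 1, 3}, {0, 3}, {3}]),
    (1, ![{0, 1, 2, 3}, {0, 1, 3}, {0, 3}, {0}]),
    (1, ![{0, 1, 2, 3}, {0, 1, 3}, {0, 1}, {1}]),
    (-1, ![{0, 1, 2, 3}, {0, 1, 3}, {0, 1}, {0}]),
    (-1, ![{0, 1, 2, 3}, {0, 1, 2}, {1, 2}, {2}]),
    (1, ![{0, 1, 2, 3}, {0, 1, 2}, {1, 2}, {1}]),
    (1, ![{0, 1, 2, 3}, {0, 1, 2}, {0, 2}, {2}]),
    (-1, ![{0, 1, 2, 3}, {0, 1, 2}, {0, 2}, {0}]),
    (-1, ![{0, 1, 2, 3}, {0, 1, 2}, {0, 1}, {1}]),
    (1, ![{0, 1, 2, 3}, {0, 1, 2}, {0, 1}, {0}])]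

def lsum {α : Type} (l : List (ℤ × α)) (ψ : α → ℤ) : ℤ := (l.map fun p => p.1 * ψ p.2).sum

def coef {α : Type} [DecidableEq α] (l : List (ℤ × α)) (a : α) : ℤ :=
  (l.map fun p => if p.2 = a then p.1 else 0).sum

theorem lsum_eq_coef {α : Type} [DecidableEq α] (l : List (ℤ × α)) (ψ : α → ℤ) (s : Finset α)
    (hs : ∀ p ∈ l, p.2 ∈ s) : lsum l ψ = ∑ a ∈ s, coef l a * ψ a := by
  induction l with
  | nil => simp [lsum, coef]
  | cons p l ih =>
    have h1 : lsum (p :: l) ψ = p.1 * ψ p.2 + lsum l ψ := by simp [lsum]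
    have h2 : ∀ a, coef (p :: l) a = (if p.2 = a then p.1 else 0) + coef l a := fun a => by
      simp [coef]
    rw [h1, ih fun q hq => hs q (List.mem_cons_of_mem _ hq)]
    simp only [h2, add_mul, Finset.sum_add_distrib, ite_mul, zero_mul, Finset.sum_ite_eq,
      hs p List.mem_cons_self, if_true]

theorem lsum_eq_of_coef {α : Type} [DecidableEq α] {l l' : List (ℤ × α)}
    (h : ∀ p ∈ l ++ l', coef l p.2 = coef l' p.2) (ψ : α → ℤ) : lsum l ψ = lsum l' ψ := by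
  rw [lsum_eq_coef l ψ ((l ++ l').map Prod.snd).toFinset
      fun p hp => List.mem_toFinset.2 (List.mem_map.2 ⟨p, List.mem_append_left _ hp, rfl⟩),
    lsum_eq_coef l' ψ ((l ++ l').map Prod.snd).toFinset
      fun p hp => List.mem_toFinset.2 (List.mem_map.2 ⟨p, List.mem_append_right _ hp, rfl⟩)]
  refine Finset.sum_congr rfl fun a ha => ?_
  obtain ⟨p, hp, rfl⟩ := List.mem_map.1 (List.mem_toFinset.1 ha)
  rw [h p hp]

theorem lsum_flatMap {α β : Type} (l : List β) (f : β → List (ℤ × α)) (ψ : α → ℤ) :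
    lsum (l.flatMap f) ψ = (l.map fun b => lsum (f b) ψ).sum := by
  induction l with
  | nil => simp [lsum]
  | cons b l ih => simp only [lsum] at ih ⊢; simp [ih]

theorem lsum_congr {α : Type} {l : List (ℤ × α)} {ψ ψ' : α → ℤ} (h : ∀ p ∈ l, ψ p.2 = ψ' p.2) :
    lsum l ψ = lsum l ψ' := by
  unfold lsum
  rw [List.map_congr_left fun p hp => by rw [h p hp]]

theorem lsum_sub {α : Type} (l : List (ℤ × α)) (ψ ψ' : α → ℤ) :
    lsum l (fun a => ψ a - ψ' a) = lsum l ψ - lsum l ψ' := by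
  induction l with
  | nil => simp [lsum]
  | cons p l ih => simp only [lsum, List.map_cons, List.sum_cons] at ih ⊢; rw [ih]; ring

variable {X : Type} [TopologicalSpace X]

/-- The subdivision operator on cochains. -/
noncomputable def Sd {k : ℕ} (l : SdL k k) (φ : C(Dl k, X) → ℤ) (σ : C(Dl k, X)) : ℤ :=
  lsum l fun f => φ (σ.comp (aff fun i => bary (f i)))

/-- The coboundary. -/
noncomputable def cob {k : ℕ} (φ : C(Dl k, X) → ℤ) (w : C(Dl (k + 1), X)) : ℤ :=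
  ∑ i : Fin (k + 2), (-1) ^ i.val * φ (w.comp (face i))

theorem cob_one (φ : C(Dl 1, X) → ℤ) (w : C(Dl 2, X)) :
    cob φ w = φ (w.comp (face 0)) - φ (w.comp (face 1)) + φ (w.comp (face 2)) := by
  refine (Fin.sum_univ_three (fun i : Fin 3 => (-1) ^ i.val * φ (w.comp (face i)))).trans ?_
  simp [sub_eq_add_neg]

theorem cob_two (φ : C(Dl 2, X) → ℤ) (w : C(Dl 3, X)) :
    cob φ w = φ (w.comp (face 0)) - φ (w.comp (face 1)) + φ (w.comp (face 2)) -
      φ (w.comp (face 3)) := by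
  refine (Fin.sum_univ_four (fun i : Fin 4 => (-1) ^ i.val * φ (w.comp (face i)))).trans ?_
  have : ((3 : Fin 4) : ℕ) = 3 := rfl
  simp [sub_eq_add_neg, this]

def lhsL {k : ℕ} (l : SdL k k) : SdL k (k + 1) :=
  (List.finRange (k + 2)).flatMap fun i => l.map fun p =>
    ((-1) ^ i.val * p.1, fun m => (p.2 m).map i.succAboveEmb)

def rhsL {k : ℕ} (l : SdL (k + 1) (k + 1)) : SdL k (k + 1) :=
  l.flatMap fun q => (List.finRange (k + 2)).map fun i =>
    (q.1 * (-1) ^ i.val, fun m => q.2 (i.succAbove m))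

theorem cob_Sd {k : ℕ} (l : SdL k k) (l' : SdL (k + 1) (k + 1))
    (h : ∀ p ∈ lhsL l ++ rhsL l', coef (lhsL l) p.2 = coef (rhsL l') p.2)
    (hne : ∀ p ∈ l, ∀ m, (p.2 m).Nonempty) (φ : C(Dl k, X) → ℤ) :
    cob (Sd l φ) = Sd l' (cob φ) := by
  funext w
  have := lsum_eq_of_coef h fun f => φ (w.comp (aff fun i => bary (f i)))
  rw [lhsL, rhsL, lsum_flatMap, lsum_flatMap] at this
  convert this using 1
  · rw [cob, Fin.sum_univ_def]
    congr 1
    refine List.map_congr_left fun i _ => ?_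
    simp only [Sd, lsum, List.map_map, ← List.sum_map_mul_left]
    congr 1
    refine List.map_congr_left fun p hp => ?_
    simp only [Function.comp, ContinuousMap.comp_assoc, face_aff, face_bary i (hne p hp _),
      mul_assoc]
  · simp only [Sd, lsum]
    congr 1
    refine List.map_congr_left fun q _ => ?_
    rw [cob, Fin.sum_univ_def, List.map_map, ← List.sum_map_mul_left]
    congr 1
    refine List.map_congr_left fun i _ => ?_
    simp only [Function.comp, ContinuousMap.comp_assoc, aff_face, mul_assoc]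

theorem chk12 : ∀ p ∈ lhsL sd1 ++ rhsL sd2, coef (lhsL sd1) p.2 = coef (rhsL sd2) p.2 := by
  decide +kernel

theorem chk23 : ∀ p ∈ lhsL sd2 ++ rhsL sd3, coef (lhsL sd2) p.2 = coef (rhsL sd3) p.2 := by
  decide +kernel

def GoodL {k : ℕ} (l : SdL k k) : Prop := ∀ p ∈ l, ∃ j, ∀ m, j ∈ p.2 m ∧ (p.2 m).card ≤ 4

theorem good1 : GoodL sd1 := by unfold GoodL; decide +kernel
theorem good2 : GoodL sd2 := by unfold GoodL; decide +kernel
theorem good3 : GoodL sd3 := by unfold GoodL; decide +kernel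

theorem GoodL.ne {k : ℕ} {l : SdL k k} (h : GoodL l) : ∀ p ∈ l, ∀ m, (p.2 m).Nonempty :=
  fun p hp m => let ⟨j, hj⟩ := h p hp; ⟨j, (hj m).1⟩

theorem cob_iter {k : ℕ} {l : SdL k k} {l' : SdL (k + 1) (k + 1)}
    (h : ∀ φ : C(Dl k, X) → ℤ, cob (Sd l φ) = Sd l' (cob φ)) (φ : C(Dl k, X) → ℤ) (N : ℕ) :
    cob ((Sd l)^[N] φ) = (Sd l')^[N] (cob φ) := by
  induction N with
  | zero => rfl
  | succ N ih => rw [Function.iterate_succ_apply', Function.iterate_succ_apply', h, ih]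

theorem iter_congr {k : ℕ} {l : SdL k k} (hl : GoodL l) {Y : Type} [TopologicalSpace Y]
    (φ : C(Dl k, X) → ℤ) (ψ : C(Dl k, Y) → ℤ) (N : ℕ) : ∀ (σ : C(Dl k, X)) (ρ : C(Dl k, Y)),
    (∀ g : C(Dl k, Dl k), (∀ x y, d1 (g x) (g y) ≤ (3 / 4) ^ N * d1 x y) →
      φ (σ.comp g) = ψ (ρ.comp g)) → (Sd l)^[N] φ σ = (Sd l)^[N] ψ ρ := by
  induction N with
  | zero => intro σ ρ h; exact h (ContinuousMap.id _) (fun x y => by simp)
  | succ N ih =>
    intro σ ρ h
    rw [Function.iterate_succ_apply', Function.iterate_succ_apply']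
    refine lsum_congr fun p hp => ih _ _ fun g hg => ?_
    rw [ContinuousMap.comp_assoc, ContinuousMap.comp_assoc]
    refine h _ fun x y => ?_
    obtain ⟨j, hj⟩ := hl p hp
    refine (d1_aff _ j (fun i => ?_) _ _).trans ?_
    · rw [bary_apply ⟨j, (hj i).1⟩, if_pos (hj i).1, one_div]
      exact inv_anti₀ (Nat.cast_pos.2 (Finset.card_pos.2 ⟨j, (hj i).1⟩)) (by exact_mod_cast (hj i).2)
    · rw [pow_succ]; nlinarith [hg x y]

theorem iter_zero {k : ℕ} (l : SdL k k) (N : ℕ) :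
    (Sd l)^[N] (fun _ : C(Dl k, X) => 0) = fun _ => 0 := by
  induction N with
  | zero => rfl
  | succ N ih =>
    rw [Function.iterate_succ_apply', ih]
    funext σ; simp [Sd, lsum]

theorem iter_sub {k : ℕ} (l : SdL k k) (φ ψ : C(Dl k, X) → ℤ) (N : ℕ) :
    (Sd l)^[N] (fun σ => φ σ - ψ σ) = fun σ => (Sd l)^[N] φ σ - (Sd l)^[N] ψ σ := by
  induction N with
  | zero => rfl
  | succ N ih =>
    simp only [Function.iterate_succ_apply', ih]
    funext σ
    exact lsum_sub _ _ _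

/-- Eventually, iterated subdivisions are subordinate to an open cover. -/
theorem exists_small {k : ℕ} {ι : Type} (V : ι → Set X) (hV : ∀ i, IsOpen (V i))
    (σ : C(Dl k, X)) (h : ∀ x, ∃ i, σ x ∈ V i) : ∃ N₀, ∀ N ≥ N₀, ∀ g : C(Dl k, Dl k),
      (∀ x y, d1 (g x) (g y) ≤ (3 / 4) ^ N * d1 x y) → ∃ i, ∀ x, σ (g x) ∈ V i := by
  obtain ⟨ε, hε, hL⟩ := lebesgue_number_lemma_of_metric (c := fun i => σ ⁻¹' V i) isCompact_univ
    (fun i => (hV i).preimage σ.continuous) (fun x _ => mem_iUnion.2 (h x))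
  obtain ⟨N₀, hN₀⟩ := exists_pow_lt_of_lt_one (half_pos hε) (by norm_num : (3 / 4 : ℝ) < 1)
  refine ⟨N₀, fun N hN g hg => ?_⟩
  obtain ⟨i, hi⟩ := hL (g (vx 0)) trivial
  refine ⟨i, fun x => hi ?_⟩
  have h1 : (3 / 4 : ℝ) ^ N ≤ (3 / 4) ^ N₀ := pow_le_pow_of_le_one (by norm_num) (by norm_num) hN
  have h2 := d1_le_two x (vx 0)
  have h3 : (0 : ℝ) ≤ (3 / 4) ^ N := by positivity
  rw [Metric.mem_ball]
  refine ((dist_le_d1 _ _).trans (hg _ _)).trans_lt ?_
  nlinarith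

/-- Subdivision of a cochain that depends only on the vertices. -/
theorem Sd_vertex (γ : X → X → X → ℤ) (hγ : ∀ x y z w, γ y z w - γ x z w + γ x y w - γ x y z = 0) :
    Sd sd2 (fun σ : C(Dl 2, X) => γ (σ (vx 0)) (σ (vx 1)) (σ (vx 2))) = fun σ =>
      γ (σ (vx 0)) (σ (vx 1)) (σ (vx 2)) -
        cob (fun e : C(Dl 1, X) => γ (e (bary {0, 1})) (e (vx 0)) (e (vx 1))) σ := by
  funext σ
  have f0 : ({0, 1} : Finset (Fin 2)).map (0 : Fin (1 + 2)).succAboveEmb = {1, 2} := by decide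
  have f1 : ({0, 1} : Finset (Fin 2)).map (1 : Fin (1 + 2)).succAboveEmb = {0, 2} := by decide
  have f2 : ({0, 1} : Finset (Fin 2)).map (2 : Fin (1 + 2)).succAboveEmb = {0, 1} := by decide
  have g0 : (0 : Fin 3).succAbove (0 : Fin 2) = 1 := rfl
  have g1 : (0 : Fin 3).succAbove (1 : Fin 2) = 2 := rfl
  have g2 : (1 : Fin 3).succAbove (0 : Fin 2) = 0 := rfl
  have g3 : (1 : Fin 3).succAbove (1 : Fin 2) = 2 := rfl
  have g4 : (2 : Fin 3).succAbove (0 : Fin 2) = 0 := rfl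
  have g5 : (2 : Fin 3).succAbove (1 : Fin 2) = 1 := rfl
  have hne : ({0, 1} : Finset (Fin 2)).Nonempty := by decide
  simp only [Sd, lsum, sd2, List.map_cons, List.map_nil, List.sum_cons, List.sum_nil, cob_one,
    ContinuousMap.comp_apply, aff_vx, face_vx, face_bary _ hne, f0, f1, f2,
    g0, g1, g2, g3, g4, g5, Matrix.cons_val_zero, Matrix.cons_val_one, Matrix.cons_val_two,
    Matrix.head_cons, Matrix.tail_cons, bary_singleton]
  linear_combination hγ (σ (bary {0, 1, 2})) (σ (bary {1, 2})) (σ (vx 1)) (σ (vx 2)) -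
    hγ (σ (bary {0, 1, 2})) (σ (bary {0, 2})) (σ (vx 0)) (σ (vx 2)) +
    hγ (σ (bary {0, 1, 2})) (σ (bary {0, 1})) (σ (vx 0)) (σ (vx 1)) -
    hγ (σ (bary {0, 1, 2})) (σ (vx 0)) (σ (vx 1)) (σ (vx 2))

theorem iter_vertex (γ : X → X → X → ℤ)
    (hγ : ∀ x y z w, γ y z w - γ x z w + γ x y w - γ x y z = 0) (σ : C(Dl 2, X))
    (h : ∀ (i : Fin 3) (a b c : Dl 1), γ (σ (face i a)) (σ (face i b)) (σ (face i c)) = 0) (N : ℕ) :
    (Sd sd2)^[N] (fun σ : C(Dl 2, X) => γ (σ (vx 0)) (σ (vx 1)) (σ (vx 2))) σ =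
      γ (σ (vx 0)) (σ (vx 1)) (σ (vx 2)) := by
  induction N with
  | zero => rfl
  | succ N ih =>
    rw [Function.iterate_succ_apply, Sd_vertex γ hγ, iter_sub]
    dsimp only
    rw [ih, ← cob_iter (cob_Sd sd1 sd2 chk12 good1.ne), cob, Finset.sum_eq_zero, sub_zero]
    intro i _
    rw [iter_congr good1 _ (fun _ : C(Dl 1, X) => 0) N _ (σ.comp (face i))
      (fun g _ => h i _ _ _), iter_zero, mul_zero]

end Pool.Agent.Lib.MP_42180a_gt
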